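import Pool.Agent.Lib.P07318h.Blk
import Pool.Agent.Lib.P07318o.GsQ
import Pool.Agent.Lib.P07318o.GsRow

/-!
# Large sieve for reduced fractions in a dyadic range of heights, and its dual, without losses

PROOF. `blkL`: a Gaussian weight (`quad1` of P07318o/GsQ.lean, `τ = h - β`, `D = max H 1`, `exp (-(τ/D)²)² ≥ 1/9` for `0 ≤ τ ≤ D`), `‖w i‖ ‖w j‖ ≤ (‖w i‖² + ‖w j‖²)/2` and the sum over a row
(`row_bd` of P07318o/GsRow.lean, `c = 1/8`, the logarithms of the fractions are spaced by `1/(4A)`). `blkL_dual`: duality as in P07318h/Blk.lean.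
-/

set_option autoImplicit false

namespace Pool.Agent.P07318t

open MeasureTheory Complex Pool.Agent.P07318s Pool.Agent.P07318f Pool.Agent.P07318h Pool.Agent.P07318o

namespace BlkLAux

lemma num9 {x : ℝ} (h0 : 0 ≤ x) (h1 : x ≤ 1) : 1 ≤ 9 * Real.exp (-x ^ 2) ^ 2 := by
  have h2 : Real.exp 1 < 3 := by
    have := Real.exp_one_lt_d9
    linarith
  have h3 : Real.exp (-1) ≤ Real.exp (-x ^ 2) := Real.exp_le_exp.2 (by nlinarith)
  have h4 : 1 / 3 ≤ Real.exp (-1) := by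
    rw [Real.exp_neg, one_div]
    exact inv_anti₀ (Real.exp_pos _) h2.le
  have h5 : 1 / 3 ≤ Real.exp (-x ^ 2) := h4.trans h3
  nlinarith

lemma blk1 : ∃ C : ℝ, 0 < C ∧ ∀ (A H β : ℝ) (s : Finset Q) (c : Q → ℂ), 1 ≤ A → 1 ≤ H → Dy A s →
    ∫⁻ h in Set.Icc β (β + H), ‖∑ q ∈ s, c q * ex h q.1‖ₑ ^ 2 ≤
      ENNReal.ofReal (C * (H + A)) * ∑ q ∈ s, ‖c q‖ₑ ^ 2 := by
  obtain ⟨C₀, hC₀, hrow⟩ := row_bd (1 / 8) (by norm_num)
  refine ⟨9 * (2 * C₀), by positivity, fun A H β s c hA hH hs => ?_⟩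
  have hH0 : 0 < H := by linarith
  set w : Q → ℂ := fun q => c q * ex β q.1 with hw
  set a : Q → ℝ := fun q => -lgr q.1 with ha
  set G : ℝ → ENNReal := fun τ => ‖((Real.exp (-(τ / H) ^ 2) : ℝ) : ℂ) *
    ∑ q ∈ s, w q * cexp (((τ * a q : ℝ) : ℂ) * I)‖ₑ ^ 2 with hG
  have h1 : ∀ h ∈ Set.Icc β (β + H), ‖∑ q ∈ s, c q * ex h q.1‖ₑ ^ 2 ≤ ENNReal.ofReal 9 * G (h - β) := by
    intro h hh
    have e1 : ∑ q ∈ s, c q * ex h q.1 = ∑ q ∈ s, w q * cexp ((((h - β) * a q : ℝ) : ℂ) * I) := by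
      refine Finset.sum_congr rfl fun q _ => ?_
      simp only [hw, ha]
      unfold ex
      rw [mul_assoc, ← Complex.exp_add]
      congr 2
      push_cast
      ring
    rw [hG]
    simp only
    rw [← e1, enorm_mul, mul_pow, ← mul_assoc]
    have e2 : (1 : ENNReal) ≤ ENNReal.ofReal 9 * ‖((Real.exp (-((h - β) / H) ^ 2) : ℝ) : ℂ)‖ₑ ^ 2 := by
      rw [← ofReal_norm, Complex.norm_real, Real.norm_of_nonneg (Real.exp_pos _).le,
        ← ENNReal.ofReal_pow (Real.exp_pos _).le, ← ENNReal.ofReal_mul (by norm_num), ← ENNReal.ofReal_one]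
      apply ENNReal.ofReal_le_ofReal
      refine num9 (div_nonneg (by linarith [hh.1]) hH0.le) ?_
      rw [div_le_one hH0]
      linarith [hh.2]
    calc ‖∑ q ∈ s, c q * ex h q.1‖ₑ ^ 2 = 1 * ‖∑ q ∈ s, c q * ex h q.1‖ₑ ^ 2 := (one_mul _).symm
      _ ≤ _ := mul_le_mul_left e2 _
  have h2 : ∫⁻ h in Set.Icc β (β + H), ‖∑ q ∈ s, c q * ex h q.1‖ₑ ^ 2 ≤ ENNReal.ofReal 9 * ∫⁻ τ, G τ := by
    calc ∫⁻ h in Set.Icc β (β + H), ‖∑ q ∈ s, c q * ex h q.1‖ₑ ^ 2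
        ≤ ∫⁻ h in Set.Icc β (β + H), ENNReal.ofReal 9 * G (h - β) := setLIntegral_mono' measurableSet_Icc h1
      _ ≤ ∫⁻ h, ENNReal.ofReal 9 * G (h - β) := setLIntegral_le_lintegral _ _
      _ = ENNReal.ofReal 9 * ∫⁻ h, G (h - β) := lintegral_const_mul' _ _ ENNReal.ofReal_ne_top
      _ = ENNReal.ofReal 9 * ∫⁻ τ, G τ := by rw [lintegral_sub_right_eq_self G β]
  have hnw : ∀ q, ‖w q‖ = ‖c q‖ := fun q => by
    simp only [hw]
    rw [norm_mul, norm_ex, mul_one]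
  have hS : ∑ i ∈ s, ∑ j ∈ s, ‖w i‖ * ‖w j‖ * Real.exp (-(H * (a i - a j)) ^ 2 / 8) ≤
      C₀ * (1 + A / H) * ∑ i ∈ s, ‖w i‖ ^ 2 := by
    have hA1 : ∑ i ∈ s, ∑ j ∈ s, ‖w i‖ ^ 2 / 2 * Real.exp (-(H * (a i - a j)) ^ 2 / 8) ≤
        C₀ * (1 + A / H) * ∑ i ∈ s, ‖w i‖ ^ 2 / 2 := by
      rw [Finset.mul_sum]
      refine Finset.sum_le_sum fun i _ => ?_
      rw [← Finset.mul_sum, mul_comm (C₀ * (1 + A / H))]
      refine mul_le_mul_of_nonneg_left ?_ (by positivity)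
      refine le_trans (le_of_eq (Finset.sum_congr rfl fun j _ => ?_)) (hrow H A (lgr i.1) s hH hA hs)
      congr 1
      simp only [ha]
      ring
    have hA2 : ∑ i ∈ s, ∑ j ∈ s, ‖w j‖ ^ 2 / 2 * Real.exp (-(H * (a i - a j)) ^ 2 / 8) ≤
        C₀ * (1 + A / H) * ∑ i ∈ s, ‖w i‖ ^ 2 / 2 := by
      rw [Finset.sum_comm, Finset.mul_sum]
      refine Finset.sum_le_sum fun i _ => ?_
      rw [← Finset.mul_sum, mul_comm (C₀ * (1 + A / H))]
      refine mul_le_mul_of_nonneg_left ?_ (by positivity)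
      refine le_trans (le_of_eq (Finset.sum_congr rfl fun j _ => ?_)) (hrow H A (lgr i.1) s hH hA hs)
      congr 1
      simp only [ha]
      ring
    have h3 : ∑ i ∈ s, ∑ j ∈ s, ‖w i‖ * ‖w j‖ * Real.exp (-(H * (a i - a j)) ^ 2 / 8) ≤
        ∑ i ∈ s, ∑ j ∈ s, ‖w i‖ ^ 2 / 2 * Real.exp (-(H * (a i - a j)) ^ 2 / 8) +
        ∑ i ∈ s, ∑ j ∈ s, ‖w j‖ ^ 2 / 2 * Real.exp (-(H * (a i - a j)) ^ 2 / 8) := by
      rw [← Finset.sum_add_distrib]
      refine Finset.sum_le_sum fun i _ => ?_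
      rw [← Finset.sum_add_distrib]
      refine Finset.sum_le_sum fun j _ => ?_
      rw [← add_mul]
      refine mul_le_mul_of_nonneg_right ?_ (Real.exp_pos _).le
      nlinarith [sq_nonneg (‖w i‖ - ‖w j‖)]
    have h4 : ∑ i ∈ s, ‖w i‖ ^ 2 / 2 = (∑ i ∈ s, ‖w i‖ ^ 2) / 2 := by rw [Finset.sum_div]
    rw [h4] at hA1 hA2
    linarith
  refine h2.trans ?_
  refine (mul_le_mul_right (quad1 s w a hH0) _).trans ?_
  have h5 : ∑ q ∈ s, ‖c q‖ₑ ^ 2 = ENNReal.ofReal (∑ q ∈ s, ‖c q‖ ^ 2) := by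
    rw [ENNReal.ofReal_sum_of_nonneg fun q _ => by positivity]
    exact Finset.sum_congr rfl fun q _ => by rw [ENNReal.ofReal_pow (norm_nonneg _), ofReal_norm]
  have h6 : 0 ≤ ∑ q ∈ s, ‖c q‖ ^ 2 := Finset.sum_nonneg fun q _ => by positivity
  rw [h5, ← ENNReal.ofReal_mul (by norm_num), ← ENNReal.ofReal_mul (by positivity)]
  apply ENNReal.ofReal_le_ofReal
  have h7 : ∑ i ∈ s, ‖w i‖ ^ 2 = ∑ q ∈ s, ‖c q‖ ^ 2 := Finset.sum_congr rfl fun q _ => by rw [hnw]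
  rw [h7] at hS
  calc 9 * (2 * H * ∑ i ∈ s, ∑ j ∈ s, ‖w i‖ * ‖w j‖ * Real.exp (-(H * (a i - a j)) ^ 2 / 8))
      ≤ 9 * (2 * H * (C₀ * (1 + A / H) * ∑ q ∈ s, ‖c q‖ ^ 2)) := by gcongr
    _ = 9 * (2 * C₀) * (H + A) * ∑ q ∈ s, ‖c q‖ ^ 2 := by
        field_simp

end BlkLAux

open BlkLAux

/-- mean square of a trigonometric polynomial with the frequencies in a dyadic range of heights -/
theorem blkL : ∃ C : ℝ, 0 < C ∧ ∀ (A H β : ℝ) (s : Finset Q) (c : Q → ℂ), 1 ≤ A → 0 ≤ H → Dy A s →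
    ∫⁻ h in Set.Icc β (β + H), ‖∑ q ∈ s, c q * ex h q.1‖ₑ ^ 2 ≤
      ENNReal.ofReal (C * (H + A)) * ∑ q ∈ s, ‖c q‖ₑ ^ 2 := by
  obtain ⟨C, hC, hb⟩ := blk1
  refine ⟨C * 2, by positivity, fun A H β s c hA hH hs => ?_⟩
  have h1 := hb A (max H 1) β s c hA (le_max_right H 1) hs
  have h2 : ∫⁻ h in Set.Icc β (β + H), ‖∑ q ∈ s, c q * ex h q.1‖ₑ ^ 2 ≤
      ∫⁻ h in Set.Icc β (β + max H 1), ‖∑ q ∈ s, c q * ex h q.1‖ₑ ^ 2 := by
    refine lintegral_mono_set (Set.Icc_subset_Icc le_rfl ?_)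
    have := le_max_left H 1
    linarith
  refine h2.trans (h1.trans (mul_le_mul_left (ENNReal.ofReal_le_ofReal ?_) _))
  have h3 : max H 1 ≤ H + 1 := max_le (by linarith) (by linarith)
  nlinarith

/-- the dual inequality -/
theorem blkL_dual : ∃ C : ℝ, 0 < C ∧ ∀ (A L a M : ℝ) (s : Finset Q) (Φ : ℝ → ℂ),
    1 ≤ A → 0 ≤ L → Dy A s → Measurable Φ → (∀ t, t ∉ Set.Icc a (a + L) → Φ t = 0) →
    (∀ t, ‖Φ t‖ ≤ M) →
    ∑ q ∈ s, ‖∫ t, Φ t * ex t q.1‖ₑ ^ 2 ≤ ENNReal.ofReal (C * (L + A)) * ∫⁻ t, ‖Φ t‖ₑ ^ 2 := by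
  obtain ⟨C, hC, hb⟩ := blkL
  refine ⟨C, hC, fun A L a M s Φ hA hL hs hΦ hsupp hM => ?_⟩
  set K : ENNReal := ENNReal.ofReal (C * (L + A)) with hK
  set z : Q → ℂ := fun q => ∫ t, Φ t * ex t q.1 with hz
  set c : Q → ℂ := fun q => (starRingEnd ℂ) (z q) with hc
  set F : ℝ → ℂ := fun t => ∑ q ∈ s, c q * ex t q.1 with hF
  have hFm : Measurable F := by
    apply Continuous.measurable
    rw [hF]
    exact continuous_finsetSum _ fun q _ => continuous_const.mul (BlkAux.ex_cont q.1)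
  have hint : ∀ q : Q, Integrable (fun t => Φ t * ex t q.1) volume := by
    intro q
    have h1 : IntegrableOn (fun t => Φ t * ex t q.1) (Set.Icc a (a + L)) volume := by
      refine IntegrableOn.of_bound (by simp) ?_ M ?_
      · exact (hΦ.mul (BlkAux.ex_cont q.1).measurable).aestronglyMeasurable
      · exact Filter.Eventually.of_forall fun t => by
          rw [norm_mul, norm_ex, mul_one]
          exact hM t
    rw [← integrableOn_iff_integrable_of_support_subset (s := Set.Icc a (a + L))]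
    · exact h1
    · intro t ht
      by_contra hn
      exact ht (by simp only [hsupp t hn, zero_mul])
  have hnz : ∀ q : Q, ‖c q‖ₑ = ‖z q‖ₑ := fun q => by
    simp only [hc]
    exact RCLike.enorm_conj _
  set S : ENNReal := ∑ q ∈ s, ‖z q‖ₑ ^ 2 with hS
  have hStop : S ≠ ⊤ := by
    rw [hS]
    exact ENNReal.sum_ne_top.2 fun q _ => ENNReal.pow_ne_top enorm_ne_top
  have hbox : ∫⁻ t in Set.Icc a (a + L), ‖F t‖ₑ ^ 2 ≤ K * S := by
    have h1 := hb A L a s c hA hL hs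
    simp only [hnz] at h1
    exact h1
  have hid : (∫ t, Φ t * F t) = ((∑ q ∈ s, ‖z q‖ ^ 2 : ℝ) : ℂ) := by
    have h1 : ∀ t, Φ t * F t = ∑ q ∈ s, c q * (Φ t * ex t q.1) := by
      intro t
      simp only [hF, Finset.mul_sum]
      exact Finset.sum_congr rfl fun q _ => by ring
    simp only [h1]
    rw [integral_finsetSum _ fun q _ => (hint q).const_mul (c q)]
    push_cast
    refine Finset.sum_congr rfl fun q _ => ?_
    rw [integral_const_mul]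
    change c q * z q = _
    simp only [hc]
    rw [mul_comm, Complex.mul_conj, Complex.normSq_eq_norm_sq]
    push_cast
    ring
  have hS1 : S = ‖∫ t, Φ t * F t‖ₑ := by
    rw [hid, ← ofReal_norm, Complex.norm_real, Real.norm_of_nonneg (by positivity), hS,
      ENNReal.ofReal_sum_of_nonneg fun q _ => by positivity]
    exact Finset.sum_congr rfl fun q _ => by
      rw [ENNReal.ofReal_pow (norm_nonneg _), ofReal_norm]
  have hS2 : S ≤ ∫⁻ t in Set.Icc a (a + L), ‖Φ t‖ₑ * ‖F t‖ₑ := by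
    rw [hS1]
    refine (enorm_integral_le_lintegral_enorm _).trans ?_
    rw [← lintegral_indicator measurableSet_Icc]
    refine lintegral_mono fun t => ?_
    by_cases ht : t ∈ Set.Icc a (a + L)
    · rw [Set.indicator_of_mem ht, enorm_mul]
    · rw [Set.indicator_of_notMem ht, hsupp t ht, zero_mul, enorm_zero]
  have hP : ∫⁻ t in Set.Icc a (a + L), ‖Φ t‖ₑ ^ 2 ≤ ∫⁻ t, ‖Φ t‖ₑ ^ 2 :=
    setLIntegral_le_lintegral _ _
  have hcs : S ^ 2 ≤ (∫⁻ t, ‖Φ t‖ₑ ^ 2) * (K * S) := by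
    calc S ^ 2 ≤ (∫⁻ t in Set.Icc a (a + L), ‖Φ t‖ₑ * ‖F t‖ₑ) ^ 2 := by gcongr
      _ ≤ (∫⁻ t in Set.Icc a (a + L), ‖Φ t‖ₑ ^ 2) * ∫⁻ t in Set.Icc a (a + L), ‖F t‖ₑ ^ 2 :=
          BlkAux.cs _ _ _ hΦ.enorm hFm.enorm
      _ ≤ _ := mul_le_mul' hP hbox
  by_cases hS0 : S = 0
  · rw [hS0]
    exact zero_le
  · have h1 : S * S ≤ (K * ∫⁻ t, ‖Φ t‖ₑ ^ 2) * S := by
      calc S * S = S ^ 2 := (sq S).symm
        _ ≤ (∫⁻ t, ‖Φ t‖ₑ ^ 2) * (K * S) := hcs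
        _ = _ := by ring
    exact (ENNReal.mul_le_mul_iff_left hS0 hStop).1 h1

end Pool.Agent.P07318t
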