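import Pool.Agent.Lib.P07318h.Defs
import Pool.Agent.Lib.P07318o.Defs

/-!
# Shifted moments of the Riemann zeta function, polylogarithmic boxes: definitions
-/

set_option autoImplicit false

namespace Pool.Agent.P07318t

open MeasureTheory Complex Pool.Agent.P07318s Pool.Agent.P07318f Pool.Agent.P07318h Pool.Agent.P07318o

/-- one plus the logarithm -/
noncomputable def lo (U : ℝ) : ℝ := 1 + Real.log U

/-- the exponent `1 / (4 lo U)` -/
noncomputable def dl (U : ℝ) : ℝ := 1 / (4 * lo U)

/-- the centres: one fixed, `n` free -/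
noncomputable def ce {n : ℕ} (α : ℝ) (β : Fin n → ℝ) : Fin (n + 1) → ℝ := Fin.cons α β

/-- the exceptional set: one of the windows of `t` has mean larger than `K` -/
noncomputable def EE {n : ℕ} (K H α U : ℝ) (β : Fin n → ℝ) : Set ℝ :=
  {t | t ∈ Set.Icc 0 (2 * U) ∧ ∃ j : Fin (n + 1), K * H < wm (ce α β j) H ⌊t / H⌋₊}

lemma one_le_lo {U : ℝ} (hU : 1 ≤ U) : 1 ≤ lo U := by
  unfold lo
  have := Real.log_nonneg hU
  linarith

lemma lo_pos {U : ℝ} (hU : 1 ≤ U) : 0 < lo U := lt_of_lt_of_le one_pos (one_le_lo hU)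

lemma dl_pos {U : ℝ} (hU : 1 ≤ U) : 0 < dl U := by
  unfold dl
  have := lo_pos hU
  positivity

lemma dl_le {U : ℝ} (hU : 1 ≤ U) : dl U ≤ 1 / 4 := by
  unfold dl
  have := one_le_lo hU
  exact div_le_div_of_nonneg_left (by norm_num) (by norm_num) (by linarith)

/-- powers of `U` with the exponents `c dl U` are bounded -/
lemma rpow_dl {U c : ℝ} (hU : 1 ≤ U) (hc : 0 ≤ c) : U ^ (c * dl U) ≤ Real.exp c := by
  have hU0 : 0 < U := by linarith
  rw [Real.rpow_def_of_pos hU0]
  apply Real.exp_le_exp.2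
  have h1 := lo_pos hU
  have h2 : Real.log U ≤ lo U := by unfold lo; linarith
  have h3 := Real.log_nonneg hU
  unfold dl
  rw [show Real.log U * (c * (1 / (4 * lo U))) = c * (Real.log U / (4 * lo U)) by ring]
  have h4 : Real.log U / (4 * lo U) ≤ 1 := by
    rw [div_le_one (by positivity)]
    linarith
  nlinarith

/-- the majorant with logarithms against the majorant with powers -/
lemma kl_le_kap {δ U h : ℝ} (hδ : 0 ≤ δ) (hU : 1 ≤ U) (hh : 1 ≤ h) : kl U h ≤ lo U * kap δ U h := by
  unfold kl kap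
  have hh0 : 0 < h := by linarith
  split_ifs with h1
  · have h2 : 1 ≤ U / h := (one_le_div hh0).2 h1
    have h3 : 1 ≤ (U / h) ^ δ := Real.one_le_rpow h2 hδ
    have h4 : Real.log (U / h) ≤ Real.log U := by
      rw [Real.log_div (by linarith) (by linarith)]
      have := Real.log_nonneg hh
      linarith
    have h5 : 1 + Real.log (U / h) ≤ lo U := by unfold lo; linarith
    have h6 := lo_pos hU
    nlinarith
  · have h2 : 0 ≤ (U / h) ^ 2 := by positivity
    have h3 := one_le_lo hU
    rw [Real.rpow_two]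
    nlinarith

end Pool.Agent.P07318t
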