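import Pool.Agent.Lib.P07318h.NearOne
import Pool.Agent.Lib.P07318t.Defs

/-!
# The bound of zeta near the line `Re = 1` at every height of modulus at least `1`

PROOF. `near_one` (P07318h/NearOne.lean) with `δ₁ = 1`, applied at the height `|τ|` itself.
-/

set_option autoImplicit false

namespace Pool.Agent.P07318t

open MeasureTheory Complex Pool.Agent.P07318s Pool.Agent.P07318f Pool.Agent.P07318h

/-- the bound near the line `Re = 1` at every height of modulus at least `1` -/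
theorem near_l (m : ℕ) (hm : 1 ≤ m) : ∃ c C : ℝ, 0 < c ∧ c ≤ 1 / 8 ∧ 0 < C ∧
    ∀ U σ τ : ℝ, 1 ≤ U → 1 - c ≤ σ → σ ≤ 3 → 1 ≤ |τ| → |τ| ≤ 16 * U →
    ‖riemannZeta (σ + (τ : ℂ) * I)‖ ≤ C * U ^ (c / m) := by
  obtain ⟨c, C, hc, hc8, hC, h⟩ := near_one m hm 1 one_pos le_rfl
  have hm0 : (0:ℝ) < m := by exact_mod_cast hm
  refine ⟨c, C * 16 ^ (c / m), hc, hc8, by positivity, fun U σ τ hU h1 h2 h3 h4 => ?_⟩
  have h5 := h |τ| σ τ h3 h1 h2 (by rw [Real.rpow_one]) (by linarith)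
  refine h5.trans ?_
  rw [mul_assoc]
  refine mul_le_mul_of_nonneg_left ?_ hC.le
  rw [← Real.mul_rpow (by norm_num) (by linarith)]
  exact Real.rpow_le_rpow (by linarith) h4 (by positivity)

end Pool.Agent.P07318t
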