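import Pool.Agent.Lib.P07318h.MainPt
import Pool.Agent.Lib.P07318t.NearL

/-!
# The diagonal terms equal the main term up to a power saving, if the differences of the heights are at least the square of the logarithm

PROOF. As P07318h/MainPt.lean: `main_core` with the contours cut at the height `Y` instead of `U^κ` (only `Y ≤ U^κ` and `exp(-Y²/2) ≤ C / U` are used), here `Y = log U`, and `near_one` applied at the height `|τ| ≥ 1` itself.
-/

set_option autoImplicit false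

namespace Pool.Agent.P07318t

open MeasureTheory Complex Pool.Agent.P07318s Pool.Agent.P07318f Pool.Agent.P07318h

namespace MainLAux

open MainPtAux

lemma main_core_y (k : ℕ) (hk : 1 ≤ k) {c₂ κ b : ℝ} (hc₂ : 0 < c₂) (hc₂8 : c₂ ≤ 1 / 8) (hκ0 : 0 < κ)
    (hκ : κ * k ≤ c₂ / 16) (hb : b * (k * k) ≤ c₂ / 16) (hb0 : 0 ≤ b) (B : ℝ) (hB : 0 < B) (C2 : ℝ) (hC2 : 0 < C2) :
    ∃ C : ℝ, 0 < C ∧
    ∀ (U Y : ℝ) (x : Fin k → ℝ), 1 ≤ U → 1 ≤ Y → Y ≤ U ^ κ → Real.exp (-(Y ^ 2 / 2)) ≤ C2 * U ^ (-1 : ℝ) → (∀ j, U ≤ x j) → (∀ j, x j ≤ 4 * U) →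
    (∀ i j, i ≠ j → Gd c₂ Y (B * U ^ b) (x i - x j)) →
    ‖Dg x - mainTerm x‖ ≤ C * U ^ (-(c₂ / 4)) := by
  have hk' : (1:ℝ) ≤ k := by exact_mod_cast hk
  obtain ⟨K, hK⟩ : ∃ K : ℝ, K = (k:ℝ) + 1 := ⟨_, rfl⟩
  have hK2 : 2 ≤ K := by linarith
  have hK0 : 0 < K := by linarith
  obtain ⟨a, ha⟩ : ∃ a : ℝ, a = c₂ / 2 := ⟨_, rfl⟩
  have ha0 : 0 < a := by linarith
  have ha16 : a ≤ 1 / 16 := by linarith
  obtain ⟨c, hc⟩ : ∃ c : ℝ, c = c₂ / (16 * K) := ⟨_, rfl⟩
  obtain ⟨r, hr⟩ : ∃ r : ℝ, r = c / 2 := ⟨_, rfl⟩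
  have hc0 : 0 < c := by rw [hc]; positivity
  have hc32 : c ≤ c₂ / 32 := by
    rw [hc]
    exact div_le_div_of_nonneg_left hc₂.le (by norm_num) (by linarith)
  have hr0 : 0 < r := by linarith
  have hkc : c * k ≤ a / 8 := by
    rw [hc, ha, div_mul_eq_mul_div, div_div, div_le_div_iff₀ (by positivity) (by norm_num)]
    nlinarith
  obtain ⟨CA, hCA0, hCA⟩ := AX_bound k (e := 1 / 4) (ρ := c) hc0 (by linarith) (by linarith)
  obtain ⟨CZ, hCZ0, hCZ⟩ := zeta_P (r := r) (c := c) hr0 (by linarith) hc0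
  obtain ⟨C1, hC1, h1v⟩ := one_diff (e := 1 / 2 - a) (r := r) (c := c) hr0 (by linarith) (by linarith) (by linarith)
    (by linarith)
  obtain ⟨C3, hC3, hdg⟩ := dg_trunc k (c := c) hc0 (by linarith)
  obtain ⟨M, hM⟩ : ∃ M : ℝ, M = max (max B CZ) 1 := ⟨_, rfl⟩
  have hM1 : 1 ≤ M := by rw [hM]; exact le_max_right _ _
  refine ⟨C3 * C2 + k * 20 ^ k * (C1 * ((7 / r) ^ k * (CA * M ^ (k * k))) * (7 + 7 * C2)), by positivity,
    fun U Y x hU hY hYκ hexp hx1 hx2 hgood => ?_⟩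
  have hU0 : 0 < U := by linarith
  have hYk : 1 ≤ U ^ κ := Real.one_le_rpow hU hκ0.le
  have hUb : 1 ≤ U ^ b := Real.one_le_rpow hU hb0
  have hxpos : ∀ j, 0 < x j := fun j => by linarith [hx1 j]
  have hrY : r ≤ Y := by linarith
  have hMb : max (max (B * U ^ b) CZ) 1 ≤ M * U ^ b := by
    have h1 : B ≤ M := by rw [hM]; exact (le_max_left _ _).trans (le_max_left _ _)
    have h2 : CZ ≤ M := by rw [hM]; exact (le_max_right _ _).trans (le_max_left _ _)
    refine max_le (max_le ?_ ?_) ?_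
    · exact mul_le_mul_of_nonneg_right h1 (by linarith)
    · nlinarith
    · nlinarith
  have hsep : ∀ i j, i ≠ j → 1 < |x i - x j| := fun i j hij => by
    have := (hgood i j hij).1
    linarith
  have hUc : 1 ≤ U ^ c := Real.one_le_rpow hU hc0.le
  -- the two integrals
  set T1 : ℂ := ∫ v in Set.Icc (fun _ : Fin k => -Y) (fun _ => Y),
    (∏ j, cexp (((c : ℂ) + v j * I) ^ 2)) * FF x (fun j => (c : ℂ) + v j * I) with hT1
  set T2 : ℂ := ∫ v in Set.Icc (fun _ : Fin k => (0:ℝ)) (fun _ => 2 * Real.pi),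
    (∏ j, (r * cexp (v j * I))) * FF x (fun j => r * cexp (v j * I)) with hT2
  obtain ⟨E, hE⟩ : ∃ E : ℝ, E = C1 * ((7 * U ^ c / r) ^ k * (CA * (M * U ^ b) ^ (k * k))) *
    ((7 + 7 * C2) * U ^ (-a)) := ⟨_, rfl⟩
  have hE0 : 0 ≤ E := by rw [hE]; positivity
  -- one variable
  have hone : ∀ w ∈ (Set.univ.pi fun _ : Fin k => PP c Y r), ∀ j : Fin k,
      ‖(∫ v in (-Y)..Y, cexp (((c : ℂ) + v * I) ^ 2) * FF x (Function.update w j ((c : ℂ) + v * I))) -
      ∫ v in (0:ℝ)..(2 * Real.pi), (r * cexp (v * I)) * FF x (Function.update w j (r * cexp (v * I)))‖ ≤ E := by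
    intro w hw j
    have hw' : ∀ i, w i ∈ PP c Y r := fun i => hw i (Set.mem_univ i)
    have hfacts := fun i => PP_facts hr0 (by linarith : r < c) hrY (hw' i)
    have hmem : ∀ s : ℂ, -a ≤ s.re → Function.update w j s ∈ Rg k (1 / 4) c := by
      intro s hs
      refine ⟨j, ?_, fun i hi => ?_⟩
      · rw [Function.update_self]; linarith
      · rw [Function.update_of_ne hi]
        have := (hfacts i).2.1
        linarith
    have h2 := h1v x w j Y ((7 * U ^ c / r) ^ k * (CA * (M * U ^ b) ^ (k * k))) (hxpos j) hY (by positivity)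
      (fun s hs1 hs2 hs3 => by
        refine fj_diff (e := 1 / 4) (ρ := c) hc0 (by linarith) (by linarith) w j (hmem s (by linarith)) ?_ ?_
        · intro i _ h0
          have := (hfacts i).1
          rw [h0, norm_zero] at this
          linarith
        · intro i l hil
          have him : ∀ i, |(Function.update w j s i).im| ≤ Y := by
            intro i
            by_cases h : i = j
            · subst h; rw [Function.update_self]; exact hs3
            · rw [Function.update_of_ne h]; exact (hfacts i).2.2.2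
          exact gd_ne (hgood i l hil) (him i) (him l))
      (fun s hs1 hs2 hs3 => by
        have h3 := fj_bd (a := a) hU hx1 hx2 hr0 (by linarith) (by linarith) (by linarith) (by linarith) hY hgood w hw' hCZ j
          (by linarith) hs2 hs3 (hCA x _ (hmem s (by linarith))).2
        refine h3.trans ?_
        refine mul_le_mul_of_nonneg_left ?_ (by positivity)
        refine mul_le_mul_of_nonneg_left ?_ hCA0.le
        exact pow_le_pow_left₀ (by positivity) hMb _)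
    refine h2.trans ?_
    rw [hE]
    refine mul_le_mul_of_nonneg_left ?_ (by positivity)
    have a1 : (x j / (2 * Real.pi)) ^ (-(1 / 2) + (1 / 2 - a)) ≤ 7 * U ^ (-a) := by
      have := X_rpow_le' (b := a) hU (hx1 j) (by linarith) (by linarith)
      have e1 : -(1 / 2) + (1 / 2 - a) = -a := by ring
      rwa [e1]
    have a2 : (x j / (2 * Real.pi)) ^ c ≤ 7 * U ^ c :=
      X_rpow_le hU (hx1 j) (hx2 j) (r := r) (by linarith) (by linarith) le_rfl hc0.le
    have a3 := hexp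
    have a4 : (x j / (2 * Real.pi)) ^ c * Real.exp (-(Y ^ 2 / 2)) ≤ 7 * U ^ c * (C2 * U ^ (-1 : ℝ)) :=
      mul_le_mul a2 a3 (Real.exp_pos _).le (by positivity)
    have a5 : U ^ c * U ^ (-1 : ℝ) ≤ U ^ (-a) := by
      rw [← Real.rpow_add hU0]
      exact Real.rpow_le_rpow_of_exponent_le hU (by linarith)
    calc (x j / (2 * Real.pi)) ^ (-(1 / 2) + (1 / 2 - a)) + (x j / (2 * Real.pi)) ^ c * Real.exp (-(Y ^ 2 / 2))
        ≤ 7 * U ^ (-a) + 7 * C2 * (U ^ c * U ^ (-1 : ℝ)) := by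
          refine add_le_add a1 (a4.trans (le_of_eq ?_))
          ring
      _ ≤ 7 * U ^ (-a) + 7 * C2 * U ^ (-a) := by
          have := mul_le_mul_of_nonneg_left a5 (by positivity : 0 ≤ 7 * C2)
          linarith
      _ = (7 + 7 * C2) * U ^ (-a) := by ring
  -- telescoping
  have htele : ‖T1 - T2‖ ≤ k * (20 * Y) ^ (k - 1) * E := by
    refine tele (a₁ := -Y) (b₁ := Y) (a₂ := 0) (b₂ := 2 * Real.pi) (by linarith) (by positivity)
      (fun v => (c : ℂ) + v * I) (fun v => r * cexp (v * I)) (fun v => cexp (((c : ℂ) + v * I) ^ 2))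
      (fun v => r * cexp (v * I)) (by fun_prop) (by fun_prop) (by fun_prop) (by fun_prop)
      (M₁ := 3) (M₂ := r) ?_ ?_ ?_ ?_ hE0 (FF x) (PP c Y r) ?_ ?_ ?_ hone
    · intro v _
      rw [Complex.norm_exp]
      have h1 : (((c : ℂ) + v * I) ^ 2).re ≤ 1 := by
        have : (((c : ℂ) + v * I) ^ 2).re = c ^ 2 - v ^ 2 := by
          simp [pow_two]
        rw [this]
        nlinarith [sq_nonneg v]
      calc Real.exp (((c : ℂ) + v * I) ^ 2).re ≤ Real.exp 1 := Real.exp_le_exp.2 h1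
        _ ≤ 3 := by have := Real.exp_one_lt_d9; linarith
    · intro v _
      rw [norm_mul, Complex.norm_exp_ofReal_mul_I, mul_one, Complex.norm_real, Real.norm_of_nonneg hr0.le]
    · linarith
    · have := two_pi_le
      have hr1 : r ≤ 1 := by linarith
      nlinarith [Real.pi_pos]
    · rintro z ⟨v, hv, rfl⟩
      left
      constructor
      · simp
      · simp only [Complex.add_im, Complex.ofReal_im, Complex.mul_im, Complex.ofReal_re, Complex.I_im, mul_one,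
          Complex.I_re, mul_zero, add_zero, zero_add]
        exact abs_le.2 ⟨hv.1, hv.2⟩
    · rintro z ⟨v, hv, rfl⟩
      right
      simp only []
      rw [norm_mul, Complex.norm_exp_ofReal_mul_I, mul_one, Complex.norm_real, Real.norm_of_nonneg hr0.le]
    · refine (FF_cont hxpos (e := 1 / 4) (ρ := c) hc0 (by linarith) (by linarith)).mono fun w hw => ?_
      have hfacts := fun i => PP_facts hr0 (by linarith : r < c) hrY (hw i (Set.mem_univ i))
      refine ⟨fun i h0 => ?_, fun i l hil => ?_, ⟨⟨0, hk⟩, ?_, fun i _ => ?_⟩⟩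
      · have := (hfacts i).1
        rw [h0, norm_zero] at this
        linarith
      · exact gd_ne (hgood i l hil) (hfacts i).2.2.2 (hfacts l).2.2.2
      · have := (hfacts ⟨0, hk⟩).2.1
        linarith
      · have := (hfacts i).2.1
        linarith
  -- the main term
  have hmain : mainTerm x = ((Real.pi : ℂ) ^ k)⁻¹ * T2 := main_eq hk hxpos hsep hr0 (by linarith)
  -- truncation
  have hdg' : ‖Dg x - ((Real.pi : ℂ) ^ k)⁻¹ * T1‖ ≤ C3 * U ^ (k * c) * Real.exp (-(Y ^ 2 / 2)) :=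
    hdg U Y x hU hY hx1 hx2
  have b1 : C3 * U ^ (k * c) * Real.exp (-(Y ^ 2 / 2)) ≤ C3 * C2 * U ^ (-(c₂ / 4)) := by
    have a3 := hexp
    calc C3 * U ^ (k * c) * Real.exp (-(Y ^ 2 / 2)) ≤ C3 * U ^ (k * c) * (C2 * U ^ (-1 : ℝ)) :=
          mul_le_mul_of_nonneg_left a3 (by positivity)
      _ = C3 * C2 * (U ^ (k * c) * U ^ (-1 : ℝ)) := by ring
      _ = C3 * C2 * U ^ (k * c + (-1)) := by rw [← Real.rpow_add hU0]
      _ ≤ C3 * C2 * U ^ (-(c₂ / 4)) := by
          refine mul_le_mul_of_nonneg_left ?_ (by positivity)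
          refine Real.rpow_le_rpow_of_exponent_le hU ?_
          have : (k : ℝ) * c = c * k := mul_comm _ _
          linarith
  have b2 : k * (20 * Y) ^ (k - 1) * E ≤
      k * 20 ^ k * (C1 * ((7 / r) ^ k * (CA * M ^ (k * k))) * (7 + 7 * C2)) * U ^ (-(c₂ / 4)) := by
    have hκ8 : κ * k ≤ a / 8 := by linarith
    have hb8 : b * (k * k) ≤ a / 8 := by linarith
    have h0 : k * (20 * Y) ^ (k - 1) * E ≤ k * (20 * U ^ κ) ^ (k - 1) * E := by
      refine mul_le_mul_of_nonneg_right (mul_le_mul_of_nonneg_left ?_ (Nat.cast_nonneg k)) hE0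
      exact pow_le_pow_left₀ (by linarith) (by linarith) _
    refine h0.trans ?_
    rw [hE]
    have h := pow_aux' k (a := a) hU hr0 hCA0.le (by linarith : 0 ≤ M) hC1.le hC2.le hYk hκ8 hkc hb8 ha0
    have e1 : a / 2 = c₂ / 4 := by rw [ha]; ring
    rw [e1] at h
    exact h
  have hpi : ‖((Real.pi : ℂ) ^ k)⁻¹‖ ≤ 1 := by
    rw [norm_inv, norm_pow, Complex.norm_real, Real.norm_of_nonneg Real.pi_pos.le]
    exact inv_le_one_of_one_le₀ (one_le_pow₀ (by have := Real.pi_gt_three; linarith))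
  rw [hmain]
  calc ‖Dg x - ((Real.pi : ℂ) ^ k)⁻¹ * T2‖
      = ‖(Dg x - ((Real.pi : ℂ) ^ k)⁻¹ * T1) + ((Real.pi : ℂ) ^ k)⁻¹ * (T1 - T2)‖ := by
        congr 1; ring
    _ ≤ ‖Dg x - ((Real.pi : ℂ) ^ k)⁻¹ * T1‖ + ‖((Real.pi : ℂ) ^ k)⁻¹ * (T1 - T2)‖ := norm_add_le _ _
    _ ≤ C3 * C2 * U ^ (-(c₂ / 4)) + k * (20 * Y) ^ (k - 1) * E := by
        refine add_le_add (hdg'.trans b1) ?_
        rw [norm_mul]
        calc ‖((Real.pi : ℂ) ^ k)⁻¹‖ * ‖T1 - T2‖ ≤ 1 * (k * (20 * Y) ^ (k - 1) * E) :=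
              mul_le_mul hpi htele (norm_nonneg _) zero_le_one
          _ = _ := one_mul _
    _ ≤ C3 * C2 * U ^ (-(c₂ / 4)) +
        k * 20 ^ k * (C1 * ((7 / r) ^ k * (CA * M ^ (k * k))) * (7 + 7 * C2)) * U ^ (-(c₂ / 4)) := by
        linarith
    _ = _ := by ring

end MainLAux

open MainLAux MainPtAux

theorem main_pt_log (k : ℕ) : ∃ c C U₀ : ℝ, 0 < c ∧ 0 < C ∧ 1 ≤ U₀ ∧
    ∀ (U : ℝ) (x : Fin k → ℝ), U₀ ≤ U → (∀ j, U ≤ x j) → (∀ j, x j ≤ 4 * U) →
    (∀ i j, i ≠ j → Real.log U ^ 2 ≤ |x i - x j|) → ‖Dg x - mainTerm x‖ ≤ C * U ^ (-c) := by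
  rcases Nat.eq_zero_or_pos k with hk | hk
  · subst hk
    refine ⟨1, 1, 1, one_pos, one_pos, le_rfl, fun U x hU _ _ _ => ?_⟩
    rw [(main_zero x).1, (main_zero x).2, sub_self, norm_zero]
    positivity
  · have hk' : (1:ℝ) ≤ k := by exact_mod_cast hk
    obtain ⟨m, hm⟩ : ∃ m : ℕ, m = 64 * (k + 1) ^ 2 := ⟨_, rfl⟩
    have hm1 : 1 ≤ m := by
      rw [hm]
      have : 1 ≤ (k + 1) ^ 2 := Nat.one_le_pow _ _ (by omega)
      omega
    obtain ⟨c₂, C₂, hc₂, hc₂8, hC₂, hno⟩ := near_l m hm1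
    have hmr : (m : ℝ) = 64 * ((k : ℝ) + 1) ^ 2 := by rw [hm]; push_cast; ring
    obtain ⟨κ, hκ⟩ : ∃ κ : ℝ, κ = c₂ / (64 * ((k : ℝ) + 1) ^ 2) := ⟨_, rfl⟩
    have hκ0 : 0 < κ := by rw [hκ]; positivity
    have hkk : (0:ℝ) < 64 * ((k : ℝ) + 1) ^ 2 := by positivity
    obtain ⟨C, hC, hcore⟩ := main_core_y k hk (c₂ := c₂) (κ := κ) (b := c₂ / m) hc₂ hc₂8 hκ0
      (by
        rw [hκ, div_mul_eq_mul_div, div_le_div_iff₀ hkk (by norm_num)]
        nlinarith [mul_pos hc₂ (by linarith : (0:ℝ) < k)])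
      (by
        rw [hmr, div_mul_eq_mul_div, div_le_div_iff₀ hkk (by norm_num)]
        nlinarith [mul_pos hc₂ (by linarith : (0:ℝ) < k)])
      (by positivity) C₂ hC₂ 1 one_pos
    -- log U ≤ U ^ κ for large U
    obtain ⟨U₁, hU₁⟩ : ∃ U₁ : ℝ, ∀ U ≥ U₁, Real.log U ≤ U ^ κ := by
      have h := (isLittleO_log_rpow_atTop hκ0).bound one_pos
      obtain ⟨U₁, h1⟩ := Filter.eventually_atTop.1 h
      refine ⟨max U₁ 1, fun U hU => ?_⟩
      have h2 := h1 U ((le_max_left _ _).trans hU)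
      have h3 : 1 ≤ U := (le_max_right _ _).trans hU
      rw [Real.norm_eq_abs, Real.norm_eq_abs, one_mul, abs_of_nonneg (Real.log_nonneg h3),
        abs_of_nonneg (by positivity)] at h2
      exact h2
    refine ⟨c₂ / 4, C, max U₁ (Real.exp 8), by positivity, hC, ?_, fun U x hU hx1 hx2 hs => ?_⟩
    · exact (Real.one_le_exp (by norm_num)).trans (le_max_right _ _)
    have hUe : Real.exp 8 ≤ U := (le_max_right _ _).trans hU
    have hU1 : 1 ≤ U := (Real.one_le_exp (by norm_num)).trans hUe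
    have hU0 : 0 < U := by linarith
    have hL8 : 8 ≤ Real.log U := by
      rw [← Real.log_exp 8]
      exact Real.log_le_log (Real.exp_pos _) hUe
    have hYk : Real.log U ≤ U ^ κ := hU₁ U ((le_max_left _ _).trans hU)
    have hexp : Real.exp (-(Real.log U ^ 2 / 2)) ≤ 1 * U ^ (-1 : ℝ) := by
      rw [one_mul, Real.rpow_def_of_pos hU0]
      refine Real.exp_le_exp.2 ?_
      nlinarith
    refine hcore U (Real.log U) x hU1 (by linarith) hYk hexp hx1 hx2 fun i j hij => ⟨?_, fun σ v h1 h2 h3 => ?_⟩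
    · have := hs i j hij
      nlinarith
    · have h4 := hs i j hij
      have h5 : |x i - x j| ≤ |x i - x j + v| + |v| := by
        have := abs_sub (x i - x j + v) v
        rwa [add_sub_cancel_right] at this
      have h6 : |x i - x j + v| ≤ |x i - x j| + |v| := abs_add_le _ _
      have h7 : |x i - x j| ≤ 3 * U := by
        rw [abs_le]
        constructor <;> linarith [hx1 i, hx1 j, hx2 i, hx2 j]
      have h8 : Real.log U ≤ U := by
        have := Real.log_le_sub_one_of_pos hU0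
        linarith
      refine hno U σ (x i - x j + v) hU1 h1 h2 ?_ ?_
      · nlinarith
      · linarith

theorem main_l (k : ℕ) : ∃ c C U₀ : ℝ, 0 < c ∧ 0 < C ∧ 1 ≤ U₀ ∧
    ∀ (U : ℝ) (x : Fin k → ℝ), U₀ ≤ U → (∀ j, U ≤ x j) → (∀ j, x j ≤ 4 * U) →
    (∀ i j, i ≠ j → lo U ^ 2 ≤ |x i - x j|) → ‖Dg x - mainTerm x‖ ≤ C * U ^ (-c) := by
  obtain ⟨c, C, U₀, hc, hC, hU₀, h⟩ := main_pt_log k
  refine ⟨c, C, U₀, hc, hC, hU₀, fun U x hU hx1 hx2 hs => h U x hU hx1 hx2 fun i j hij => ?_⟩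
  refine le_trans ?_ (hs i j hij)
  have h1 : 0 ≤ Real.log U := Real.log_nonneg (hU₀.trans hU)
  unfold lo
  nlinarith

end Pool.Agent.P07318t
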