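import Pool.Agent.Lib.P07318t.GridH
import Pool.Agent.Lib.P07318t.MainL
import Pool.Agent.Lib.P07318h.BoxU

/-!
# The product against the main term, boxes of any side from a power of the logarithm on

PROOF. As P07318h/BoxU.lean. `main_l (n+1)` at `U' = 2U` (`U^(-c) ≤ H^(-c)`); the set of `sep_meas` with `D = (lo (2U))²` has measure
`≤ (n+1)² 2 D H^(n-1) ≤ 8 (n+1)² (lo U)² H^(n-1) ≤ 8 (n+1)² H^n H^(-1/2)`, as `H ≥ (lo U)^4`.
-/

set_option autoImplicit false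

namespace Pool.Agent.P07318t

open MeasureTheory Complex Pool.Agent.P07318s Pool.Agent.P07318f Pool.Agent.P07318h Pool.Agent.P07318o

namespace BoxHAux

open BoxUAux

theorem key {n : ℕ} {c C₁ U₀ D : ℝ} (_hC₁ : 0 < C₁) (_hc : 0 < c)
    (hmp : ∀ (U : ℝ) (x : Fin (n + 1) → ℝ), U₀ ≤ U → (∀ j, U ≤ x j) → (∀ j, x j ≤ 4 * U) →
      (∀ i j, i ≠ j → lo U ^ 2 ≤ |x i - x j|) → ‖Dg x - mainTerm x‖ ≤ C₁ * U ^ (-c))
    {U H α V : ℝ} {β : Fin n → ℝ} (hU : 1 ≤ U) (hUU : U₀ ≤ 2 * U) (hHU : H ≤ U) (hα : 2 * U ≤ α)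
    (hα' : α ≤ 5 * U) (hβ : ∀ j, 2 * U ≤ β j) (hβ' : ∀ j, β j ≤ 5 * U) {h : Fin n → ℝ}
    (hh : h ∈ Set.Icc β (fun j => β j + H)) (hV : V ∈ Set.Icc 0 (2 * U)) (hD : D = lo (2 * U) ^ 2)
    (hsep : ∀ i j : Fin (n + 1), i ≠ j → D ≤
      |(Fin.cons α h : Fin (n + 1) → ℝ) i - (Fin.cons α h : Fin (n + 1) → ℝ) j|) :
    ‖(∫ t in (0:ℝ)..V, Dg (sh α h t)) - ∫ t in (0:ℝ)..V, mainTerm (fun j => t + (Fin.cons α h : Fin (n + 1) → ℝ) j)‖ ≤
      2 * C₁ * (U * U ^ (-c)) := by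
  have hU0 : 0 < U := by linarith
  obtain ⟨hV0, hV1⟩ := hV
  set a : Fin (n + 1) → ℝ := Fin.cons α h with ha
  have ha1 : ∀ j, 2 * U ≤ a j := by
    intro j
    refine Fin.cases ?_ (fun i => ?_) j
    · rw [ha, Fin.cons_zero]; exact hα
    · rw [ha, Fin.cons_succ]; exact (hβ i).trans (hh.1 i)
  have ha2 : ∀ j, a j ≤ 6 * U := by
    intro j
    refine Fin.cases ?_ (fun i => ?_) j
    · rw [ha, Fin.cons_zero]; linarith
    · rw [ha, Fin.cons_succ]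
      have h1 := hh.2 i
      have h2 := hβ' i
      simp only at h1
      linarith
  have hmaps : ∀ t ∈ Set.uIcc 0 V, (∀ j, 0 < t + a j) ∧ (∀ j, 2 * U ≤ t + a j) ∧
      (∀ j, t + a j ≤ 4 * (2 * U)) := by
    intro t ht
    rw [Set.uIcc_of_le hV0] at ht
    have h1 := ht.1
    have h2 := ht.2
    refine ⟨fun j => ?_, fun j => ?_, fun j => ?_⟩
    · have := ha1 j; linarith
    · have := ha1 j; linarith
    · have := ha2 j; linarith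
  have hdiff : ∀ (t : ℝ) (i j : Fin (n + 1)), (t + a i) - (t + a j) = a i - a j := by
    intro t i j; ring
  have hD1 : 1 < D := by
    rw [hD]
    have h1 : 1 < lo (2 * U) := by
      unfold lo
      have : 0 < Real.log (2 * U) := Real.log_pos (by linarith)
      linarith
    nlinarith
  have hsep1 : ∀ i j, i ≠ j → 1 < |a i - a j| := fun i j hij => lt_of_lt_of_le hD1 (hsep i j hij)
  have hcontM : ContinuousOn (fun t : ℝ => mainTerm (fun j => t + a j)) (Set.uIcc 0 V) := by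
    refine (mainTerm_continuousOn (n + 1)).comp (f := fun t : ℝ => (fun j => t + a j))
      (by fun_prop) ?_
    intro t ht
    refine ⟨(hmaps t ht).1, fun i j hij => ?_⟩
    simp only
    rw [hdiff]
    exact hsep1 i j hij
  have hcontD : ContinuousOn (fun t : ℝ => Dg (fun j => t + a j)) (Set.uIcc 0 V) := by
    refine (Dg_continuousOn (n + 1)).comp (f := fun t : ℝ => (fun j => t + a j))
      (by fun_prop) ?_
    intro t ht
    exact (hmaps t ht).1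
  have he : (∫ t in (0:ℝ)..V, Dg (sh α h t)) = ∫ t in (0:ℝ)..V, Dg (fun j => t + a j) := rfl
  rw [he, ← intervalIntegral.integral_sub hcontD.intervalIntegrable hcontM.intervalIntegrable]
  have h1 := intervalIntegral.norm_integral_le_of_norm_le_const (a := 0) (b := V)
    (C := C₁ * (2 * U) ^ (-c))
    (f := fun t : ℝ => Dg (fun j => t + a j) - mainTerm (fun j => t + a j)) (by
      intro t ht
      have ht' : t ∈ Set.uIcc 0 V := Set.uIoc_subset_uIcc ht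
      refine hmp (2 * U) (fun j => t + a j) hUU (hmaps t ht').2.1 (hmaps t ht').2.2 ?_
      intro i j hij
      rw [hdiff, ← hD]
      exact hsep i j hij)
  rw [sub_zero, abs_of_nonneg hV0] at h1
  refine h1.trans ?_
  have h2 : (2 * U) ^ (-c) ≤ U ^ (-c) :=
    Real.rpow_le_rpow_of_nonpos hU0 (by linarith) (by linarith)
  calc C₁ * (2 * U) ^ (-c) * V ≤ C₁ * U ^ (-c) * (2 * U) := by gcongr
    _ = 2 * C₁ * (U * U ^ (-c)) := by ring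

end BoxHAux

open BoxHAux BoxUAux in
/-- BoxH: the main term -/
theorem box_h (n : ℕ) (hn : 1 ≤ n) : ∃ C₀ η C U₀ : ℝ, 0 < C₀ ∧ 0 < η ∧ 0 < C ∧ 1 ≤ U₀ ∧
    ∀ (U H α : ℝ) (β : Fin n → ℝ), U₀ ≤ U → lo U ^ C₀ ≤ H → H ≤ U →
    2 * U ≤ α → α ≤ 5 * U → (∀ j, 2 * U ≤ β j) → (∀ j, β j ≤ 5 * U) →
    ∃ E : Set ℝ, MeasurableSet E ∧ E ⊆ Set.Icc 0 (2 * U) ∧ volume E ≤ ENNReal.ofReal (C * U * H ^ (-η)) ∧
    volume {h | h ∈ Set.Icc β (fun j => β j + H) ∧ ∃ V ∈ Set.Icc 0 (2 * U), C * U * H ^ (-η) <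
      ‖(∫ t in Set.Icc 0 V \ E, ((∏ j, ‖riemannZeta (1 / 2 +
          ((t + (Fin.cons α h : Fin (n + 1) → ℝ) j : ℝ) : ℂ) * I)‖ ^ 2 : ℝ) : ℂ)) -
        ∫ t in (0:ℝ)..V, mainTerm (fun j => t + (Fin.cons α h : Fin (n + 1) → ℝ) j)‖} ≤
      ENNReal.ofReal (C * H ^ n * H ^ (-η)) := by
  obtain ⟨c, C₁, U₁, hc, hC₁, hU₁, hmp⟩ := main_l (n + 1)
  obtain ⟨C₀, η₂, C₂, U₂, hC₀, hη₂, hC₂, hU₂, hgv⟩ := grid_h n hn
  obtain ⟨η, hη⟩ : ∃ η : ℝ, η = min (min η₂ c) (1 / 2) := ⟨_, rfl⟩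
  have hη0 : 0 < η := by rw [hη]; exact lt_min (lt_min hη₂ hc) (by norm_num)
  have hη1 : η ≤ η₂ := by rw [hη]; exact (min_le_left _ _).trans (min_le_left _ _)
  have hη2 : η ≤ c := by rw [hη]; exact (min_le_left _ _).trans (min_le_right _ _)
  have hη3 : η ≤ 1 / 2 := by rw [hη]; exact min_le_right _ _
  obtain ⟨C, hC⟩ : ∃ C : ℝ, C = C₂ + 2 * C₁ + 8 * ((n : ℝ) + 1) ^ 2 := ⟨_, rfl⟩
  have hCpos : 0 < C := by rw [hC]; positivity
  refine ⟨max C₀ 4, η, C, max U₁ U₂, lt_max_of_lt_left hC₀, hη0, hCpos, hU₁.trans (le_max_left _ _), ?_⟩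
  intro U H α β hU hHU hHU' hα hα' hβ hβ'
  have hU1 : U₁ ≤ U := (le_max_left _ _).trans hU
  have hU2 : U₂ ≤ U := (le_max_right _ _).trans hU
  have hU1' : 1 ≤ U := hU₁.trans hU1
  have hU0 : 0 < U := by linarith
  have hlo1 : 1 ≤ lo U := one_le_lo hU1'
  have hlo0 : 0 < lo U := by linarith
  have hH1 : lo U ^ C₀ ≤ H := (Real.rpow_le_rpow_of_exponent_le hlo1 (le_max_left _ _)).trans hHU
  have hH2 : lo U ^ (4 : ℝ) ≤ H := (Real.rpow_le_rpow_of_exponent_le hlo1 (le_max_right _ _)).trans hHU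
  have hH1' : 1 ≤ H := (Real.one_le_rpow hlo1 (by norm_num)).trans hH2
  have hH0 : 0 < H := by linarith
  obtain ⟨E, hE1, hE2, hE3, hE4⟩ := hgv U H α β hU2 hH1 hHU' hα hα' hβ hβ'
  have hHη : 0 < H ^ (-η) := Real.rpow_pos_of_pos hH0 _
  have hmono : H ^ (-η₂) ≤ H ^ (-η) := Real.rpow_le_rpow_of_exponent_le hH1' (by linarith)
  have hUc : U ^ (-c) ≤ H ^ (-η) := by
    calc U ^ (-c) ≤ H ^ (-c) := Real.rpow_le_rpow_of_nonpos hH0 hHU' (by linarith)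
      _ ≤ H ^ (-η) := Real.rpow_le_rpow_of_exponent_le hH1' (by linarith)
  have hCC : C₂ ≤ C := by
    rw [hC]
    have : 0 ≤ 8 * ((n : ℝ) + 1) ^ 2 := by positivity
    linarith
  refine ⟨E, hE1, hE2, hE3.trans (ENNReal.ofReal_le_ofReal ?_), ?_⟩
  · gcongr
  obtain ⟨D, hD⟩ : ∃ D : ℝ, D = lo (2 * U) ^ 2 := ⟨_, rfl⟩
  have hD0 : 0 ≤ D := by rw [hD]; positivity
  have hsepm := sep_meas n H D α β hH0.le hD0
  set S1 : Set (Fin n → ℝ) := {h | h ∈ Set.Icc β (fun j => β j + H) ∧ ∃ i j : Fin (n + 1), i ≠ j ∧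
    |(Fin.cons α h : Fin (n + 1) → ℝ) i - (Fin.cons α h : Fin (n + 1) → ℝ) j| < D} with hS1
  set S0 : Set (Fin n → ℝ) := {h | h ∈ Set.Icc β (fun j => β j + H) ∧ ∃ V ∈ Set.Icc 0 (2 * U),
    C₂ * U * H ^ (-η₂) <
      ‖(∫ t in Set.Icc 0 V \ E, ((gz (t + α) * ∏ j, gz (t + h j) : ℝ) : ℂ)) - ∫ t in (0:ℝ)..V, Dg (sh α h t)‖} with hS0
  have hsub : {h | h ∈ Set.Icc β (fun j => β j + H) ∧ ∃ V ∈ Set.Icc 0 (2 * U), C * U * H ^ (-η) <
      ‖(∫ t in Set.Icc 0 V \ E, ((∏ j, ‖riemannZeta (1 / 2 +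
          ((t + (Fin.cons α h : Fin (n + 1) → ℝ) j : ℝ) : ℂ) * I)‖ ^ 2 : ℝ) : ℂ)) -
        ∫ t in (0:ℝ)..V, mainTerm (fun j => t + (Fin.cons α h : Fin (n + 1) → ℝ) j)‖} ⊆ S0 ∪ S1 := by
    rintro h ⟨hh, V, hV, hlt⟩
    by_contra hcon
    rw [Set.mem_union, not_or] at hcon
    obtain ⟨hc1, hc2⟩ := hcon
    have hsep : ∀ i j : Fin (n + 1), i ≠ j → D ≤
        |(Fin.cons α h : Fin (n + 1) → ℝ) i - (Fin.cons α h : Fin (n + 1) → ℝ) j| := by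
      intro i j hij
      by_contra hg
      push Not at hg
      exact hc2 ⟨hh, i, j, hij, hg⟩
    have hgr : ‖(∫ t in Set.Icc 0 V \ E, ((gz (t + α) * ∏ j, gz (t + h j) : ℝ) : ℂ)) -
        ∫ t in (0:ℝ)..V, Dg (sh α h t)‖ ≤ C₂ * U * H ^ (-η₂) := by
      by_contra hg
      push Not at hg
      exact hc1 ⟨hh, V, hV, hg⟩
    have hk := key hC₁ hc hmp hU1' (by linarith) hHU' hα hα' hβ hβ' hh hV hD hsep
    have h5 : 2 * C₁ * (U * U ^ (-c)) ≤ 2 * C₁ * (U * H ^ (-η)) := by gcongr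
    have h4 : C₂ * U * H ^ (-η₂) ≤ C₂ * U * H ^ (-η) := by gcongr
    have h6 : (∫ t in Set.Icc 0 V \ E, ((∏ j, ‖riemannZeta (1 / 2 +
          ((t + (Fin.cons α h : Fin (n + 1) → ℝ) j : ℝ) : ℂ) * I)‖ ^ 2 : ℝ) : ℂ)) =
        ∫ t in Set.Icc 0 V \ E, ((gz (t + α) * ∏ j, gz (t + h j) : ℝ) : ℂ) := by
      congr 1
      funext t
      rw [prod_eq]
    rw [h6] at hlt
    have h7 : ‖(∫ t in Set.Icc 0 V \ E, ((gz (t + α) * ∏ j, gz (t + h j) : ℝ) : ℂ)) -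
        ∫ t in (0:ℝ)..V, mainTerm (fun j => t + (Fin.cons α h : Fin (n + 1) → ℝ) j)‖ ≤
        C₂ * U * H ^ (-η) + 2 * C₁ * (U * H ^ (-η)) := by
      refine (norm_sub_le_norm_sub_add_norm_sub _ (∫ t in (0:ℝ)..V, Dg (sh α h t)) _).trans ?_
      exact add_le_add (hgr.trans h4) (hk.trans h5)
    have h8 : C₂ * U * H ^ (-η) + 2 * C₁ * (U * H ^ (-η)) ≤ C * U * H ^ (-η) := by
      have h9 : (C₂ + 2 * C₁) * (U * H ^ (-η)) ≤ C * (U * H ^ (-η)) := by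
        refine mul_le_mul_of_nonneg_right ?_ (by positivity)
        rw [hC]
        have : 0 ≤ 8 * ((n : ℝ) + 1) ^ 2 := by positivity
        linarith
      linarith
    linarith
  refine (measure_mono hsub).trans ((measure_union_le _ _).trans ?_)
  refine (add_le_add hE4 hsepm).trans ?_
  rw [← ENNReal.ofReal_add (by positivity) (by positivity)]
  apply ENNReal.ofReal_le_ofReal
  have hlo2 : lo (2 * U) ≤ 2 * lo U := by
    unfold lo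
    rw [Real.log_mul (by norm_num) hU0.ne']
    have := Real.log_two_lt_d9
    have := Real.log_nonneg hU1'
    linarith
  have hlo2' : 0 ≤ lo (2 * U) := by
    have := one_le_lo (U := 2 * U) (by linarith)
    linarith
  have hD4 : D ≤ 4 * lo U ^ 2 := by
    rw [hD]
    nlinarith
  have hlo3 : lo U ^ 2 ≤ H ^ (1 / 2 : ℝ) := by
    have h1 : (lo U ^ (4 : ℝ)) ^ (1 / 2 : ℝ) ≤ H ^ (1 / 2 : ℝ) :=
      Real.rpow_le_rpow (by positivity) hH2 (by norm_num)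
    rw [← Real.rpow_mul hlo0.le, show (4 : ℝ) * (1 / 2) = 2 by norm_num, Real.rpow_two] at h1
    exact h1
  have hpw : lo U ^ 2 * H ^ (n - 1) ≤ H ^ n * H ^ (-η) := by
    have e1 : H ^ (1 / 2 : ℝ) ≤ H * H ^ (-η) := by
      calc H ^ (1 / 2 : ℝ) ≤ H ^ (1 + (-η)) := Real.rpow_le_rpow_of_exponent_le hH1' (by linarith)
        _ = H * H ^ (-η) := by rw [Real.rpow_add hH0, Real.rpow_one]
    calc lo U ^ 2 * H ^ (n - 1) ≤ (H * H ^ (-η)) * H ^ (n - 1) :=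
          mul_le_mul_of_nonneg_right (hlo3.trans e1) (by positivity)
      _ = (H ^ (n - 1) * H) * H ^ (-η) := by ring
      _ = H ^ n * H ^ (-η) := by rw [← pow_succ, Nat.sub_add_cancel hn]
  have hfin : ((n : ℝ) + 1) ^ 2 * (2 * D) * H ^ (n - 1) ≤ 8 * ((n : ℝ) + 1) ^ 2 * (H ^ n * H ^ (-η)) := by
    calc ((n : ℝ) + 1) ^ 2 * (2 * D) * H ^ (n - 1) ≤ ((n : ℝ) + 1) ^ 2 * (2 * (4 * lo U ^ 2)) * H ^ (n - 1) := by
          gcongr
      _ = 8 * ((n : ℝ) + 1) ^ 2 * (lo U ^ 2 * H ^ (n - 1)) := by ring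
      _ ≤ _ := by gcongr
  have h7 : (C₂ + 8 * ((n : ℝ) + 1) ^ 2) * (H ^ n * H ^ (-η)) ≤ C * (H ^ n * H ^ (-η)) := by
    apply mul_le_mul_of_nonneg_right _ (by positivity)
    rw [hC]
    linarith
  calc C₂ * H ^ n * H ^ (-η₂) + ((n : ℝ) + 1) ^ 2 * (2 * D) * H ^ (n - 1)
      ≤ C₂ * H ^ n * H ^ (-η) + 8 * ((n : ℝ) + 1) ^ 2 * (H ^ n * H ^ (-η)) := by
        refine add_le_add ?_ hfin
        gcongr
    _ = (C₂ + 8 * ((n : ℝ) + 1) ^ 2) * (H ^ n * H ^ (-η)) := by ring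
    _ ≤ C * (H ^ n * H ^ (-η)) := h7
    _ = C * H ^ n * H ^ (-η) := by ring

end Pool.Agent.P07318t
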