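import Pool.Agent.Lib.P07318t.FourM
import Pool.Agent.Lib.P07318h.BadI

/-!
# The exceptional set: windows with a large mean of `|ζ|²`

PROOF of `ee_vol`. `N = ⌊2U/H⌋ + 1` windows `[rH, (r+1)H)` cover `[0, 2U]`. A window meets `EE` only if `K H < wm (ce α β j) H r` for some `j`; then, from `gz ≤ gz²/K + K/4` on the window of length `2H`,
`H ≤ (2/K²) ∫ gz²` over the window of length `2H` at `ce α β j + rH`. Every point lies in at most two of these windows, and they all lie in `[2U, 9U]`: `gz_four`.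
-/

set_option autoImplicit false

namespace Pool.Agent.P07318t

open MeasureTheory Complex Pool.Agent.P07318s Pool.Agent.P07318f Pool.Agent.P07318h Pool.Agent.P07318o

lemma ce_zero {n : ℕ} (α : ℝ) (β : Fin n → ℝ) : ce α β 0 = α := rfl

lemma ce_succ {n : ℕ} (α : ℝ) (β : Fin n → ℝ) (j : Fin n) : ce α β j.succ = β j := rfl

lemma ce_ge {n : ℕ} {α a : ℝ} {β : Fin n → ℝ} (h0 : a ≤ α) (h : ∀ j, a ≤ β j) (j : Fin (n + 1)) : a ≤ ce α β j := by
  refine Fin.cases ?_ (fun i => ?_) j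
  · rw [ce_zero]; exact h0
  · rw [ce_succ]; exact h i

lemma ce_le {n : ℕ} {α a : ℝ} {β : Fin n → ℝ} (h0 : α ≤ a) (h : ∀ j, β j ≤ a) (j : Fin (n + 1)) : ce α β j ≤ a := by
  refine Fin.cases ?_ (fun i => ?_) j
  · rw [ce_zero]; exact h0
  · rw [ce_succ]; exact h i

lemma floor_win {H t : ℝ} (hH : 0 < H) {r : ℕ} (ht : t ∈ Set.Ico ((r : ℝ) * H) ((r + 1) * H)) : ⌊t / H⌋₊ = r := by
  have h0 : 0 ≤ t := le_trans (by positivity) ht.1
  rw [Nat.floor_eq_iff (div_nonneg h0 hH.le)]
  exact ⟨by rw [le_div_iff₀ hH]; exact ht.1, by rw [div_lt_iff₀ hH]; exact ht.2⟩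

/-- the windows cover the interval -/
lemma win_count {U H : ℝ} (hH : 0 < H) (hHU : H ≤ U) :
    ∃ N : ℕ, 2 * U < N * H ∧ ((N : ℝ) - 1) * H ≤ 2 * U ∧ (N : ℝ) * H ≤ 3 * U := by
  have hU : 0 < U := hH.trans_le hHU
  refine ⟨⌊2 * U / H⌋₊ + 1, ?_, ?_, ?_⟩
  · have h1 := Nat.lt_floor_add_one (2 * U / H)
    rw [div_lt_iff₀ hH] at h1
    push_cast
    exact h1
  · have h1 : (⌊2 * U / H⌋₊ : ℝ) ≤ 2 * U / H := Nat.floor_le (by positivity)
    rw [le_div_iff₀ hH] at h1
    push_cast
    linarith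
  · have h1 : (⌊2 * U / H⌋₊ : ℝ) ≤ 2 * U / H := Nat.floor_le (by positivity)
    rw [le_div_iff₀ hH] at h1
    push_cast
    linarith

theorem ee_meas {n : ℕ} (K H α U : ℝ) (β : Fin n → ℝ) : MeasurableSet (EE K H α U β) := by
  have h1 : Measurable fun t : ℝ => ⌊t / H⌋₊ := Nat.measurable_floor.comp (measurable_id.div_const H)
  have h2 : MeasurableSet {r : ℕ | ∃ j : Fin (n + 1), K * H < wm (ce α β j) H r} := MeasurableSet.of_discrete
  exact measurableSet_Icc.inter (h1 h2)

namespace ExcSetAux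

/-- the fourth moment over a bad window -/
lemma bad_le {K H b : ℝ} (hK : 0 < K) (hH : 0 < H) (r : ℕ) (hbad : K * H < wm b H r) :
    ENNReal.ofReal H ≤ ENNReal.ofReal (2 / K ^ 2) *
      ∫⁻ x in Set.Icc (b + r * H) (b + r * H + 2 * H), ENNReal.ofReal (gz x) ^ 2 := by
  have hgm : Measurable fun x => ENNReal.ofReal (gz x) ^ 2 :=
    (ENNReal.measurable_ofReal.comp gz_cont.measurable).pow_const 2
  set I : ENNReal := ∫⁻ x in Set.Icc (b + r * H) (b + r * H + 2 * H), ENNReal.ofReal (gz x) ^ 2 with hI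
  have h1 : ENNReal.ofReal (K * H) ≤ ENNReal.ofReal (1 / K) * I + ENNReal.ofReal (K * H / 2) := by
    calc ENNReal.ofReal (K * H) ≤ ENNReal.ofReal (wm b H r) := ENNReal.ofReal_le_ofReal hbad.le
      _ = ∫⁻ x in Set.Icc (b + r * H) (b + r * H + 2 * H), ENNReal.ofReal (gz x) := by
          rw [BadIAux.lint_gz (by positivity)]
          rfl
      _ ≤ ∫⁻ x in Set.Icc (b + r * H) (b + r * H + 2 * H),
            (ENNReal.ofReal (1 / K) * ENNReal.ofReal (gz x) ^ 2 + ENNReal.ofReal (K / 4)) := by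
          refine lintegral_mono fun x => ?_
          dsimp only
          rw [← ENNReal.ofReal_pow (gz_nonneg x), ← ENNReal.ofReal_mul (by positivity),
            ← ENNReal.ofReal_add (by positivity) (by positivity)]
          apply ENNReal.ofReal_le_ofReal
          have h2 : 0 ≤ 1 / K * (gz x - K / 2) ^ 2 := by positivity
          have h3 : 1 / K * (gz x - K / 2) ^ 2 = 1 / K * gz x ^ 2 + K / 4 - gz x := by
            field_simp
            ring
          linarith
      _ = _ := by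
          rw [lintegral_add_left (hgm.const_mul _), lintegral_const_mul _ hgm, setLIntegral_const, Real.volume_Icc,
            ← ENNReal.ofReal_mul (by positivity)]
          congr 2
          ring
  have h2 : ENNReal.ofReal (K * H) = ENNReal.ofReal (K * H / 2) + ENNReal.ofReal (K * H / 2) := by
    rw [← ENNReal.ofReal_add (by positivity) (by positivity)]
    congr 1
    ring
  rw [h2, ENNReal.add_le_add_iff_right ENNReal.ofReal_ne_top] at h1
  calc ENNReal.ofReal H = ENNReal.ofReal (2 / K) * ENNReal.ofReal (K * H / 2) := by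
        rw [← ENNReal.ofReal_mul (by positivity)]
        congr 1
        field_simp
    _ ≤ ENNReal.ofReal (2 / K) * (ENNReal.ofReal (1 / K) * I) := mul_le_mul_right h1 _
    _ = _ := by
        rw [← mul_assoc, ← ENNReal.ofReal_mul (by positivity)]
        congr 2
        field_simp

end ExcSetAux

open ExcSetAux

/-- no point of a good window is exceptional -/
lemma not_ee {n : ℕ} {K H α U : ℝ} {β : Fin n → ℝ} (hH : 0 < H) {r : ℕ}
    (hr : ¬ ∃ j : Fin (n + 1), K * H < wm (ce α β j) H r) {t : ℝ} (ht : t ∈ Set.Ico ((r : ℝ) * H) ((r + 1) * H)) :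
    t ∉ EE K H α U β := by
  intro h
  have h1 := h.2
  rw [floor_win hH ht] at h1
  exact hr h1

/-- every point of a bad window is exceptional -/
lemma mem_ee {n : ℕ} {K H α U : ℝ} {β : Fin n → ℝ} (hH : 0 < H) {r : ℕ}
    (hr : ∃ j : Fin (n + 1), K * H < wm (ce α β j) H r) {t : ℝ} (ht : t ∈ Set.Ico ((r : ℝ) * H) ((r + 1) * H))
    (ht' : t ∈ Set.Icc 0 (2 * U)) : t ∈ EE K H α U β := by
  refine ⟨ht', ?_⟩
  rw [floor_win hH ht]
  exact hr

theorem ee_vol (n : ℕ) : ∃ C : ℝ, 0 < C ∧ ∀ (U H K α : ℝ) (β : Fin n → ℝ), 1 ≤ U → 1 ≤ H → H ≤ U → 1 ≤ K → 2 * U ≤ α → α ≤ 5 * U →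
    (∀ j, 2 * U ≤ β j) → (∀ j, β j ≤ 5 * U) →
    volume (EE K H α U β) ≤ ENNReal.ofReal (C * U * lo U ^ 5 / K ^ 2) := by
  obtain ⟨C₄, hC₄, h4⟩ := gz_four
  refine ⟨(n + 1) * (4 * C₄), by positivity, fun U H K α β hU hH hHU hK hα hα' hβ hβ' => ?_⟩
  have hU0 : 0 < U := by linarith
  have hH0 : 0 < H := by linarith
  have hK0 : 0 < K := by linarith
  have hlo := lo_pos hU
  obtain ⟨N, hN1, hN2, hN3⟩ := win_count hH0 hHU
  set E : Set ℝ := EE K H α U β with hE
  have hEm : MeasurableSet E := ee_meas K H α U β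
  have hb2 : ∀ j, 2 * U ≤ ce α β j := ce_ge hα hβ
  have hb5 : ∀ j, ce α β j ≤ 5 * U := ce_le hα' hβ'
  have hsub : E ⊆ Set.Ico 0 (0 + N * H) := by
    intro t ht
    rw [zero_add]
    exact ⟨ht.1.1, ht.1.2.trans_lt hN1⟩
  set G : ℝ → ENNReal := fun x => ENNReal.ofReal (gz x) ^ 2 with hG
  have h1 : volume E = ∑ r ∈ Finset.range N, ∫⁻ t in Set.Ico ((r : ℝ) * H) ((r + 1) * H), E.indicator 1 t := by
    have h2 := BadIAux.sum_ico (E.indicator 1) hH0.le 0 N
    simp only [zero_add] at h2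
    rw [h2]
    rw [zero_add] at hsub
    rw [lintegral_indicator_one hEm, Measure.restrict_apply hEm, Set.inter_eq_left.2 hsub]
  have h2 : ∀ r : ℕ, ∫⁻ t in Set.Ico ((r : ℝ) * H) ((r + 1) * H), E.indicator 1 t ≤
      ∑ j : Fin (n + 1), ENNReal.ofReal (2 / K ^ 2) *
        ∫⁻ x in Set.Icc (ce α β j + r * H) (ce α β j + r * H + 2 * H), G x := by
    intro r
    by_cases hbad : ∃ j : Fin (n + 1), K * H < wm (ce α β j) H r
    · have hb := hbad
      obtain ⟨j, hj⟩ := hb
      calc ∫⁻ t in Set.Ico ((r : ℝ) * H) ((r + 1) * H), E.indicator 1 t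
          ≤ ∫⁻ _t in Set.Ico ((r : ℝ) * H) ((r + 1) * H), 1 := by
            refine lintegral_mono fun t => ?_
            exact Set.indicator_le_self _ _ _
        _ = ENNReal.ofReal H := by
            rw [setLIntegral_const, one_mul, Real.volume_Ico]
            congr 1
            ring
        _ ≤ _ := bad_le hK0 hH0 r hj
        _ ≤ _ := Finset.single_le_sum (f := fun j : Fin (n + 1) => ENNReal.ofReal (2 / K ^ 2) *
            ∫⁻ x in Set.Icc (ce α β j + r * H) (ce α β j + r * H + 2 * H), G x)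
            (fun i _ => zero_le) (Finset.mem_univ j)
    · have h3 : ∫⁻ t in Set.Ico ((r : ℝ) * H) ((r + 1) * H), E.indicator 1 t = 0 := by
        rw [setLIntegral_congr_fun (g := fun _ => 0) measurableSet_Ico, lintegral_zero]
        intro t ht
        exact Set.indicator_of_notMem (not_ee hH0 hbad ht) _
      rw [h3]
      exact zero_le
  rw [h1]
  refine (Finset.sum_le_sum fun r _ => h2 r).trans ?_
  rw [Finset.sum_comm]
  have h3 : ∀ j : Fin (n + 1), ∑ r ∈ Finset.range N, ENNReal.ofReal (2 / K ^ 2) *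
        ∫⁻ x in Set.Icc (ce α β j + r * H) (ce α β j + r * H + 2 * H), G x ≤
      ENNReal.ofReal (4 * C₄ * U * lo U ^ 5 / K ^ 2) := by
    intro j
    rw [← Finset.mul_sum]
    refine (mul_le_mul_right (BadIAux.sum_win G hH0.le (ce α β j) N) _).trans ?_
    have h5 : ∫⁻ x in Set.Icc (ce α β j) (ce α β j + (N + 1) * H), G x ≤ ENNReal.ofReal (C₄ * U * lo U ^ 5) := by
      refine le_trans (lintegral_mono_set (Set.Icc_subset_Icc (hb2 j) ?_)) (h4 U hU)
      nlinarith [hb5 j]
    refine (mul_le_mul_right (mul_le_mul_right h5 _) _).trans (le_of_eq ?_)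
    rw [show (2 : ENNReal) = ENNReal.ofReal 2 by simp, ← ENNReal.ofReal_mul (by norm_num),
      ← ENNReal.ofReal_mul (by positivity)]
    congr 1
    field_simp
    ring
  refine (Finset.sum_le_sum fun j _ => h3 j).trans (le_of_eq ?_)
  rw [Finset.sum_const, Finset.card_univ, Fintype.card_fin, nsmul_eq_mul,
    show (((n + 1 : ℕ) : ENNReal)) = ENNReal.ofReal ((n : ℝ) + 1) by
      rw [← Nat.cast_succ, ENNReal.ofReal_natCast], ← ENNReal.ofReal_mul (by positivity)]
  congr 1
  ring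

end Pool.Agent.P07318t
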