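import Pool.Agent.Lib.P07318t.SmallL
import Pool.Agent.Lib.P07318t.ExcSet

/-!
# The short product on the exceptional set

PROOF. Tonelli. For `t ∈ [0, 2U]` the integral over each `h j` is at most `∫ (1 + ‖fS‖²)` over an interval of length `H` inside `[2U, 8U]`: `≤ C H lo^c` (`small_l`, `Y ≤ H`). Then `gz ≤ gz²/K + K/4`,
`gz_four` and `ee_vol`: `∫_E gz(t + α) ≤ C U lo^5 / K`.
-/

set_option autoImplicit false

namespace Pool.Agent.P07318t

open MeasureTheory Complex Pool.Agent.P07318s Pool.Agent.P07318f Pool.Agent.P07318h Pool.Agent.P07318o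

namespace ExcIAux

lemma gz_le {K x : ℝ} (hK : 0 < K) :
    ENNReal.ofReal (gz x) ≤ ENNReal.ofReal (1 / K) * ENNReal.ofReal (gz x) ^ 2 + ENNReal.ofReal (K / 4) := by
  rw [← ENNReal.ofReal_pow (gz_nonneg x), ← ENNReal.ofReal_mul (by positivity),
    ← ENNReal.ofReal_add (by positivity) (by positivity)]
  apply ENNReal.ofReal_le_ofReal
  have h2 : 0 ≤ 1 / K * (gz x - K / 2) ^ 2 := by positivity
  have h3 : 1 / K * (gz x - K / 2) ^ 2 = 1 / K * gz x ^ 2 + K / 4 - gz x := by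
    field_simp
    ring
  linarith

lemma enorm_le (z : ℂ) : ‖z‖ₑ ≤ 1 + ‖z‖ₑ ^ 2 := by
  rw [← ofReal_norm, ← ENNReal.ofReal_pow (norm_nonneg z), ← ENNReal.ofReal_one,
    ← ENNReal.ofReal_add zero_le_one (by positivity)]
  apply ENNReal.ofReal_le_ofReal
  nlinarith [sq_nonneg (‖z‖ - 1 / 2)]

lemma f_meas {n : ℕ} (Y α : ℝ) :
    Measurable (fun p : ℝ × (Fin n → ℝ) => ENNReal.ofReal (gz (p.1 + α) * ∏ j, ‖fS Y (p.1 + p.2 j)‖)) := by
  refine ENNReal.measurable_ofReal.comp ?_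
  have hg : Measurable gz := gz_cont.measurable
  have hf : Measurable fun x => ‖fS Y x‖ := (fS_cont Y).norm.measurable
  refine (hg.comp (measurable_fst.add measurable_const)).mul ?_
  refine Finset.measurable_prod _ fun j _ => ?_
  exact hf.comp (measurable_fst.add ((measurable_pi_apply j).comp measurable_snd))

end ExcIAux

open ExcIAux

/-- the integral of `gz` over the exceptional set -/
theorem exc_gz (n : ℕ) : ∃ C : ℝ, 0 < C ∧
    ∀ (U H K α : ℝ) (β : Fin n → ℝ), 1 ≤ U → 1 ≤ H → H ≤ U → 1 ≤ K → 2 * U ≤ α → α ≤ 5 * U →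
    (∀ j, 2 * U ≤ β j) → (∀ j, β j ≤ 5 * U) →
    ∫⁻ t in EE K H α U β, ENNReal.ofReal (gz (t + α)) ≤ ENNReal.ofReal (C * (U * lo U ^ 5 / K)) := by
  obtain ⟨C₄, hC₄, h4⟩ := gz_four
  obtain ⟨C₅, hC₅, h5⟩ := ee_vol n
  refine ⟨C₄ + C₅, by positivity, fun U H K α β hU hH hHU hK hα hα' hβ hβ' => ?_⟩
  have hU0 : 0 < U := by linarith
  have hK0 : 0 < K := by linarith
  have hlo := lo_pos hU
  have hG : Measurable fun t => ENNReal.ofReal (gz (t + α)) ^ 2 :=
    (ENNReal.measurable_ofReal.comp (gz_cont.measurable.comp (measurable_id.add measurable_const))).pow_const 2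
  have h1 : ∫⁻ t in EE K H α U β, ENNReal.ofReal (gz (t + α)) ^ 2 ≤ ENNReal.ofReal (C₄ * U * lo U ^ 5) := by
    refine le_trans ?_ (h4 U hU)
    have e1 : ∀ t, gz (t + α) = gz (α + t) := fun t => by rw [add_comm]
    simp only [e1]
    refine BadIAux.tr (fun x => ENNReal.ofReal (gz x) ^ 2) _ _ (ee_meas K H α U β) measurableSet_Icc α ?_
    intro t ht
    have h6 := ht.1
    constructor
    · linarith [h6.1]
    · linarith [h6.2]
  calc ∫⁻ t in EE K H α U β, ENNReal.ofReal (gz (t + α))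
      ≤ ∫⁻ t in EE K H α U β, (ENNReal.ofReal (1 / K) * ENNReal.ofReal (gz (t + α)) ^ 2 + ENNReal.ofReal (K / 4)) :=
        lintegral_mono fun t => gz_le hK0
    _ = ENNReal.ofReal (1 / K) * (∫⁻ t in EE K H α U β, ENNReal.ofReal (gz (t + α)) ^ 2) +
          ENNReal.ofReal (K / 4) * volume (EE K H α U β) := by
        rw [lintegral_add_left (hG.const_mul _), lintegral_const_mul _ hG, setLIntegral_const]
    _ ≤ ENNReal.ofReal (1 / K) * ENNReal.ofReal (C₄ * U * lo U ^ 5) +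
          ENNReal.ofReal (K / 4) * ENNReal.ofReal (C₅ * U * lo U ^ 5 / K ^ 2) :=
        add_le_add (mul_le_mul_right h1 _) (mul_le_mul_right (h5 U H K α β hU hH hHU hK hα hα' hβ hβ') _)
    _ ≤ _ := by
        rw [← ENNReal.ofReal_mul (by positivity), ← ENNReal.ofReal_mul (by positivity),
          ← ENNReal.ofReal_add (by positivity) (by positivity)]
        apply ENNReal.ofReal_le_ofReal
        have h6 : K / 4 * (C₅ * U * lo U ^ 5 / K ^ 2) = C₅ * (U * lo U ^ 5 / K) / 4 := by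
          field_simp
        have h7 : 1 / K * (C₄ * U * lo U ^ 5) = C₄ * (U * lo U ^ 5 / K) := by ring
        rw [h6, h7]
        have h8 : 0 ≤ C₅ * (U * lo U ^ 5 / K) := by positivity
        linarith

/-- the mean of the short part -/
theorem short_mean : ∃ (C : ℝ) (c : ℕ), 0 < C ∧ ∀ (U Y H b t : ℝ), 1 ≤ U → 1 ≤ Y → Y ≤ H → H ≤ U →
    2 * U ≤ b → b ≤ 5 * U → 0 ≤ t → t ≤ 2 * U →
    ∫⁻ u in Set.Icc b (b + H), ‖fS Y (t + u)‖ₑ ≤ ENNReal.ofReal (C * H * lo U ^ c) := by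
  obtain ⟨C₁, c₁, hC₁, h1⟩ := small_l
  refine ⟨1 + 2 * C₁, c₁, by positivity, fun U Y H b t hU hY hYH hHU hb hb' ht ht' => ?_⟩
  have hU0 : 0 < U := by linarith
  have hH1 : 1 ≤ H := hY.trans hYH
  have hH0 : 0 < H := by linarith
  have hl : 1 ≤ lo U ^ c₁ := one_le_pow₀ (one_le_lo hU)
  have h2 : ∫⁻ u in Set.Icc b (b + H), ‖fS Y (t + u)‖ₑ ≤ ∫⁻ x in Set.Icc (t + b) (t + b + H), ‖fS Y x‖ₑ := by
    refine BadIAux.tr (fun x => ‖fS Y x‖ₑ) _ _ measurableSet_Icc measurableSet_Icc t ?_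
    intro u hu
    constructor
    · linarith [hu.1]
    · linarith [hu.2]
  refine h2.trans ?_
  have h3 := h1 U Y H (t + b) hU hY (hYH.trans hHU) hH1 (by linarith) (by linarith) (by linarith)
  calc ∫⁻ x in Set.Icc (t + b) (t + b + H), ‖fS Y x‖ₑ
      ≤ ∫⁻ x in Set.Icc (t + b) (t + b + H), (1 + ‖fS Y x‖ₑ ^ 2) := lintegral_mono fun x => enorm_le _
    _ = ENNReal.ofReal H + ∫⁻ x in Set.Icc (t + b) (t + b + H), ‖fS Y x‖ₑ ^ 2 := by
        rw [lintegral_add_left measurable_const, setLIntegral_const, one_mul, Real.volume_Icc]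
        congr 2
        ring
    _ ≤ ENNReal.ofReal H + ENNReal.ofReal (C₁ * lo U ^ c₁ * (H + Y)) := add_le_add le_rfl h3
    _ ≤ _ := by
        rw [← ENNReal.ofReal_add hH0.le (by positivity)]
        apply ENNReal.ofReal_le_ofReal
        have h4 : H ≤ H * lo U ^ c₁ := le_mul_of_one_le_right hH0.le hl
        have h5 : C₁ * lo U ^ c₁ * (H + Y) ≤ C₁ * lo U ^ c₁ * (2 * H) :=
          mul_le_mul_of_nonneg_left (by linarith) (by positivity)
        nlinarith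

theorem exc_int (n : ℕ) : ∃ (C : ℝ) (c : ℕ), 0 < C ∧
    ∀ (U Y H K α : ℝ) (β : Fin n → ℝ), 1 ≤ U → 1 ≤ Y → Y ≤ H → H ≤ U → 1 ≤ K → 2 * U ≤ α → α ≤ 5 * U →
    (∀ j, 2 * U ≤ β j) → (∀ j, β j ≤ 5 * U) →
    ∃ B : (Fin n → ℝ) → ENNReal, Measurable B ∧
      (∀ h, ∫⁻ t in EE K H α U β, ENNReal.ofReal (gz (t + α) * ∏ j, ‖fS Y (t + h j)‖) ≤ B h) ∧
      ∫⁻ h in Set.Icc β (fun j => β j + H), B h ≤ ENNReal.ofReal (C * H ^ n * (U * lo U ^ c / K)) := by
  obtain ⟨C₁, hC₁, h1⟩ := exc_gz n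
  obtain ⟨C₂, c₂, hC₂, h2⟩ := short_mean
  refine ⟨C₂ ^ n * C₁, c₂ * n + 5, by positivity, fun U Y H K α β hU hY hYH hHU hK hα hα' hβ hβ' => ?_⟩
  have hH1 : 1 ≤ H := hY.trans hYH
  have hH0 : 0 < H := by linarith
  have hK0 : 0 < K := by linarith
  have hlo := lo_pos hU
  have hm := f_meas (n := n) Y α
  refine ⟨fun h => ∫⁻ t in EE K H α U β, ENNReal.ofReal (gz (t + α) * ∏ j, ‖fS Y (t + h j)‖), ?_, fun h => le_rfl, ?_⟩
  · exact Measurable.lintegral_prod_left' hm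
  rw [lintegral_lintegral_swap (f := fun (h : Fin n → ℝ) (t : ℝ) =>
    ENNReal.ofReal (gz (t + α) * ∏ j, ‖fS Y (t + h j)‖)) (hm.comp measurable_swap).aemeasurable]
  have hfm : Measurable fun x => ‖fS Y x‖ₑ := (fS_cont Y).measurable.enorm
  have h3 : ∀ t ∈ EE K H α U β, ∫⁻ h in Set.Icc β (fun j => β j + H),
      ENNReal.ofReal (gz (t + α) * ∏ j, ‖fS Y (t + h j)‖) ≤
      ENNReal.ofReal (gz (t + α)) * ENNReal.ofReal (C₂ * H * lo U ^ c₂) ^ n := by
    intro t ht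
    have e1 : ∀ h : Fin n → ℝ, ENNReal.ofReal (gz (t + α) * ∏ j, ‖fS Y (t + h j)‖) =
        ENNReal.ofReal (gz (t + α)) * ∏ j, ‖fS Y (t + h j)‖ₑ := by
      intro h
      rw [ENNReal.ofReal_mul (gz_nonneg _), ENNReal.ofReal_prod_of_nonneg fun j _ => norm_nonneg _]
      simp only [ofReal_norm]
    simp only [e1]
    have hpm : Measurable fun h : Fin n → ℝ => ∏ j, ‖fS Y (t + h j)‖ₑ :=
      Finset.measurable_prod _ fun j _ => hfm.comp (measurable_const.add (measurable_pi_apply j))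
    rw [lintegral_const_mul _ hpm]
    refine mul_le_mul_right ?_ _
    rw [prod_box β H (fun _ u => ‖fS Y (t + u)‖ₑ) (fun _ => hfm.comp (measurable_const.add measurable_id))]
    calc ∏ j, ∫⁻ u in Set.Icc (β j) (β j + H), ‖fS Y (t + u)‖ₑ
        ≤ ∏ _j : Fin n, ENNReal.ofReal (C₂ * H * lo U ^ c₂) :=
          Finset.prod_le_prod' fun j _ => h2 U Y H (β j) t hU hY hYH hHU (hβ j) (hβ' j) ht.1.1 ht.1.2
      _ = _ := by simp
  refine (setLIntegral_mono' (ee_meas K H α U β) h3).trans ?_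
  have hGm : Measurable fun t => ENNReal.ofReal (gz (t + α)) :=
    ENNReal.measurable_ofReal.comp (gz_cont.measurable.comp (measurable_id.add measurable_const))
  rw [lintegral_mul_const _ hGm]
  refine (mul_le_mul_left (h1 U H K α β hU hH1 hHU hK hα hα' hβ hβ') _).trans (le_of_eq ?_)
  rw [← ENNReal.ofReal_pow (by positivity), ← ENNReal.ofReal_mul (by positivity)]
  congr 1
  rw [mul_pow, mul_pow, ← pow_mul, pow_add]
  ring

end Pool.Agent.P07318t
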