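import Pool.Agent.Lib.P07318t.SmallL
import Pool.Agent.Lib.P07318t.ExcSet

/-!
# The large values outside the exceptional set

PROOF. Tonelli, windows `[rH, (r+1)H)`. A window which contains a point of `[0, 2U]` outside `EE` is good: all `wm (ce α β j) H r ≤ K H`. Then (`small_l`, `Y ≤ H`) `∫_{w_j} fz ≤ K H + 2H + C lo^c (2H + Y) ≤ C' H K lo^c`,
`BadIAux.win_good`, and the sum over the windows is `≤ M⁻¹ (C' H K lo^c)^n (∫_{[2U, 9U]} gz² + ∑_i 2 ∫_{[β_i, β_i + 4U]} fz²)`, `fz² ≤ 2 gz² + 2 ‖fS‖²`: `gz_four`, `small_l`.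
-/

set_option autoImplicit false

namespace Pool.Agent.P07318t

open MeasureTheory Complex Pool.Agent.P07318s Pool.Agent.P07318f Pool.Agent.P07318h Pool.Agent.P07318o

theorem good_int (n : ℕ) (hn : 1 ≤ n) : ∃ (C : ℝ) (c : ℕ), 0 < C ∧
    ∀ (U Y H K M α : ℝ) (β : Fin n → ℝ), 1 ≤ U → 1 ≤ Y → Y ≤ H → H ≤ U → 1 ≤ K → 1 ≤ M → 2 * U ≤ α → α ≤ 5 * U →
    (∀ j, 2 * U ≤ β j) → (∀ j, β j ≤ 5 * U) →
    ∃ B : (Fin n → ℝ) → ENNReal, Measurable B ∧
      (∀ h, ∫⁻ t in Set.Icc 0 (2 * U) \ EE K H α U β, ENNReal.ofReal (bi M Y α t h) ≤ B h) ∧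
      ∫⁻ h in Set.Icc β (fun j => β j + H), B h ≤ ENNReal.ofReal (C * H ^ n * (U * lo U ^ c * (K ^ n / M))) := by
  obtain ⟨C₁, c₁, hC₁, hsm⟩ := small_l
  obtain ⟨C₄, hC₄, h4⟩ := gz_four
  set C₃ : ℝ := 3 + 3 * C₁ with hC₃
  have hC₃0 : 0 < C₃ := by positivity
  set C₅ : ℝ := 2 * C₄ + 10 * C₁ with hC₅
  have hC₅0 : 0 < C₅ := by positivity
  refine ⟨C₃ ^ n * (C₄ + 2 * n * C₅), c₁ * n + (5 + c₁), by positivity, ?_⟩
  intro U Y H K M α β hU hY hYH hHU hK hM hα hα' hβ hβ'
  have hU0 : 0 < U := by linarith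
  have hH1 : 1 ≤ H := hY.trans hYH
  have hH0 : 0 < H := by linarith
  have hK0 : 0 < K := by linarith
  have hM0 : 0 < M := by linarith
  have hl1 := one_le_lo hU
  have hl0 : 0 < lo U := by linarith
  have hlc : 1 ≤ lo U ^ c₁ := one_le_pow₀ hl1
  have hl5 : 1 ≤ lo U ^ 5 := one_le_pow₀ hl1
  have hmeas := BadIAux.bi_meas (n := n) M Y α
  have hgm : Measurable fun x => ENNReal.ofReal (gz x) := ENNReal.measurable_ofReal.comp gz_cont.measurable
  set E : Set ℝ := EE K H α U β with hE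
  have hEm : MeasurableSet E := ee_meas K H α U β
  set G : Set ℝ := Set.Icc 0 (2 * U) \ E with hG
  have hGm : MeasurableSet G := measurableSet_Icc.diff hEm
  refine ⟨fun h => ∫⁻ t in G, ENNReal.ofReal (bi M Y α t h), ?_, fun h => le_rfl, ?_⟩
  · exact Measurable.lintegral_prod_left' hmeas
  rw [lintegral_lintegral_swap (f := fun (h : Fin n → ℝ) (t : ℝ) => ENNReal.ofReal (bi M Y α t h))
    (hmeas.comp measurable_swap).aemeasurable]
  -- the windows
  obtain ⟨N, hN1, hN2, hN3⟩ := win_count hH0 hHU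
  set Φ : ℝ → ENNReal := fun t => ∫⁻ h in Set.Icc β (fun j => β j + H), ENNReal.ofReal (bi M Y α t h) with hΦ
  have hstep1 : ∫⁻ t in G, Φ t ≤
      ∑ r ∈ Finset.range N, ∫⁻ t in Set.Ico ((r : ℝ) * H) ((r + 1) * H), G.indicator Φ t := by
    have h1 := BadIAux.sum_ico (G.indicator Φ) hH0.le 0 N
    simp only [zero_add] at h1
    rw [h1, ← lintegral_indicator hGm, ← lintegral_indicator measurableSet_Ico]
    refine lintegral_mono fun t => ?_
    by_cases ht : t ∈ G
    · have ht2 : t ∈ Set.Ico 0 (N * H) := ⟨ht.1.1, ht.1.2.trans_lt hN1⟩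
      rw [Set.indicator_of_mem ht2]
    · rw [Set.indicator_of_notMem ht]
      exact zero_le
  refine hstep1.trans ?_
  set K' : ENNReal := ENNReal.ofReal (C₃ * H * K * lo U ^ c₁) with hK'
  have hwin : ∀ r ∈ Finset.range N, ∫⁻ t in Set.Ico ((r : ℝ) * H) ((r + 1) * H), G.indicator Φ t ≤
      ENNReal.ofReal M⁻¹ * (K' ^ n * ((∫⁻ t in Set.Ico ((r : ℝ) * H) ((r + 1) * H), ENNReal.ofReal (gz (t + α)) ^ 2) +
        ∑ i, ∫⁻ x in Set.Icc (β i + r * H) (β i + r * H + 2 * H), ENNReal.ofReal (fz Y x) ^ 2)) := by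
    intro r hr
    rw [Finset.mem_range] at hr
    by_cases hbad : ∃ j : Fin (n + 1), K * H < wm (ce α β j) H r
    · have h1 : ∫⁻ t in Set.Ico ((r : ℝ) * H) ((r + 1) * H), G.indicator Φ t = 0 := by
        rw [setLIntegral_congr_fun (g := fun _ => 0) measurableSet_Ico, lintegral_zero]
        intro t ht
        refine Set.indicator_of_notMem (fun h => ?_) _
        exact h.2 (mem_ee hH0 hbad ht h.1)
      rw [h1]
      exact zero_le
    · have hgood : ∀ j : Fin (n + 1), wm (ce α β j) H r ≤ K * H := by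
        intro j
        by_contra h
        exact hbad ⟨j, not_le.1 h⟩
      have hr' : (r : ℝ) ≤ N - 1 := by
        have : (r : ℝ) + 1 ≤ N := by exact_mod_cast hr
        linarith
      have hrH : (r : ℝ) * H ≤ 2 * U := (mul_le_mul_of_nonneg_right hr' hH0.le).trans hN2
      have hrH0 : 0 ≤ (r : ℝ) * H := by positivity
      refine le_trans (lintegral_mono fun t => Set.indicator_le_self _ _ _) ?_
      refine BadIAux.win_good hn hM0 Y α β hH0.le r K' ?_ ?_
      · rw [BadIAux.lint_gz (by positivity)]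
        refine ENNReal.ofReal_le_ofReal ?_
        have h1 : wm α H r ≤ K * H := hgood 0
        unfold wm at h1
        refine h1.trans ?_
        have h2 : K * H ≤ K * H * lo U ^ c₁ := le_mul_of_one_le_right (by positivity) hlc
        have h3 : 0 ≤ K * H * lo U ^ c₁ := by positivity
        rw [hC₃]
        nlinarith
      · intro j
        have h1 := hsm U Y (2 * H) (β j + r * H) hU hY (hYH.trans hHU) (by linarith) (by linarith) (by linarith [hβ j])
          (by linarith [hβ' j])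
        have h0 : ∫⁻ x in Set.Icc (β j + r * H) (β j + r * H + 2 * H), ENNReal.ofReal (gz x) ≤
            ENNReal.ofReal (K * H) := by
          rw [BadIAux.lint_gz (by positivity)]
          exact ENNReal.ofReal_le_ofReal (hgood j.succ)
        calc ∫⁻ x in Set.Icc (β j + r * H) (β j + r * H + 2 * H), ENNReal.ofReal (fz Y x)
            ≤ ∫⁻ x in Set.Icc (β j + r * H) (β j + r * H + 2 * H), (ENNReal.ofReal (gz x) + (1 + ‖fS Y x‖ₑ ^ 2)) :=
              lintegral_mono fun x => BadIAux.ofReal_fz_le Y x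
          _ = (∫⁻ x in Set.Icc (β j + r * H) (β j + r * H + 2 * H), ENNReal.ofReal (gz x)) +
              (ENNReal.ofReal (2 * H) +
              ∫⁻ x in Set.Icc (β j + r * H) (β j + r * H + 2 * H), ‖fS Y x‖ₑ ^ 2) := by
              rw [lintegral_add_left hgm, lintegral_add_left measurable_const]
              congr 2
              rw [setLIntegral_const, one_mul, Real.volume_Icc]
              congr 1
              ring
          _ ≤ ENNReal.ofReal (K * H) +
              (ENNReal.ofReal (2 * H) + ENNReal.ofReal (C₁ * lo U ^ c₁ * (2 * H + Y))) := by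
              gcongr
          _ = ENNReal.ofReal (K * H + (2 * H + C₁ * lo U ^ c₁ * (2 * H + Y))) := by
              rw [← ENNReal.ofReal_add (by positivity) (by positivity), ← ENNReal.ofReal_add
                (by positivity) (by positivity)]
          _ ≤ _ := by
              refine ENNReal.ofReal_le_ofReal ?_
              have hKl : 1 ≤ K * lo U ^ c₁ := by nlinarith
              have h2 : K * H ≤ H * K * lo U ^ c₁ := by
                rw [mul_comm K H]
                exact le_mul_of_one_le_right (by positivity) hlc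
              have h3 : 2 * H ≤ 2 * H * (K * lo U ^ c₁) := le_mul_of_one_le_right (by positivity) hKl
              have h5 : C₁ * lo U ^ c₁ * (2 * H + Y) ≤ C₁ * lo U ^ c₁ * (3 * H) :=
                mul_le_mul_of_nonneg_left (by linarith) (by positivity)
              have h6 : C₁ * lo U ^ c₁ * (3 * H) ≤ C₁ * lo U ^ c₁ * (3 * H) * K :=
                le_mul_of_one_le_right (by positivity) hK
              rw [hC₃]
              calc K * H + (2 * H + C₁ * lo U ^ c₁ * (2 * H + Y))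
                  ≤ H * K * lo U ^ c₁ + (2 * H * (K * lo U ^ c₁) + C₁ * lo U ^ c₁ * (3 * H) * K) := by linarith
                _ = _ := by ring
  refine (Finset.sum_le_sum hwin).trans ?_
  rw [← Finset.mul_sum, ← Finset.mul_sum, Finset.sum_add_distrib, Finset.sum_comm]
  have h6 : ∑ r ∈ Finset.range N, ∫⁻ t in Set.Ico ((r : ℝ) * H) ((r + 1) * H), ENNReal.ofReal (gz (t + α)) ^ 2 ≤
      ENNReal.ofReal (C₄ * U * lo U ^ 5) := by
    have h1 := BadIAux.sum_ico (fun t => ENNReal.ofReal (gz (t + α)) ^ 2) hH0.le 0 N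
    simp only [zero_add] at h1
    rw [h1]
    refine le_trans ?_ (h4 U hU)
    have e1 : ∀ t, gz (t + α) = gz (α + t) := fun t => by rw [add_comm]
    simp only [e1]
    refine BadIAux.tr (fun x => ENNReal.ofReal (gz x) ^ 2) _ _ measurableSet_Ico measurableSet_Icc α ?_
    intro t ht
    constructor
    · linarith [ht.1]
    · linarith [ht.2]
  have h7 : ∀ i : Fin n, ∑ r ∈ Finset.range N,
      ∫⁻ x in Set.Icc (β i + r * H) (β i + r * H + 2 * H), ENNReal.ofReal (fz Y x) ^ 2 ≤
      ENNReal.ofReal (2 * C₅ * U * lo U ^ (5 + c₁)) := by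
    intro i
    refine (BadIAux.sum_win (fun x => ENNReal.ofReal (fz Y x) ^ 2) hH0.le (β i) N).trans ?_
    have hN4 : ((N : ℝ) + 1) * H ≤ 4 * U := by linarith
    have h8 : ∫⁻ x in Set.Icc (β i) (β i + (N + 1) * H), ENNReal.ofReal (fz Y x) ^ 2 ≤
        ∫⁻ x in Set.Icc (β i) (β i + 4 * U), ENNReal.ofReal (fz Y x) ^ 2 :=
      lintegral_mono_set (Set.Icc_subset_Icc le_rfl (by linarith))
    have hgm2 : Measurable fun x => ENNReal.ofReal (gz x) ^ 2 := hgm.pow_const 2
    have h9 : ∫⁻ x in Set.Icc (β i) (β i + 4 * U), ENNReal.ofReal (fz Y x) ^ 2 ≤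
        ENNReal.ofReal (C₅ * U * lo U ^ (5 + c₁)) := by
      calc ∫⁻ x in Set.Icc (β i) (β i + 4 * U), ENNReal.ofReal (fz Y x) ^ 2
          ≤ ∫⁻ x in Set.Icc (β i) (β i + 4 * U), 2 * (ENNReal.ofReal (gz x) ^ 2 + ‖fS Y x‖ₑ ^ 2) :=
            lintegral_mono fun x => BadIAux.ofReal_fz_sq_le Y x
        _ = 2 * ((∫⁻ x in Set.Icc (β i) (β i + 4 * U), ENNReal.ofReal (gz x) ^ 2) +
            ∫⁻ x in Set.Icc (β i) (β i + 4 * U), ‖fS Y x‖ₑ ^ 2) := by
            rw [lintegral_const_mul' _ _ (by norm_num), lintegral_add_left hgm2]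
        _ ≤ 2 * (ENNReal.ofReal (C₄ * U * lo U ^ 5) + ENNReal.ofReal (C₁ * lo U ^ c₁ * (4 * U + Y))) := by
            refine mul_le_mul_right (add_le_add ?_ ?_) _
            · exact le_trans (lintegral_mono_set (Set.Icc_subset_Icc (hβ i) (by linarith [hβ' i]))) (h4 U hU)
            · exact hsm U Y (4 * U) (β i) hU hY (hYH.trans hHU) (by linarith) (by linarith) (by linarith [hβ i])
                (by linarith [hβ' i])
        _ = ENNReal.ofReal (2 * (C₄ * U * lo U ^ 5 + C₁ * lo U ^ c₁ * (4 * U + Y))) := by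
            rw [show (2 : ENNReal) = ENNReal.ofReal 2 by simp, ← ENNReal.ofReal_add (by positivity) (by positivity),
              ← ENNReal.ofReal_mul (by norm_num)]
        _ ≤ _ := by
            refine ENNReal.ofReal_le_ofReal ?_
            have e1 : C₄ * U * lo U ^ 5 ≤ C₄ * U * lo U ^ 5 * lo U ^ c₁ := le_mul_of_one_le_right (by positivity) hlc
            have e2 : C₁ * lo U ^ c₁ * (4 * U + Y) ≤ C₁ * lo U ^ c₁ * (5 * U) :=
              mul_le_mul_of_nonneg_left (by linarith) (by positivity)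
            have e3 : C₁ * lo U ^ c₁ * (5 * U) ≤ C₁ * lo U ^ c₁ * (5 * U) * lo U ^ 5 :=
              le_mul_of_one_le_right (by positivity) hl5
            rw [hC₅, pow_add]
            calc 2 * (C₄ * U * lo U ^ 5 + C₁ * lo U ^ c₁ * (4 * U + Y))
                ≤ 2 * (C₄ * U * lo U ^ 5 * lo U ^ c₁ + C₁ * lo U ^ c₁ * (5 * U) * lo U ^ 5) := by linarith
              _ = _ := by ring
    refine (mul_le_mul_right (h8.trans h9) _).trans (le_of_eq ?_)
    rw [show (2 : ENNReal) = ENNReal.ofReal 2 by simp, ← ENNReal.ofReal_mul (by norm_num)]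
    congr 1
    ring
  have h10 : (∑ r ∈ Finset.range N, ∫⁻ t in Set.Ico ((r : ℝ) * H) ((r + 1) * H), ENNReal.ofReal (gz (t + α)) ^ 2) +
      ∑ i : Fin n, ∑ r ∈ Finset.range N,
        ∫⁻ x in Set.Icc (β i + r * H) (β i + r * H + 2 * H), ENNReal.ofReal (fz Y x) ^ 2 ≤
      ENNReal.ofReal ((C₄ + 2 * n * C₅) * U * lo U ^ (5 + c₁)) := by
    refine (add_le_add h6 (Finset.sum_le_sum fun i _ => h7 i)).trans ?_
    rw [Finset.sum_const, Finset.card_univ, Fintype.card_fin, nsmul_eq_mul, ← ENNReal.ofReal_natCast n,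
      ← ENNReal.ofReal_mul (by positivity), ← ENNReal.ofReal_add (by positivity) (by positivity)]
    apply ENNReal.ofReal_le_ofReal
    have e1 : C₄ * U * lo U ^ 5 ≤ C₄ * U * lo U ^ 5 * lo U ^ c₁ := le_mul_of_one_le_right (by positivity) hlc
    rw [pow_add]
    nlinarith
  refine (mul_le_mul_right (mul_le_mul_right h10 _) _).trans (le_of_eq ?_)
  rw [hK', ← ENNReal.ofReal_pow (by positivity), ← ENNReal.ofReal_mul (by positivity),
    ← ENNReal.ofReal_mul (by positivity)]
  congr 1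
  rw [mul_pow, mul_pow, mul_pow, ← pow_mul, pow_add (lo U) (c₁ * n)]
  rw [div_eq_mul_inv]
  ring

end Pool.Agent.P07318t
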