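import Pool.Agent.Lib.P07318t.TailDL
import Pool.Agent.Lib.P07318t.RhoL

/-!
# The diagonal terms with a large height, in mean square over the box

PROOF. `tail_dL_of` of TailDL.lean with `rho_l`: `1 + 1/(2s) ≤ (3/2)/s` for `0 < s ≤ 1`.
-/

set_option autoImplicit false

namespace Pool.Agent.P07318t

open MeasureTheory Complex Pool.Agent.P07318s Pool.Agent.P07318f Pool.Agent.P07318h Pool.Agent.P07318o

theorem rqB_l (n : ℕ) : RqB n ((2 * n) ^ 2) := by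
  refine ⟨(3 / 2) ^ ((2 * n) ^ 2), by positivity, fun s hs hs1 => (rho_l n hs).trans ?_⟩
  refine ENNReal.ofReal_le_ofReal ?_
  rw [← mul_pow]
  have h1 : 1 + 1 / (2 * s) ≤ 3 / 2 * (1 / s) := by
    rw [← sub_nonneg]
    have : 3 / 2 * (1 / s) - (1 + 1 / (2 * s)) = (1 - s) / s := by
      field_simp
      ring
    rw [this]
    exact div_nonneg (by linarith) hs.le
  exact pow_le_pow_left₀ (by positivity) h1 _

/-- TailL -/
theorem tail_l (n : ℕ) : ∃ (C : ℝ) (c : ℕ), 0 < C ∧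
    ∀ (U Y H α : ℝ) (β : Fin n → ℝ), 1 ≤ U → 1 ≤ Y → 1 ≤ H → H ≤ U → 2 * U ≤ α → α ≤ 5 * U →
    (∀ j, 2 * U ≤ β j) → (∀ j, β j ≤ 5 * U) →
    ∃ B : (Fin n → ℝ) → ENNReal, Measurable B ∧
      (∀ h ∈ Set.Icc β (fun j => β j + H),
        ∫⁻ t in Set.Icc 0 (2 * U), ‖Dg (sh α h t) - DgY Y (sh α h t)‖ₑ ≤ B h) ∧
      ∫⁻ h in Set.Icc β (fun j => β j + H), B h ≤
        ENNReal.ofReal (C * H ^ n * (U * lo U ^ c * (1 / Y + 1 / H) ^ (1 / 2 : ℝ))) := by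
  obtain ⟨C, hC, ht⟩ := tail_dL_of n ((2 * n) ^ 2) (rqB_l n)
  refine ⟨C, n + (2 * n) ^ 2 + 2, hC, ?_⟩
  intro U Y H α β hU hY hH hHU hα1 hα2 hβ1 hβ2
  obtain ⟨B, h1, h2, h3⟩ := ht U Y H α β hU hY (by linarith) hHU hα1 hα2 hβ1 hβ2
  refine ⟨B, h1, h2, h3.trans (le_of_eq ?_)⟩
  unfold lo
  congr 1
  ring

end Pool.Agent.P07318t
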