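import Pool.Agent.Lib.P07318t.Defs
import Pool.Agent.Lib.P07318h.TelP

/-!
# Telescoping on a measurable set

PROOF. As `tel_pt` of P07318h/TelP: the pointwise bound `pt_bound` is integrated over the measurable set `G ⊆ [0, 2U]` instead of `[0, V]`.
-/

set_option autoImplicit false

namespace Pool.Agent.P07318t

open MeasureTheory Complex Pool.Agent.P07318s Pool.Agent.P07318f Pool.Agent.P07318h Pool.Agent.P07318o

/-- TelG: `tel_pt` of P07318h/TelP on a measurable set -/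
theorem tel_g (n : ℕ) : ∃ C : ℝ, 0 < C ∧ ∀ (U Y α M : ℝ) (h : Fin n → ℝ) (G : Set ℝ), 1 ≤ U → 1 ≤ M → 2 * U ≤ α →
    (∀ j, 2 * U ≤ h j) → MeasurableSet G → G ⊆ Set.Icc 0 (2 * U) →
    ‖∫ t in G, (((gz (t + α) * ∏ j, gz (t + h j) : ℝ) : ℂ) - (gz (t + α) : ℂ) * ∏ j, fS Y (t + h j))‖ₑ ≤
      (∑ r : Fin n, ‖∫ t in G, Ph M Y α r t h * fB Y (t + h r)‖ₑ) +
        (n : ENNReal) * (∫⁻ t in G, ENNReal.ofReal (bi M Y α t h)) +
        ENNReal.ofReal (C * M ^ n * U ^ (3 / 4 : ℝ)) := by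
  obtain ⟨C, hC, hafe⟩ := afe (1 / 8) (by norm_num)
  refine ⟨2 * n * C + 1, by positivity, fun U Y α M h G hU hM hα hh hG hG2 => ?_⟩
  have hM0 : 0 ≤ M := by linarith
  have hU0 : 0 < U := by linarith
  set E : ℝ := C * U ^ (-(3 / 8) : ℝ) with hEdef
  have hE : 0 ≤ E := by positivity
  have herr : ∀ t : ℝ, 0 ≤ t → ∀ r : Fin n,
      ‖((gz (t + h r) : ℝ) : ℂ) - fS Y (t + h r) - fB Y (t + h r)‖ ≤ E := by
    intro t ht r
    have hx : U ≤ t + h r := by have := hh r; linarith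
    have hx1 : 1 ≤ t + h r := by linarith
    have e1 : ((gz (t + h r) : ℝ) : ℂ) - fS Y (t + h r) - fB Y (t + h r) =
        ((gz (t + h r) : ℝ) : ℂ) - Fd (t + h r) := by
      rw [fS_add, max_eq_left hx1]
      ring
    rw [e1]
    have h1 := hafe (t + h r) hx1
    have e2 : (-(1 / 2) + 1 / 8 : ℝ) = -(3 / 8) := by norm_num
    rw [e2] at h1
    refine h1.trans ?_
    rw [hEdef]
    exact mul_le_mul_of_nonneg_left
      (Real.rpow_le_rpow_of_nonpos hU0 hx (by norm_num)) hC.le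
  have iTr : ∀ r : Fin n, IntegrableOn (TelPAux.Tr Y α r h) G := fun r =>
    ((TelPAux.Tr_cont Y α r h).continuousOn.integrableOn_Icc (a := 0) (b := 2 * U)).mono_set hG2
  have iPh : ∀ r : Fin n, IntegrableOn (fun t => Ph M Y α r t h * fB Y (t + h r)) G := by
    intro r
    have hb : Continuous fun t => fB Y (t + h r) := (fB_cont Y).comp (by fun_prop)
    have h1 : IntegrableOn (fun t => fB Y (t + h r)) (Set.Icc 0 (2 * U)) :=
      hb.continuousOn.integrableOn_Icc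
    have h2 : IntegrableOn (fun t => Ph M Y α r t h * fB Y (t + h r)) (Set.Icc 0 (2 * U)) :=
      h1.bdd_mul (c := M ^ n) (TelPAux.Ph_meas M Y α r h).aestronglyMeasurable
        (Filter.Eventually.of_forall fun t => TelPAux.norm_Ph_le Y α hM r t h)
    exact h2.mono_set hG2
  -- one term
  have hone : ∀ r : Fin n, ‖∫ t in G, TelPAux.Tr Y α r h t‖ₑ ≤
      ‖∫ t in G, Ph M Y α r t h * fB Y (t + h r)‖ₑ +
        ((∫⁻ t in G, ENNReal.ofReal (bi M Y α t h)) +
          ENNReal.ofReal (2 * U * (M ^ n * E))) := by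
    intro r
    have i1 := iTr r
    have i2 := iPh r
    have e1 : (∫ t in G, TelPAux.Tr Y α r h t) =
        (∫ t in G, Ph M Y α r t h * fB Y (t + h r)) +
          ∫ t in G, (TelPAux.Tr Y α r h t - Ph M Y α r t h * fB Y (t + h r)) := by
      rw [integral_sub i1 i2]
      ring
    rw [e1]
    refine (enorm_add_le _ _).trans ?_
    gcongr
    refine (enorm_integral_le_lintegral_enorm _).trans ?_
    have h2 : ∀ t ∈ G, ‖TelPAux.Tr Y α r h t - Ph M Y α r t h * fB Y (t + h r)‖ₑ ≤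
        ENNReal.ofReal (bi M Y α t h) + ENNReal.ofReal (M ^ n * E) := by
      intro t ht
      rw [← ENNReal.ofReal_add (bi_nonneg _ _ _ _ _) (by positivity), ← ofReal_norm]
      exact ENNReal.ofReal_le_ofReal (TelPAux.pt_bound hM r hE (herr t (hG2 ht).1 r))
    calc ∫⁻ t in G, ‖TelPAux.Tr Y α r h t - Ph M Y α r t h * fB Y (t + h r)‖ₑ
        ≤ ∫⁻ t in G, (ENNReal.ofReal (bi M Y α t h) + ENNReal.ofReal (M ^ n * E)) :=
          setLIntegral_mono' hG h2
      _ = (∫⁻ t in G, ENNReal.ofReal (bi M Y α t h)) +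
            ∫⁻ t in G, ENNReal.ofReal (M ^ n * E) :=
          lintegral_add_right _ measurable_const
      _ ≤ (∫⁻ t in G, ENNReal.ofReal (bi M Y α t h)) +
            ∫⁻ t in Set.Icc (0:ℝ) (2 * U), ENNReal.ofReal (M ^ n * E) :=
          add_le_add le_rfl (lintegral_mono_set hG2)
      _ = (∫⁻ t in G, ENNReal.ofReal (bi M Y α t h)) +
            ENNReal.ofReal (2 * U * (M ^ n * E)) := by
          rw [setLIntegral_const, Real.volume_Icc, sub_zero,
            ← ENNReal.ofReal_mul (by positivity), mul_comm (2 * U)]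
  have e0 : (∫ t in G, (((gz (t + α) * ∏ j, gz (t + h j) : ℝ) : ℂ) -
      (gz (t + α) : ℂ) * ∏ j, fS Y (t + h j))) = ∑ r, ∫ t in G, TelPAux.Tr Y α r h t := by
    rw [← integral_finsetSum _ (fun r _ => iTr r)]
    exact integral_congr_ae (Filter.Eventually.of_forall fun t => TelPAux.tel_id Y α h t)
  rw [e0]
  refine (enorm_sum_le _ _).trans ?_
  refine (Finset.sum_le_sum fun r _ => hone r).trans ?_
  rw [Finset.sum_add_distrib, Finset.sum_const, Finset.card_univ, Fintype.card_fin, nsmul_eq_mul,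
    mul_add, ← add_assoc]
  gcongr
  rw [← ENNReal.ofReal_natCast n, ← ENNReal.ofReal_mul (by positivity)]
  refine ENNReal.ofReal_le_ofReal ?_
  have h3 : U * U ^ (-(3 / 8) : ℝ) ≤ U ^ (3 / 4 : ℝ) := by
    have e3 : U * U ^ (-(3 / 8) : ℝ) = U ^ (5 / 8 : ℝ) := by
      conv_lhs => rw [← Real.rpow_one U, ← Real.rpow_mul hU0.le]
      rw [← Real.rpow_add hU0]
      norm_num
    rw [e3]
    exact Real.rpow_le_rpow_of_exponent_le hU (by norm_num)
  have h4 : (n : ℝ) * (2 * U * (M ^ n * E)) = 2 * n * C * M ^ n * (U * U ^ (-(3 / 8) : ℝ)) := by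
    rw [hEdef]
    ring
  rw [h4]
  have h5 : 2 * n * C * M ^ n * (U * U ^ (-(3 / 8) : ℝ)) ≤ 2 * n * C * M ^ n * U ^ (3 / 4 : ℝ) :=
    mul_le_mul_of_nonneg_left h3 (by positivity)
  have h6 : 0 ≤ M ^ n * U ^ (3 / 4 : ℝ) := by positivity
  nlinarith

end Pool.Agent.P07318t
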