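import Pool.Agent.Lib.P07318t.LongL
import Pool.Agent.Lib.P07318t.GoodI
import Pool.Agent.Lib.P07318t.TailL
import Pool.Agent.Lib.P07318t.TelG
import Pool.Agent.Lib.P07318t.ExcI
import Pool.Agent.Lib.P07318t.ExcSet
import Pool.Agent.Lib.P07318h.ShortP
import Pool.Agent.Lib.P07318h.Core

/-!
# The product off the exceptional set against the diagonal terms, in mean over the box, for one `V`

PROOF. `E = EE K H α U β`, `G = [0, V] \ E`. `∫_G ∏ gz - ∫_0^V Dg = ∫_G (∏ gz - gz ∏ fS) - ∫_{[0,V] ∩ E} gz ∏ fS + ∫_0^V (gz ∏ fS - DgY) + ∫_0^V (DgY - Dg)` (`four_parts`). The first part is bounded by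
`tel_g`, `long_l`, `good_int`, the second by `exc_int`, the third by `short_p`, the fourth by `tail_l`; `1/Y + 1/H ≤ 2/Y`.
-/

set_option autoImplicit false

namespace Pool.Agent.P07318t

open MeasureTheory Complex Pool.Agent.P07318s Pool.Agent.P07318f Pool.Agent.P07318h Pool.Agent.P07318o

namespace CoreLAux

lemma half_bd {Y H : ℝ} (hY : 1 ≤ Y) (hYH : Y ≤ H) : (1 / Y + 1 / H) ^ (1 / 2 : ℝ) ≤ 2 * Y ^ (-(1 / 2) : ℝ) := by
  have hY0 : 0 < Y := by linarith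
  have hH0 : 0 < H := by linarith
  have h1 : 1 / Y + 1 / H ≤ 4 * Y ^ (-1 : ℝ) := by
    have h2 : 1 / H ≤ 1 / Y := one_div_le_one_div_of_le hY0 hYH
    have h3 : 1 / Y = Y ^ (-1 : ℝ) := by rw [Real.rpow_neg_one, one_div]
    have h4 : 0 < Y ^ (-1 : ℝ) := Real.rpow_pos_of_pos hY0 _
    rw [h3] at h2
    rw [h3]
    linarith
  have h5 : (1 / Y + 1 / H) ^ (1 / 2 : ℝ) ≤ (4 * Y ^ (-1 : ℝ)) ^ (1 / 2 : ℝ) :=
    Real.rpow_le_rpow (by positivity) h1 (by norm_num)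
  refine h5.trans (le_of_eq ?_)
  rw [Real.mul_rpow (by norm_num) (Real.rpow_nonneg hY0.le _), ← Real.rpow_mul hY0.le]
  have h6 : (4 : ℝ) ^ (1 / 2 : ℝ) = 2 := by
    rw [show (4 : ℝ) = 2 ^ (2 : ℝ) by norm_num, ← Real.rpow_mul (by norm_num)]
    norm_num
  rw [h6]
  congr 2
  norm_num

/-- the four parts -/
lemma four_parts {V : ℝ} (hV : 0 ≤ V) {E : Set ℝ} (hE : MeasurableSet E) {f1 f2 f3 f4 : ℝ → ℂ}
    (h1 : Continuous f1) (h2 : Continuous f2) (h3 : IntervalIntegrable f3 volume 0 V)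
    (h4 : IntervalIntegrable f4 volume 0 V) :
    ‖(∫ t in Set.Icc 0 V \ E, f1 t) - ∫ t in (0:ℝ)..V, f4 t‖ₑ ≤ ‖∫ t in Set.Icc 0 V \ E, (f1 t - f2 t)‖ₑ +
      (∫⁻ t in E, ‖f2 t‖ₑ) + ‖∫ t in (0:ℝ)..V, (f2 t - f3 t)‖ₑ + ‖∫ t in (0:ℝ)..V, (f3 t - f4 t)‖ₑ := by
  have i1 : IntegrableOn f1 (Set.Icc 0 V) := h1.integrableOn_Icc
  have i2 : IntegrableOn f2 (Set.Icc 0 V) := h2.integrableOn_Icc
  have j1 : IntegrableOn f1 (Set.Icc 0 V \ E) := i1.mono_set Set.diff_subset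
  have j2 : IntegrableOn f2 (Set.Icc 0 V \ E) := i2.mono_set Set.diff_subset
  have e1 : (∫ t in Set.Icc 0 V \ E, f1 t) = (∫ t in Set.Icc 0 V \ E, (f1 t - f2 t)) + ∫ t in Set.Icc 0 V \ E, f2 t := by
    rw [integral_sub j1 j2]
    ring
  have e2 : (∫ t in Set.Icc 0 V \ E, f2 t) = (∫ t in Set.Icc 0 V, f2 t) - ∫ t in Set.Icc 0 V ∩ E, f2 t := by
    have := integral_inter_add_diff (f := f2) (s := Set.Icc 0 V) hE i2
    rw [← this]
    ring
  have e3 : (∫ t in Set.Icc 0 V, f2 t) = ∫ t in (0:ℝ)..V, f2 t := by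
    rw [intervalIntegral.integral_of_le hV, integral_Icc_eq_integral_Ioc]
  have e4 : (∫ t in (0:ℝ)..V, f2 t) - ∫ t in (0:ℝ)..V, f4 t =
      (∫ t in (0:ℝ)..V, (f2 t - f3 t)) + ∫ t in (0:ℝ)..V, (f3 t - f4 t) := by
    rw [intervalIntegral.integral_sub (h2.intervalIntegrable _ _) h3, intervalIntegral.integral_sub h3 h4]
    ring
  have e5 : (∫ t in Set.Icc 0 V \ E, f1 t) - ∫ t in (0:ℝ)..V, f4 t =
      (∫ t in Set.Icc 0 V \ E, (f1 t - f2 t)) + (-∫ t in Set.Icc 0 V ∩ E, f2 t) +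
        (∫ t in (0:ℝ)..V, (f2 t - f3 t)) + ∫ t in (0:ℝ)..V, (f3 t - f4 t) := by
    rw [e1, e2, e3]
    linear_combination e4
  rw [e5]
  refine (enorm_add_le _ _).trans (add_le_add ((enorm_add_le _ _).trans (add_le_add ((enorm_add_le _ _).trans
    (add_le_add le_rfl ?_)) le_rfl)) le_rfl)
  rw [enorm_neg]
  refine (enorm_integral_le_lintegral_enorm _).trans ?_
  exact lintegral_mono_set Set.inter_subset_right

lemma pow_lo {U : ℝ} (hU : 1 ≤ U) {a b : ℕ} (h : a ≤ b) : lo U ^ a ≤ lo U ^ b :=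
  pow_le_pow_right₀ (one_le_lo hU) h

end CoreLAux

open CoreLAux CoreAux in
theorem core_l (n : ℕ) (hn : 1 ≤ n) : ∃ (C : ℝ) (c : ℕ), 0 < C ∧
    ∀ (U Y H K M α V : ℝ) (β : Fin n → ℝ), 1 ≤ U → 1 ≤ Y → Y ≤ H → H ≤ U → Y ^ n ≤ U ^ (1 / 16 : ℝ) → 1 ≤ K → 1 ≤ M →
    2 * U ≤ α → α ≤ 5 * U → (∀ j, 2 * U ≤ β j) → (∀ j, β j ≤ 5 * U) → 0 ≤ V → V ≤ 2 * U →
    ∃ B : (Fin n → ℝ) → ENNReal, Measurable B ∧
      (∀ h ∈ Set.Icc β (fun j => β j + H),
        ‖(∫ t in Set.Icc 0 V \ EE K H α U β, ((gz (t + α) * ∏ j, gz (t + h j) : ℝ) : ℂ)) - ∫ t in (0:ℝ)..V, Dg (sh α h t)‖ₑ ≤ B h) ∧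
      ∫⁻ h in Set.Icc β (fun j => β j + H), B h ≤
        ENNReal.ofReal (C * H ^ n * (U * lo U ^ c * (K ^ n / M + 1 / K + M ^ n * Y ^ (-(1 / 2) : ℝ)) + M ^ n * U ^ (3 / 4 : ℝ))) := by
  obtain ⟨C1, c1, hC1, long⟩ := long_l n
  obtain ⟨C2, c2, hC2, good⟩ := good_int n hn
  obtain ⟨C3, c3, hC3, tail⟩ := tail_l n
  obtain ⟨C4, hC4, tel⟩ := tel_g n
  obtain ⟨C5, hC5, short⟩ := short_p n
  obtain ⟨C6, c6, hC6, exc⟩ := exc_int n
  have hn0 : (0:ℝ) ≤ n := Nat.cast_nonneg n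
  refine ⟨n * (2 * C1) + n * C2 + C6 + 2 * C3 + C4 + C5, c1 + c2 + c3 + c6, by positivity, ?_⟩
  intro U Y H K M α V β hU hY hYH hHU hYn hK hM hα1 hα2 hβ1 hβ2 hV0 hV2
  have hU0 : 0 < U := by linarith
  have hY0 : 0 < Y := by linarith
  have hH1 : 1 ≤ H := by linarith
  have hH0 : 0 < H := by linarith
  have hK0 : 0 < K := by linarith
  have hM0 : 0 < M := by linarith
  obtain ⟨E, hEdef⟩ : ∃ E : Set ℝ, E = EE K H α U β := ⟨_, rfl⟩
  have hE : MeasurableSet E := by rw [hEdef]; exact ee_meas K H α U β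
  have hG : MeasurableSet (Set.Icc 0 V \ E) := measurableSet_Icc.diff hE
  have hG2 : Set.Icc 0 V \ E ⊆ Set.Icc 0 (2 * U) := fun t ht => ⟨ht.1.1, ht.1.2.trans hV2⟩
  choose Br hBrm hBr1 hBr2 using fun r : Fin n =>
    long U Y H α M β r (Set.Icc 0 V \ E) hU hY hH1 hHU hα1 hα2 hβ1 hβ2 hG hG2 hM
  obtain ⟨Bb, hBbm, hBb1, hBb2⟩ := good U Y H K M α β hU hY hYH hHU hK hM hα1 hα2 hβ1 hβ2
  obtain ⟨Be, hBem, hBe1, hBe2⟩ := exc U Y H K α β hU hY hYH hHU hK hα1 hα2 hβ1 hβ2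
  obtain ⟨Bt, hBtm, hBt1, hBt2⟩ := tail U Y H α β hU hY hH1 hHU hα1 hα2 hβ1 hβ2
  rw [← hEdef] at hBb1 hBe1
  refine ⟨fun h => (∑ r, Br r h) + (n : ENNReal) * Bb h + Be h + Bt h +
    ENNReal.ofReal (C4 * M ^ n * U ^ (3 / 4 : ℝ)) + ENNReal.ofReal (C5 * U ^ (3 / 4 : ℝ)), ?_, ?_, ?_⟩
  · exact (((((Finset.measurable_fun_sum _ fun r _ => hBrm r).add (hBbm.const_mul _)).add hBem).add hBtm).add_const _).add_const _
  · intro h hh
    rw [← hEdef]
    by_cases htop : Bt h = ⊤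
    · simp [htop]
    have hh1 : ∀ j, 2 * U ≤ h j := fun j => (hβ1 j).trans (hh.1 j)
    have hh2 : ∀ j, h j ≤ 6 * U := fun j => by
      have h1 := hh.2 j
      have h2 := hβ2 j
      simp only at h1
      linarith
    have hfin : ∫⁻ t in Set.Icc 0 (2 * U), ‖Dg (sh α h t) - DgY Y (sh α h t)‖ₑ ≠ ⊤ :=
      ne_top_of_le_ne_top htop (hBt1 h hh)
    have i1 : Continuous (fun t => ((gz (t + α) * ∏ j, gz (t + h j) : ℝ) : ℂ)) := by
      refine Complex.continuous_ofReal.comp ?_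
      refine (gz_cont.comp (continuous_id.add continuous_const)).mul ?_
      exact continuous_finsetProd _ fun j _ => gz_cont.comp (continuous_id.add continuous_const)
    have i2 : Continuous (fun t => (gz (t + α) : ℂ) * ∏ j, fS Y (t + h j)) := by
      refine (Complex.continuous_ofReal.comp (gz_cont.comp (continuous_id.add continuous_const))).mul ?_
      exact continuous_finsetProd _ fun j _ => (fS_cont _).comp (continuous_id.add continuous_const)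
    have i3 := dgy_int (Y := Y) hU hα1 hh1 hV0 hV2 hfin
    have i4 : IntervalIntegrable (fun t => Dg (sh α h t)) volume 0 V := by
      refine ContinuousOn.intervalIntegrable ?_
      rw [Set.uIcc_of_le hV0]
      exact dg_contOn hU hα1 hh1
    refine (four_parts hV0 hE i1 i2 i3 i4).trans ?_
    have b1 := tel U Y α M h (Set.Icc 0 V \ E) hU hM hα1 hh1 hG hG2
    have b2 := short U Y V α h hU hY hYn hα1 (by linarith) hh1 hh2 hV0 hV2
    have b1' : ‖∫ t in Set.Icc 0 V \ E, (((gz (t + α) * ∏ j, gz (t + h j) : ℝ) : ℂ) -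
        (gz (t + α) : ℂ) * ∏ j, fS Y (t + h j))‖ₑ ≤ (∑ r, Br r h) + (n : ENNReal) * Bb h +
        ENNReal.ofReal (C4 * M ^ n * U ^ (3 / 4 : ℝ)) := by
      refine b1.trans ?_
      gcongr with r _
      · exact hBr1 r h
      · refine le_trans (lintegral_mono_set ?_) (hBb1 h)
        exact Set.diff_subset_diff_left (Set.Icc_subset_Icc_right hV2)
    have b4' : ∫⁻ t in E, ‖(gz (t + α) : ℂ) * ∏ j, fS Y (t + h j)‖ₑ ≤ Be h := by
      refine le_trans (le_of_eq ?_) (hBe1 h)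
      refine lintegral_congr fun t => ?_
      rw [← ofReal_norm, norm_mul, norm_prod, Complex.norm_real, Real.norm_of_nonneg (gz_nonneg _)]
    have b2' : ‖∫ t in (0:ℝ)..V, ((gz (t + α) : ℂ) * (∏ j, fS Y (t + h j)) - DgY Y (sh α h t))‖ₑ ≤
        ENNReal.ofReal (C5 * U ^ (3 / 4 : ℝ)) := by
      rw [← ofReal_norm]
      exact ENNReal.ofReal_le_ofReal b2
    have b3' : ‖∫ t in (0:ℝ)..V, (DgY Y (sh α h t) - Dg (sh α h t))‖ₑ ≤ Bt h := by
      rw [intervalIntegral.integral_of_le hV0]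
      refine (enorm_integral_le_lintegral_enorm _).trans ?_
      refine le_trans ?_ (hBt1 h hh)
      have hsub : Set.Ioc 0 V ⊆ Set.Icc 0 (2 * U) := fun t ht => ⟨ht.1.le, ht.2.trans hV2⟩
      refine le_trans (lintegral_mono_set hsub) (le_of_eq ?_)
      refine lintegral_congr fun t => ?_
      rw [← enorm_neg, neg_sub]
    refine (add_le_add (add_le_add (add_le_add b1' b4') b2') b3').trans (le_of_eq ?_)
    ring
  · have hbox := vol_box hH0.le β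
    have hHn : 0 < H ^ n := by positivity
    have hhalf := half_bd hY hYH
    have hlo := one_le_lo hU
    have hlo0 : 0 < lo U := by linarith
    obtain ⟨c, hc⟩ : ∃ c : ℕ, c = c1 + c2 + c3 + c6 := ⟨_, rfl⟩
    obtain ⟨Z, hZ⟩ : ∃ Z : ℝ, Z = U * lo U ^ c * (K ^ n / M + 1 / K + M ^ n * Y ^ (-(1 / 2) : ℝ)) + M ^ n * U ^ (3 / 4 : ℝ) := ⟨_, rfl⟩
    rw [← hc, ← hZ]
    have hMn : 1 ≤ M ^ n := one_le_pow₀ hM
    have p1 : 0 ≤ U * lo U ^ c * (K ^ n / M) := by positivity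
    have p2 : 0 ≤ U * lo U ^ c * (1 / K) := by positivity
    have p3 : 0 ≤ U * lo U ^ c * (M ^ n * Y ^ (-(1 / 2) : ℝ)) := by positivity
    have p4 : 0 ≤ M ^ n * U ^ (3 / 4 : ℝ) := by positivity
    have hZe : Z = U * lo U ^ c * (K ^ n / M) + U * lo U ^ c * (1 / K) +
      U * lo U ^ c * (M ^ n * Y ^ (-(1 / 2) : ℝ)) + M ^ n * U ^ (3 / 4 : ℝ) := by rw [hZ]; ring
    have hZ0 : 0 ≤ Z := by rw [hZe]; positivity
    have e1 : C1 * H ^ n * (U * lo U ^ c1 * M ^ n * (1 / Y + 1 / H) ^ (1 / 2 : ℝ)) ≤ 2 * C1 * H ^ n * Z := by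
      have h1 : U * lo U ^ c1 * M ^ n * (1 / Y + 1 / H) ^ (1 / 2 : ℝ) ≤ 2 * Z := by
        have h2 := pow_lo hU (by omega : c1 ≤ c)
        calc U * lo U ^ c1 * M ^ n * (1 / Y + 1 / H) ^ (1 / 2 : ℝ)
            ≤ U * lo U ^ c * M ^ n * (2 * Y ^ (-(1 / 2) : ℝ)) := by gcongr
          _ = 2 * (U * lo U ^ c * (M ^ n * Y ^ (-(1 / 2) : ℝ))) := by ring
          _ ≤ 2 * Z := by rw [hZe]; linarith
      calc C1 * H ^ n * (U * lo U ^ c1 * M ^ n * (1 / Y + 1 / H) ^ (1 / 2 : ℝ))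
          ≤ C1 * H ^ n * (2 * Z) := by gcongr
        _ = 2 * C1 * H ^ n * Z := by ring
    have e3 : C3 * H ^ n * (U * lo U ^ c3 * (1 / Y + 1 / H) ^ (1 / 2 : ℝ)) ≤ 2 * C3 * H ^ n * Z := by
      have h1 : U * lo U ^ c3 * (1 / Y + 1 / H) ^ (1 / 2 : ℝ) ≤ 2 * Z := by
        have h2 := pow_lo hU (by omega : c3 ≤ c)
        calc U * lo U ^ c3 * (1 / Y + 1 / H) ^ (1 / 2 : ℝ)
            ≤ U * lo U ^ c * (2 * Y ^ (-(1 / 2) : ℝ)) := by gcongr
          _ = 2 * (U * lo U ^ c * (1 * Y ^ (-(1 / 2) : ℝ))) := by ring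
          _ ≤ 2 * (U * lo U ^ c * (M ^ n * Y ^ (-(1 / 2) : ℝ))) := by gcongr
          _ ≤ 2 * Z := by rw [hZe]; linarith
      calc C3 * H ^ n * (U * lo U ^ c3 * (1 / Y + 1 / H) ^ (1 / 2 : ℝ))
          ≤ C3 * H ^ n * (2 * Z) := by gcongr
        _ = 2 * C3 * H ^ n * Z := by ring
    have e2 : C2 * H ^ n * (U * lo U ^ c2 * (K ^ n / M)) ≤ C2 * H ^ n * Z := by
      have h2 := pow_lo hU (by omega : c2 ≤ c)
      have h1 : U * lo U ^ c2 * (K ^ n / M) ≤ Z := by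
        calc U * lo U ^ c2 * (K ^ n / M) ≤ U * lo U ^ c * (K ^ n / M) := by gcongr
          _ ≤ Z := by rw [hZe]; linarith
      gcongr
    have e6 : C6 * H ^ n * (U * lo U ^ c6 / K) ≤ C6 * H ^ n * Z := by
      have h2 := pow_lo hU (by omega : c6 ≤ c)
      have h1 : U * lo U ^ c6 / K ≤ Z := by
        calc U * lo U ^ c6 / K ≤ U * lo U ^ c / K := by gcongr
          _ = U * lo U ^ c * (1 / K) := by ring
          _ ≤ Z := by rw [hZe]; linarith
      gcongr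
    have e4 : C4 * M ^ n * U ^ (3 / 4 : ℝ) ≤ C4 * Z := by
      have h1 : M ^ n * U ^ (3 / 4 : ℝ) ≤ Z := by rw [hZe]; linarith
      calc C4 * M ^ n * U ^ (3 / 4 : ℝ) = C4 * (M ^ n * U ^ (3 / 4 : ℝ)) := by ring
        _ ≤ C4 * Z := by gcongr
    have e5 : C5 * U ^ (3 / 4 : ℝ) ≤ C5 * Z := by
      have h1 : U ^ (3 / 4 : ℝ) ≤ Z := by
        calc U ^ (3 / 4 : ℝ) = 1 * U ^ (3 / 4 : ℝ) := by ring
          _ ≤ M ^ n * U ^ (3 / 4 : ℝ) := by gcongr
          _ ≤ Z := by rw [hZe]; linarith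
      gcongr
    rw [lintegral_add_right _ measurable_const, lintegral_add_right _ measurable_const,
      lintegral_add_right _ hBtm, lintegral_add_right _ hBem, lintegral_add_right _ (hBbm.const_mul _),
      lintegral_finsetSum _ (fun r _ => hBrm r), lintegral_const_mul _ hBbm, setLIntegral_const,
      setLIntegral_const, hbox]
    have s1 : ∑ r : Fin n, ∫⁻ h in Set.Icc β (fun j => β j + H), Br r h ≤
        ENNReal.ofReal (n * (2 * C1 * H ^ n * Z)) := by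
      calc ∑ r : Fin n, ∫⁻ h in Set.Icc β (fun j => β j + H), Br r h
          ≤ ∑ _r : Fin n, ENNReal.ofReal (2 * C1 * H ^ n * Z) :=
            Finset.sum_le_sum fun r _ => (hBr2 r).trans (ENNReal.ofReal_le_ofReal e1)
        _ = ENNReal.ofReal (n * (2 * C1 * H ^ n * Z)) := by
            rw [Finset.sum_const, Finset.card_univ, Fintype.card_fin, nsmul_eq_mul,
              ENNReal.ofReal_mul hn0, ENNReal.ofReal_natCast]
    have s2 : (n : ENNReal) * ∫⁻ h in Set.Icc β (fun j => β j + H), Bb h ≤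
        ENNReal.ofReal (n * (C2 * H ^ n * Z)) := by
      rw [ENNReal.ofReal_mul hn0, ENNReal.ofReal_natCast]
      gcongr
      exact hBb2.trans (ENNReal.ofReal_le_ofReal e2)
    have s6 : ∫⁻ h in Set.Icc β (fun j => β j + H), Be h ≤ ENNReal.ofReal (C6 * H ^ n * Z) :=
      hBe2.trans (ENNReal.ofReal_le_ofReal e6)
    have s3 : ∫⁻ h in Set.Icc β (fun j => β j + H), Bt h ≤ ENNReal.ofReal (2 * C3 * H ^ n * Z) :=
      hBt2.trans (ENNReal.ofReal_le_ofReal e3)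
    have s4 : ENNReal.ofReal (C4 * M ^ n * U ^ (3 / 4 : ℝ)) * ENNReal.ofReal (H ^ n) ≤
        ENNReal.ofReal (C4 * Z * H ^ n) := by
      rw [← ENNReal.ofReal_mul (by positivity)]
      exact ENNReal.ofReal_le_ofReal (by gcongr)
    have s5 : ENNReal.ofReal (C5 * U ^ (3 / 4 : ℝ)) * ENNReal.ofReal (H ^ n) ≤
        ENNReal.ofReal (C5 * Z * H ^ n) := by
      rw [← ENNReal.ofReal_mul (by positivity)]
      exact ENNReal.ofReal_le_ofReal (by gcongr)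
    refine (add_le_add (add_le_add (add_le_add (add_le_add (add_le_add s1 s2) s6) s3) s4) s5).trans (le_of_eq ?_)
    rw [← ENNReal.ofReal_add (by positivity) (by positivity), ← ENNReal.ofReal_add (by positivity) (by positivity),
      ← ENNReal.ofReal_add (by positivity) (by positivity), ← ENNReal.ofReal_add (by positivity) (by positivity),
      ← ENNReal.ofReal_add (by positivity) (by positivity)]
    congr 1
    ring

end Pool.Agent.P07318t
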