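import Pool.Agent.Lib.P07318t.BlkL
import Pool.Agent.Lib.P07318o.BandExp
import Pool.Agent.Lib.P07318h.DualB

/-!
# Dual large sieve with weights, precise to powers of the logarithm

PROOF. Levels `2^j ≤ hgt ≤ 2·2^j` as in P07318h/DualB.lean; `blkL_dual` with `A = 2^j`, `kl U 2^j (L + 2^j) ≤ 9 U (1 + log U) min(1, U/2^j)` and `∑_j min(1, U/2^j) ≤ 3 (1 + log U)`.
-/

set_option autoImplicit false

namespace Pool.Agent.P07318t

open MeasureTheory Complex Pool.Agent.P07318s Pool.Agent.P07318f Pool.Agent.P07318h Pool.Agent.P07318o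

/-- weights of the dyadic levels -/
noncomputable def vj (U : ℝ) (j : ℕ) : ℝ := min 1 (U / 2 ^ j)

lemma vj_pos {U : ℝ} (hU : 0 < U) (j : ℕ) : 0 < vj U j := lt_min one_pos (by positivity)

theorem vj_sum {U : ℝ} (hU : 1 ≤ U) (n : ℕ) : ∑ j ∈ Finset.range n, vj U j ≤ 3 * (1 + Real.log U) := by
  have hU0 : 0 < U := by linarith
  set N : ℕ := Nat.log 2 ⌊U⌋₊ with hN
  have hf : ⌊U⌋₊ ≠ 0 := by
    have : 1 ≤ ⌊U⌋₊ := Nat.le_floor (by exact_mod_cast hU)
    omega
  have h1 : (2 : ℝ) ^ N ≤ U := by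
    have h2 : 2 ^ N ≤ ⌊U⌋₊ := Nat.pow_log_le_self 2 hf
    have h3 : ((2 ^ N : ℕ) : ℝ) ≤ (⌊U⌋₊ : ℝ) := by exact_mod_cast h2
    push_cast at h3
    exact h3.trans (Nat.floor_le hU0.le)
  have h4 : U < (2 : ℝ) ^ (N + 1) := by
    have h2 : ⌊U⌋₊ < 2 ^ (N + 1) := Nat.lt_pow_succ_log_self (by norm_num) _
    have h3 : U < ((2 ^ (N + 1) : ℕ) : ℝ) := (Nat.floor_lt hU0.le).1 h2
    push_cast at h3
    exact h3
  have h5 : (N : ℝ) ≤ 2 * Real.log U := by
    have h6 : (N : ℝ) * Real.log 2 ≤ Real.log U := by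
      rw [← Real.log_pow]
      exact Real.log_le_log (by positivity) h1
    have h7 : (1 : ℝ) / 2 ≤ Real.log 2 := by
      have := Real.log_two_gt_d9
      linarith
    have h8 : (0 : ℝ) ≤ N := Nat.cast_nonneg N
    nlinarith
  have h9 : ∑ j ∈ Finset.range n, vj U j ≤ ∑ j ∈ Finset.range ((N + 1) + n), vj U j := by
    refine Finset.sum_le_sum_of_subset_of_nonneg ?_ fun j _ _ => (vj_pos hU0 j).le
    intro j hj
    rw [Finset.mem_range] at hj ⊢
    omega
  refine h9.trans ?_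
  rw [Finset.sum_range_add]
  have h10 : ∑ j ∈ Finset.range (N + 1), vj U j ≤ (N : ℝ) + 1 := by
    calc ∑ j ∈ Finset.range (N + 1), vj U j ≤ ∑ j ∈ Finset.range (N + 1), (1 : ℝ) :=
          Finset.sum_le_sum fun j _ => min_le_left _ _
      _ = (N : ℝ) + 1 := by
          rw [Finset.sum_const, Finset.card_range, nsmul_eq_mul, mul_one]
          push_cast
          ring
  have h11 : ∑ i ∈ Finset.range n, vj U (N + 1 + i) ≤ 2 := by
    refine le_trans (Finset.sum_le_sum fun i _ => ?_) (sum_geometric_two_le n)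
    refine (min_le_right _ _).trans ?_
    rw [div_le_iff₀ (by positivity), pow_add, one_div, inv_pow]
    have h12 : (0 : ℝ) < 2 ^ i := by positivity
    calc U ≤ 2 ^ (N + 1) := h4.le
      _ = ((2 : ℝ) ^ i)⁻¹ * (2 ^ (N + 1) * 2 ^ i) := by
          field_simp
  have h13 : 0 ≤ Real.log U := Real.log_nonneg hU
  linarith

theorem vj_tsum {U : ℝ} (hU : 1 ≤ U) :
    ∑' j : ℕ, ENNReal.ofReal (vj U j) ≤ ENNReal.ofReal (3 * (1 + Real.log U)) := by
  have h0 : ∀ j, 0 ≤ vj U j := fun j => (vj_pos (by linarith) j).le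
  rw [ENNReal.tsum_eq_iSup_nat]
  refine iSup_le fun n => ?_
  rw [← ENNReal.ofReal_sum_of_nonneg fun j _ => h0 j]
  exact ENNReal.ofReal_le_ofReal (vj_sum hU n)

theorem level_bd {U L : ℝ} (hU : 1 ≤ U) (hL : 0 ≤ L) (hLU : L ≤ 8 * U) (j : ℕ) :
    kl U (2 ^ j) * (L + 2 ^ j) ≤ 9 * U * (1 + Real.log U) * vj U j := by
  have hU0 : 0 < U := by linarith
  have hl : 0 ≤ Real.log U := Real.log_nonneg hU
  have h2 : (1 : ℝ) ≤ 2 ^ j := one_le_pow₀ (by norm_num)
  have h20 : (0 : ℝ) < 2 ^ j := by positivity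
  rcases le_or_gt ((2 : ℝ) ^ j) U with h | h
  · have hv : vj U j = 1 := by
      unfold vj
      rw [min_eq_left ((one_le_div h20).2 h)]
    rw [hv, mul_one]
    have h3 := kl_le hU h2
    have h4 : L + 2 ^ j ≤ 9 * U := by linarith
    calc kl U (2 ^ j) * (L + 2 ^ j) ≤ (1 + Real.log U) * (9 * U) :=
          mul_le_mul h3 h4 (by linarith) (by linarith)
      _ = 9 * U * (1 + Real.log U) := by ring
  · have hv : vj U j = U / 2 ^ j := by
      unfold vj
      rw [min_eq_right ((div_le_one h20).2 h.le)]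
    have hk : kl U (2 ^ j) = (U / 2 ^ j) ^ 2 := by
      unfold kl
      rw [if_neg (not_le.2 h)]
    rw [hv, hk]
    have h4 : L + 2 ^ j ≤ 9 * 2 ^ j := by linarith
    have h5 : 0 ≤ U / 2 ^ j := by positivity
    calc (U / 2 ^ j) ^ 2 * (L + 2 ^ j) ≤ (U / 2 ^ j) ^ 2 * (9 * 2 ^ j) :=
          mul_le_mul_of_nonneg_left h4 (by positivity)
      _ = 9 * U * 1 * (U / 2 ^ j) := by field_simp
      _ ≤ 9 * U * (1 + Real.log U) * (U / 2 ^ j) := by
          gcongr
          linarith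

open DualBAux in
theorem dualL : ∃ C : ℝ, 0 < C ∧ ∀ (U Y H L a M : ℝ) (Φ : ℝ → ℂ),
    1 ≤ U → 1 ≤ Y → 0 ≤ H → 0 ≤ L → L ≤ 8 * U → Measurable Φ → (∀ t, t ∉ Set.Icc a (a + L) → Φ t = 0) →
    (∀ t, ‖Φ t‖ ≤ M) →
    ∑' q : Q, ENNReal.ofReal (if Y < hgt q.1 then kl U (hgt q.1) * (H * (hgt q.1)⁻¹ + 1) else 0) *
        ‖∫ t, Φ t * ex t q.1‖ₑ ^ 2 ≤
      ENNReal.ofReal (C * (U * (1 + Real.log U) ^ 2 * (H / Y + 1))) * ∫⁻ t, ‖Φ t‖ₑ ^ 2 := by
  obtain ⟨C0, hC0, hb⟩ := blkL_dual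
  refine ⟨C0 * 27, by positivity, fun U Y H L a M Φ hU hY hH hL hLU hm h0 hM => ?_⟩
  have hU0 : 0 < U := by linarith
  have hY0 : 0 < Y := by linarith
  have hl : 0 ≤ Real.log U := Real.log_nonneg hU
  have hHY : 0 ≤ H / Y := by positivity
  rw [ENNReal.tsum_eq_iSup_sum]
  refine iSup_le fun s => ?_
  set w : Q → ℝ := fun q =>
    if Y < hgt q.1 then kl U (hgt q.1) * (H * (hgt q.1)⁻¹ + 1) else 0 with hw
  set z : Q → ENNReal := fun q => ‖∫ t, Φ t * ex t q.1‖ₑ ^ 2 with hz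
  set I : ENNReal := ∫⁻ t, ‖Φ t‖ₑ ^ 2 with hI
  change ∑ q ∈ s, ENNReal.ofReal (w q) * z q ≤ _
  have hmap : ∀ q ∈ s, lv q ∈ Finset.range (s.sup lv + 1) := fun q hq =>
    Finset.mem_range.2 (Nat.lt_succ_of_le (Finset.le_sup hq))
  rw [← Finset.sum_fiberwise_of_maps_to hmap]
  have hlev : ∀ j : ℕ, ∑ q ∈ s.filter (fun q => lv q = j), ENNReal.ofReal (w q) * z q ≤
      ENNReal.ofReal (C0 * (9 * U * (1 + Real.log U) * vj U j) * (H / Y + 1)) * I := by
    intro j
    have h2j : (0 : ℝ) < 2 ^ j := by positivity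
    have hk : 0 ≤ kl U (2 ^ j) := kl_nonneg hU h2j
    have h1 : ∀ q ∈ s.filter (fun q => lv q = j), ENNReal.ofReal (w q) * z q ≤
        ENNReal.ofReal (kl U (2 ^ j) * (H / Y + 1)) * z q := by
      intro q hq
      have hqj : lv q = j := (Finset.mem_filter.1 hq).2
      have h2 := lv_le q
      rw [hqj] at h2
      refine mul_le_mul_left (ENNReal.ofReal_le_ofReal ?_) _
      rw [hw]
      simp only
      split_ifs with h3
      · have hh : 0 < hgt q.1 := hgt_pos q.1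
        refine mul_le_mul (kl_anti hU h2j h2) ?_ (by positivity) hk
        have h4 : (hgt q.1)⁻¹ ≤ Y⁻¹ := inv_anti₀ hY0 h3.le
        have h5 : H * (hgt q.1)⁻¹ ≤ H * Y⁻¹ := mul_le_mul_of_nonneg_left h4 hH
        rw [div_eq_mul_inv]
        linarith
      · exact mul_nonneg hk (by linarith)
    have h6 := hb (2 ^ j) L a M (s.filter (fun q => lv q = j)) Φ
      (one_le_pow₀ (by norm_num)) hL
      (fun q hq => by
        have h7 := le_lv q
        have h8 := lv_le q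
        rw [(Finset.mem_filter.1 hq).2] at h7 h8
        exact ⟨h8, h7⟩) hm h0 hM
    calc ∑ q ∈ s.filter (fun q => lv q = j), ENNReal.ofReal (w q) * z q
        ≤ ∑ q ∈ s.filter (fun q => lv q = j),
            ENNReal.ofReal (kl U (2 ^ j) * (H / Y + 1)) * z q := Finset.sum_le_sum h1
      _ = ENNReal.ofReal (kl U (2 ^ j) * (H / Y + 1)) *
            ∑ q ∈ s.filter (fun q => lv q = j), z q := by rw [Finset.mul_sum]
      _ ≤ ENNReal.ofReal (kl U (2 ^ j) * (H / Y + 1)) *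
            (ENNReal.ofReal (C0 * (L + 2 ^ j)) * I) := by
          gcongr
      _ = ENNReal.ofReal (kl U (2 ^ j) * (H / Y + 1) * (C0 * (L + 2 ^ j))) * I := by
          rw [ENNReal.ofReal_mul (mul_nonneg hk (by linarith)), mul_assoc]
      _ ≤ ENNReal.ofReal (C0 * (9 * U * (1 + Real.log U) * vj U j) * (H / Y + 1)) * I := by
          refine mul_le_mul_left (ENNReal.ofReal_le_ofReal ?_) _
          have h8 := level_bd hU hL hLU j
          calc kl U (2 ^ j) * (H / Y + 1) * (C0 * (L + 2 ^ j))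
              = C0 * (kl U (2 ^ j) * (L + 2 ^ j)) * (H / Y + 1) := by ring
            _ ≤ C0 * (9 * U * (1 + Real.log U) * vj U j) * (H / Y + 1) := by
                gcongr
  calc ∑ j ∈ Finset.range (s.sup lv + 1),
        ∑ q ∈ s.filter (fun q => lv q = j), ENNReal.ofReal (w q) * z q
      ≤ ∑ j ∈ Finset.range (s.sup lv + 1),
          ENNReal.ofReal (C0 * (9 * U * (1 + Real.log U) * vj U j) * (H / Y + 1)) * I :=
        Finset.sum_le_sum fun j _ => hlev j
    _ = ENNReal.ofReal (∑ j ∈ Finset.range (s.sup lv + 1),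
          C0 * (9 * U * (1 + Real.log U) * vj U j) * (H / Y + 1)) * I := by
        rw [ENNReal.ofReal_sum_of_nonneg (fun j _ => by
          have := vj_pos hU0 j
          positivity), Finset.sum_mul]
    _ ≤ ENNReal.ofReal (C0 * 27 * (U * (1 + Real.log U) ^ 2 * (H / Y + 1))) * I := by
        refine mul_le_mul_left (ENNReal.ofReal_le_ofReal ?_) _
        have h13 : ∑ j ∈ Finset.range (s.sup lv + 1),
            C0 * (9 * U * (1 + Real.log U) * vj U j) * (H / Y + 1) =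
            C0 * 9 * U * (1 + Real.log U) * (H / Y + 1) *
              ∑ j ∈ Finset.range (s.sup lv + 1), vj U j := by
          rw [Finset.mul_sum]
          refine Finset.sum_congr rfl fun j _ => ?_
          ring
        rw [h13]
        calc C0 * 9 * U * (1 + Real.log U) * (H / Y + 1) *
              ∑ j ∈ Finset.range (s.sup lv + 1), vj U j
            ≤ C0 * 9 * U * (1 + Real.log U) * (H / Y + 1) * (3 * (1 + Real.log U)) := by
              have := vj_sum hU (s.sup lv + 1)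
              gcongr
          _ = C0 * 27 * (U * (1 + Real.log U) ^ 2 * (H / Y + 1)) := by ring

end Pool.Agent.P07318t
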