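import Pool.Agent.Lib.P07318t.Defs
import Pool.Agent.Lib.P07318h.Fin

/-!
# Shifted moments of zeta, polylogarithmic boxes, error terms as powers of the side: the result

PROOF. `U = T/2`, `2U = T`. For `H ≤ U`: `box_h`; the constants are absorbed by `η/2` instead of `η` (`H^(η/2) ≥ log T ≥ C`, if the exponent of `log T` is at least `2/η`).
For `H ≥ T^((n-1)/(3n) + δ')`, `δ' = min δ (1/3)`: `short_boxes` of P07318h/Fin.lean and `E = ∅` (the shifts with `|α_i - α_j| < 2` for a pair `i ≠ j` are put into the exceptional set, for the others the main term is continuous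
and the integral may be split). The lower bound follows from the first line, the integrand is nonnegative.
-/

set_option autoImplicit false

namespace Pool.Agent.P07318t

open MeasureTheory Complex Pool.Agent.P07318s Pool.Agent.P07318f Pool.Agent.P07318h Pool.Agent.P07318o

/-- statement of `box_h` -/
def BoxHP (n : ℕ) : Prop := ∃ C₀ η C U₀ : ℝ, 0 < C₀ ∧ 0 < η ∧ 0 < C ∧ 1 ≤ U₀ ∧
    ∀ (U H α : ℝ) (β : Fin n → ℝ), U₀ ≤ U → lo U ^ C₀ ≤ H → H ≤ U →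
    2 * U ≤ α → α ≤ 5 * U → (∀ j, 2 * U ≤ β j) → (∀ j, β j ≤ 5 * U) →
    ∃ E : Set ℝ, MeasurableSet E ∧ E ⊆ Set.Icc 0 (2 * U) ∧ volume E ≤ ENNReal.ofReal (C * U * H ^ (-η)) ∧
    volume {h | h ∈ Set.Icc β (fun j => β j + H) ∧ ∃ V ∈ Set.Icc 0 (2 * U), C * U * H ^ (-η) <
      ‖(∫ t in Set.Icc 0 V \ E, ((∏ j, ‖riemannZeta (1 / 2 +
          ((t + (Fin.cons α h : Fin (n + 1) → ℝ) j : ℝ) : ℂ) * I)‖ ^ 2 : ℝ) : ℂ)) -
        ∫ t in (0:ℝ)..V, mainTerm (fun j => t + (Fin.cons α h : Fin (n + 1) → ℝ) j)‖} ≤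
      ENNReal.ofReal (C * H ^ n * H ^ (-η))

namespace FinHAux

/-- the product -/
noncomputable def pz {n : ℕ} (x : Fin n → ℝ) (t : ℝ) : ℝ :=
  ∏ j, ‖riemannZeta (1 / 2 + ((t + x j : ℝ) : ℂ) * I)‖ ^ 2

lemma pz_nonneg {n : ℕ} (x : Fin n → ℝ) (t : ℝ) : 0 ≤ pz x t := by
  unfold pz
  positivity

lemma pz_cont {n : ℕ} (x : Fin n → ℝ) : Continuous (pz x) := by
  have h : pz x = fun t => ∏ j, gz (t + x j) := by
    funext t
    unfold pz gz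
    rfl
  rw [h]
  exact continuous_finsetProd _ fun j _ => gz_cont.comp (by fun_prop)

lemma part_le {n : ℕ} (x : Fin n → ℝ) {V : ℝ} (hV : 0 ≤ V) (E : Set ℝ) :
    (∫ t in Set.Icc 0 V \ E, ((pz x t : ℝ) : ℂ)).re ≤ ∫ t in (0:ℝ)..V, pz x t := by
  have h1 : ∫ t in Set.Icc 0 V \ E, ((pz x t : ℝ) : ℂ) = ((∫ t in Set.Icc 0 V \ E, pz x t : ℝ) : ℂ) :=
    integral_ofReal
  rw [h1, Complex.ofReal_re, intervalIntegral.integral_of_le hV, ← integral_Icc_eq_integral_Ioc]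
  refine setIntegral_mono_set ((pz_cont x).continuousOn.integrableOn_Icc) ?_ ?_
  · exact Filter.Eventually.of_forall fun t => pz_nonneg x t
  · exact (Set.sdiff_subset).eventuallyLE

lemma re_lt {n : ℕ} (x : Fin n → ℝ) {V δ : ℝ} (hV : 0 ≤ V) (E : Set ℝ) (M : ℂ)
    (h : ∫ t in (0:ℝ)..V, pz x t < M.re - δ) :
    δ < ‖(∫ t in Set.Icc 0 V \ E, ((pz x t : ℝ) : ℂ)) - M‖ := by
  have h1 := part_le x hV E
  have h2 := Complex.abs_re_le_norm ((∫ t in Set.Icc 0 V \ E, ((pz x t : ℝ) : ℂ)) - M)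
  rw [Complex.sub_re] at h2
  have h3 := neg_abs_le ((∫ t in Set.Icc 0 V \ E, ((pz x t : ℝ) : ℂ)).re - M.re)
  linarith

/-- the exceptional shifts -/
def bad {n : ℕ} (T H η α₀ : ℝ) (β : Fin n → ℝ) (E : Set ℝ) : Set (Fin n → ℝ) :=
  {α | α ∈ Set.Icc β (fun j => β j + H) ∧ ∃ V ∈ Set.Icc 0 T, T * H ^ (-η) <
      ‖(∫ t in Set.Icc 0 V \ E, ((∏ j, ‖riemannZeta (1 / 2 +
          ((t + (Fin.cons α₀ α : Fin (n + 1) → ℝ) j : ℝ) : ℂ) * I)‖ ^ 2 : ℝ) : ℂ)) -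
        ∫ t in (0:ℝ)..V, mainTerm (fun j => t + (Fin.cons α₀ α : Fin (n + 1) → ℝ) j)‖}

theorem bad_mono {n : ℕ} {T H η η' α₀ : ℝ} {β : Fin n → ℝ} {E : Set ℝ} (hT : 0 ≤ T) (hH : 1 ≤ H) (h : η' ≤ η) :
    bad T H η' α₀ β E ⊆ bad T H η α₀ β E := by
  rintro α ⟨hα, V, hV, hlt⟩
  refine ⟨hα, V, hV, lt_of_le_of_lt (mul_le_mul_of_nonneg_left ?_ hT) hlt⟩
  exact Real.rpow_le_rpow_of_exponent_le hH (by linarith)

theorem small_case {n : ℕ} (hbox : BoxHP n) :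
    ∃ C η T₀ : ℝ, 0 < C ∧ 0 < η ∧ 3 ≤ T₀ ∧ ∀ T H : ℝ, T₀ ≤ T →
    Real.log T ^ C ≤ H → H ≤ T / 2 → ∀ α₀ : ℝ, T ≤ α₀ → α₀ ≤ 2 * T → ∀ β : Fin n → ℝ, (∀ j, T ≤ β j) → (∀ j, β j ≤ 2 * T) →
    ∃ E : Set ℝ, MeasurableSet E ∧ E ⊆ Set.Icc 0 T ∧ volume E ≤ ENNReal.ofReal (T * H ^ (-η)) ∧
    volume (bad T H η α₀ β E) ≤ ENNReal.ofReal (H ^ n * H ^ (-η)) := by
  obtain ⟨C₀, η, C, U₀, hC₀, hη, hC, hU₀, hb⟩ := hbox
  refine ⟨2 * C₀ + 2 / η, η / 2, Real.exp (C + 2) + 2 * U₀ + 8, by positivity, by positivity, ?_, ?_⟩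
  · have := Real.exp_pos (C + 2)
    linarith
  intro T H hT hTH hHT α₀ h0 h0' β hβ hβ'
  have hexp := Real.exp_pos (C + 2)
  have hT8 : 8 ≤ T := by linarith
  have hT0 : 0 < T := by linarith
  obtain ⟨L, hL⟩ : ∃ L : ℝ, L = Real.log T := ⟨_, rfl⟩
  have hLC : C + 2 ≤ L := by
    rw [hL, Real.le_log_iff_exp_le hT0]
    linarith
  have hL2 : 2 ≤ L := by linarith
  have hL1 : 1 ≤ L := by linarith
  have hL0 : 0 < L := by linarith
  obtain ⟨U, hU⟩ : ∃ U : ℝ, U = T / 2 := ⟨_, rfl⟩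
  have hUT : T = 2 * U := by rw [hU]; ring
  have hU1 : 1 ≤ U := by linarith
  have hU0 : 0 < U := by linarith
  have hlo2 : lo U ≤ L ^ 2 := by
    have h1 : lo U ≤ 1 + L := by
      unfold lo
      rw [hL]
      have := Real.log_le_log hU0 (by linarith : U ≤ T)
      linarith
    nlinarith
  have hlo0 : 0 < lo U := lo_pos hU1
  have hHC : lo U ^ C₀ ≤ H := by
    refine le_trans ?_ hTH
    rw [← hL]
    calc lo U ^ C₀ ≤ (L ^ 2) ^ C₀ := Real.rpow_le_rpow hlo0.le hlo2 hC₀.le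
      _ = L ^ (2 * C₀) := by rw [Real.rpow_mul hL0.le, Real.rpow_two]
      _ ≤ L ^ (2 * C₀ + 2 / η) := by
          refine Real.rpow_le_rpow_of_exponent_le hL1 ?_
          have : 0 ≤ 2 / η := by positivity
          linarith
  have hH0 : 0 < H := lt_of_lt_of_le (Real.rpow_pos_of_pos hlo0 _) hHC
  have hHL : L ≤ H ^ (η / 2) := by
    have h1 : (L ^ (2 / η)) ^ (η / 2) = L := by
      rw [← Real.rpow_mul hL0.le, div_mul_div_comm, mul_comm η 2, div_self (by positivity), Real.rpow_one]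
    have h2 : L ^ (2 / η) ≤ H := by
      refine le_trans (Real.rpow_le_rpow_of_exponent_le hL1 ?_) (by rw [← hL] at hTH; exact hTH)
      linarith
    calc L = (L ^ (2 / η)) ^ (η / 2) := h1.symm
      _ ≤ H ^ (η / 2) := Real.rpow_le_rpow (by positivity) h2 (by positivity)
  have hCH : C * H ^ (-η) ≤ H ^ (-(η / 2)) := by
    have h1 : H ^ (-(η / 2)) = H ^ (η / 2) * H ^ (-η) := by
      rw [← Real.rpow_add hH0]
      congr 1
      ring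
    rw [h1]
    exact mul_le_mul_of_nonneg_right (by linarith) (by positivity)
  have hHη : 0 < H ^ (-(η / 2)) := Real.rpow_pos_of_pos hH0 _
  obtain ⟨E, hE1, hE2, hE3, hE4⟩ := hb U H α₀ β (by linarith) hHC (by linarith) (by linarith)
    (by linarith) (fun j => by have := hβ j; linarith) (fun j => by have := hβ' j; linarith)
  have hthr : C * U * H ^ (-η) ≤ T * H ^ (-(η / 2)) := by
    calc C * U * H ^ (-η) = U * (C * H ^ (-η)) := by ring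
      _ ≤ U * H ^ (-(η / 2)) := mul_le_mul_of_nonneg_left hCH hU0.le
      _ ≤ T * H ^ (-(η / 2)) := mul_le_mul_of_nonneg_right (by linarith) hHη.le
  refine ⟨E, hE1, ?_, hE3.trans (ENNReal.ofReal_le_ofReal hthr), ?_⟩
  · rw [hUT]; exact hE2
  · refine le_trans (measure_mono ?_) (hE4.trans (ENNReal.ofReal_le_ofReal ?_))
    · rintro α ⟨hα, V, hV, hlt⟩
      refine ⟨hα, V, ?_, lt_of_le_of_lt hthr hlt⟩
      rw [← hUT]; exact hV
    · calc C * H ^ n * H ^ (-η) = H ^ n * (C * H ^ (-η)) := by ring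
        _ ≤ H ^ n * H ^ (-(η / 2)) := mul_le_mul_of_nonneg_left hCH (by positivity)

theorem split_eq {n : ℕ} (x : Fin (n + 1) → ℝ) {T V : ℝ} (hT : 0 < T) (hx : ∀ j, T ≤ x j)
    (hsep : ∀ i j, i ≠ j → 1 < |x i - x j|) (hV : 0 ≤ V) :
    (∫ t in Set.Icc 0 V \ (∅ : Set ℝ), ((∏ j, ‖riemannZeta (1 / 2 + ((t + x j : ℝ) : ℂ) * I)‖ ^ 2 : ℝ) : ℂ)) -
        ∫ t in (0:ℝ)..V, mainTerm (fun j => t + x j) =
      ∫ t in (0:ℝ)..V, (((∏ j, ‖riemannZeta (1 / 2 + ((t + x j : ℝ) : ℂ) * I)‖ ^ 2 : ℝ) : ℂ) -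
        mainTerm (fun j => t + x j)) := by
  have hcontM : ContinuousOn (fun t : ℝ => mainTerm (fun j => t + x j)) (Set.uIcc 0 V) := by
    refine (mainTerm_continuousOn (n + 1)).comp (f := fun t : ℝ => (fun j => t + x j))
      (by fun_prop) ?_
    intro t ht
    rw [Set.uIcc_of_le hV] at ht
    refine ⟨fun j => ?_, fun i j hij => ?_⟩
    · have := hx j
      have := ht.1
      simp only
      linarith
    · simp only
      rw [show (t + x i) - (t + x j) = x i - x j by ring]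
      exact hsep i j hij
  have hcontP : Continuous (fun t : ℝ => ((pz x t : ℝ) : ℂ)) :=
    Complex.continuous_ofReal.comp (pz_cont x)
  have h1 : ∫ t in (0:ℝ)..V, (((∏ j, ‖riemannZeta (1 / 2 + ((t + x j : ℝ) : ℂ) * I)‖ ^ 2 : ℝ) : ℂ) -
        mainTerm (fun j => t + x j)) =
      (∫ t in (0:ℝ)..V, ((pz x t : ℝ) : ℂ)) - ∫ t in (0:ℝ)..V, mainTerm (fun j => t + x j) :=
    intervalIntegral.integral_sub (hcontP.intervalIntegrable _ _) hcontM.intervalIntegrable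
  have h2 : ∫ t in Set.Icc 0 V, ((∏ j, ‖riemannZeta (1 / 2 + ((t + x j : ℝ) : ℂ) * I)‖ ^ 2 : ℝ) : ℂ) =
      ∫ t in (0:ℝ)..V, ((pz x t : ℝ) : ℂ) := by
    rw [intervalIntegral.integral_of_le hV, ← integral_Icc_eq_integral_Ioc]
    rfl
  rw [h1, Set.sdiff_empty, h2]

theorem large_case {n : ℕ} (hn : 1 ≤ n) {δ : ℝ} (hδ : 0 < δ) :
    ∃ η T₀ : ℝ, 0 < η ∧ 3 ≤ T₀ ∧ ∀ T H : ℝ, T₀ ≤ T →
    T ^ (((n : ℝ) - 1) / (3 * n) + δ) ≤ H → H ≤ T → ∀ α₀ : ℝ, T ≤ α₀ → α₀ ≤ 2 * T → ∀ β : Fin n → ℝ, (∀ j, T ≤ β j) → (∀ j, β j ≤ 2 * T) →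
    volume (bad T H η α₀ β ∅) ≤ ENNReal.ofReal (H ^ n * H ^ (-η)) := by
  obtain ⟨C, η, hC, hη, hs⟩ := short_boxes n hn δ hδ
  obtain ⟨K, hK⟩ : ∃ K : ℝ, K = C + 4 * ((n : ℝ) + 1) ^ 2 := ⟨_, rfl⟩
  have hK0 : 0 < K := by rw [hK]; positivity
  obtain ⟨θ, hθ⟩ : ∃ θ : ℝ, θ = min η δ := ⟨_, rfl⟩
  have hθ0 : 0 < θ := by rw [hθ]; exact lt_min hη hδ
  have hθ1 : θ ≤ η := by rw [hθ]; exact min_le_left _ _
  have hθ2 : θ ≤ δ := by rw [hθ]; exact min_le_right _ _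
  refine ⟨θ / 2, max (K ^ (2 / θ)) 8, by positivity, (by norm_num : (3 : ℝ) ≤ 8).trans (le_max_right _ _), ?_⟩
  intro T H hT hTH hHT α₀ h0 h0' β hβ hβ'
  have hT8 : 8 ≤ T := (le_max_right _ _).trans hT
  have hTK : K ^ (2 / θ) ≤ T := (le_max_left _ _).trans hT
  have hT1 : 1 ≤ T := by linarith
  have hT0 : 0 < T := by linarith
  have hHδ : T ^ δ ≤ H := by
    refine le_trans (Real.rpow_le_rpow_of_exponent_le hT1 ?_) hTH
    have h1 : 0 ≤ ((n : ℝ) - 1) / (3 * n) := th_nonneg hn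
    linarith
  have hH0 : 0 < H := lt_of_lt_of_le (Real.rpow_pos_of_pos hT0 _) hHδ
  have hKT : K * T ^ (-θ) ≤ H ^ (-(θ / 2)) := by
    have h1 : K ≤ T ^ (θ / 2) := by
      have h2 : (K ^ (2 / θ)) ^ (θ / 2) = K := by
        rw [← Real.rpow_mul hK0.le, div_mul_div_comm, mul_comm θ 2, div_self (by positivity), Real.rpow_one]
      calc K = (K ^ (2 / θ)) ^ (θ / 2) := h2.symm
        _ ≤ T ^ (θ / 2) := Real.rpow_le_rpow (by positivity) hTK (by positivity)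
    have h3 : T ^ (-(θ / 2)) = T ^ (θ / 2) * T ^ (-θ) := by
      rw [← Real.rpow_add hT0]
      congr 1
      ring
    have h4 : T ^ (-(θ / 2)) ≤ H ^ (-(θ / 2)) := Real.rpow_le_rpow_of_nonpos hH0 hHT (by linarith)
    refine le_trans ?_ h4
    rw [h3]
    exact mul_le_mul_of_nonneg_right h1 (by positivity)
  have hTθ : 0 < T ^ (-θ) := Real.rpow_pos_of_pos hT0 _
  have hs1 := hs T H hT1 hTH hHT α₀ h0 h0' β hβ hβ'
  have hs2 := sep_meas n H 2 α₀ β hH0.le (by norm_num)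
  set S1 : Set (Fin n → ℝ) := {h | h ∈ Set.Icc β (fun j => β j + H) ∧ ∃ i j : Fin (n + 1), i ≠ j ∧
      |(Fin.cons α₀ h : Fin (n + 1) → ℝ) i - (Fin.cons α₀ h : Fin (n + 1) → ℝ) j| < 2} with hS1
  set S0 : Set (Fin n → ℝ) := {α | α ∈ Set.Icc β (fun j => β j + H) ∧ ∃ V ∈ Set.Icc 0 T, C * T ^ (1 - η) <
      ‖∫ t in (0:ℝ)..V, (((∏ j, ‖riemannZeta (1 / 2 +
          ((t + (Fin.cons α₀ α : Fin (n + 1) → ℝ) j : ℝ) : ℂ) * I)‖ ^ 2 : ℝ) : ℂ) -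
        mainTerm (fun j => t + (Fin.cons α₀ α : Fin (n + 1) → ℝ) j))‖} with hS0
  have hTη : T ^ (-η) ≤ T ^ (-θ) := Real.rpow_le_rpow_of_exponent_le hT1 (by linarith)
  have hT1θ : H⁻¹ ≤ T ^ (-θ) := by
    have h1 : H⁻¹ ≤ (T ^ δ)⁻¹ := inv_anti₀ (Real.rpow_pos_of_pos hT0 _) hHδ
    rw [← Real.rpow_neg hT0.le] at h1
    exact h1.trans (Real.rpow_le_rpow_of_exponent_le hT1 (by linarith))
  have hCK : C ≤ K := by
    rw [hK]
    have : 0 ≤ 4 * ((n : ℝ) + 1) ^ 2 := by positivity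
    linarith
  have hthr : C * T ^ (1 - η) ≤ T * H ^ (-(θ / 2)) := by
    have h1 : T ^ (1 - η) = T * T ^ (-η) := by
      rw [sub_eq_add_neg, Real.rpow_add hT0, Real.rpow_one]
    rw [h1]
    calc C * (T * T ^ (-η)) = T * (C * T ^ (-η)) := by ring
      _ ≤ T * (K * T ^ (-θ)) := by gcongr
      _ ≤ T * H ^ (-(θ / 2)) := mul_le_mul_of_nonneg_left hKT hT0.le
  have hsub : bad T H (θ / 2) α₀ β ∅ ⊆ S0 ∪ S1 := by
    rintro α ⟨hα, V, hV, hlt⟩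
    by_contra hcon
    rw [Set.mem_union, not_or] at hcon
    obtain ⟨hc1, hc2⟩ := hcon
    apply hc1
    refine ⟨hα, V, hV, lt_of_le_of_lt hthr ?_⟩
    have hsep : ∀ i j : Fin (n + 1), i ≠ j → 1 <
        |(Fin.cons α₀ α : Fin (n + 1) → ℝ) i - (Fin.cons α₀ α : Fin (n + 1) → ℝ) j| := by
      intro i j hij
      by_contra hg
      push Not at hg
      exact hc2 ⟨hα, i, j, hij, by linarith⟩
    have hx : ∀ j, T ≤ (Fin.cons α₀ α : Fin (n + 1) → ℝ) j := by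
      intro j
      refine Fin.cases ?_ (fun i => ?_) j
      · rw [Fin.cons_zero]; exact h0
      · rw [Fin.cons_succ]; exact (hβ i).trans (hα.1 i)
    rw [split_eq (Fin.cons α₀ α : Fin (n + 1) → ℝ) hT0 hx hsep hV.1] at hlt
    exact hlt
  refine (measure_mono hsub).trans ((measure_union_le _ _).trans ((add_le_add hs1 hs2).trans ?_))
  rw [← ENNReal.ofReal_add (by positivity) (by positivity)]
  apply ENNReal.ofReal_le_ofReal
  have hHn : H ^ (n - 1) = H ^ n * H⁻¹ := by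
    have h1 : H ^ n = H ^ (n - 1) * H := by rw [← pow_succ, Nat.sub_add_cancel hn]
    rw [h1, mul_assoc, mul_inv_cancel₀ hH0.ne', mul_one]
  calc C * H ^ n * T ^ (-η) + ((n : ℝ) + 1) ^ 2 * (2 * 2) * H ^ (n - 1)
      ≤ C * H ^ n * T ^ (-θ) + ((n : ℝ) + 1) ^ 2 * (2 * 2) * (H ^ n * T ^ (-θ)) := by
        rw [hHn]
        gcongr
    _ = H ^ n * (K * T ^ (-θ)) := by rw [hK]; ring
    _ ≤ H ^ n * H ^ (-(θ / 2)) := mul_le_mul_of_nonneg_left hKT (by positivity)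

end FinHAux

open FinHAux in
theorem fin_of_h (n : ℕ) (hn : 1 ≤ n) (δ : ℝ) (hδ : 0 < δ) (hbox : BoxHP n) :
    ∃ C η T₀ : ℝ, 0 < C ∧ 0 < η ∧ 3 ≤ T₀ ∧ ∀ T H : ℝ, T₀ ≤ T →
    Real.log T ^ C ≤ H → H ≤ T → ∀ α₀ : ℝ, T ≤ α₀ → α₀ ≤ 2 * T → ∀ β : Fin n → ℝ, (∀ j, T ≤ β j) → (∀ j, β j ≤ 2 * T) →
    ∃ E : Set ℝ, MeasurableSet E ∧ E ⊆ Set.Icc 0 T ∧ volume E ≤ ENNReal.ofReal (T * H ^ (-η)) ∧
    (T ^ (((n : ℝ) - 1) / (3 * n) + δ) ≤ H → E = ∅) ∧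
    volume {α | α ∈ Set.Icc β (fun j => β j + H) ∧ ¬ ∀ V ∈ Set.Icc 0 T,
      ‖(∫ t in Set.Icc 0 V \ E, ((∏ j, ‖riemannZeta (1 / 2 +
          ((t + (Fin.cons α₀ α : Fin (n + 1) → ℝ) j : ℝ) : ℂ) * I)‖ ^ 2 : ℝ) : ℂ)) -
        ∫ t in (0:ℝ)..V, mainTerm (fun j => t + (Fin.cons α₀ α : Fin (n + 1) → ℝ) j)‖ ≤ T * H ^ (-η) ∧
      (∫ t in (0:ℝ)..V, mainTerm (fun j => t + (Fin.cons α₀ α : Fin (n + 1) → ℝ) j)).re - T * H ^ (-η) ≤
        ∫ t in (0:ℝ)..V, ∏ j, ‖riemannZeta (1 / 2 + ((t + (Fin.cons α₀ α : Fin (n + 1) → ℝ) j : ℝ) : ℂ) * I)‖ ^ 2} ≤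
      ENNReal.ofReal (H ^ n * H ^ (-η)) := by
  obtain ⟨C, η₀, T₀, hC, hη₀, hT₀, hsm⟩ := small_case hbox
  obtain ⟨δ', hδ'⟩ : ∃ δ' : ℝ, δ' = min δ (1 / 3) := ⟨_, rfl⟩
  have hd0 : 0 < δ' := by rw [hδ']; exact lt_min hδ (by norm_num)
  have hd1 : δ' ≤ δ := by rw [hδ']; exact min_le_left _ _
  have hd2 : δ' ≤ 1 / 3 := by rw [hδ']; exact min_le_right _ _
  obtain ⟨η₁, T₁, hη₁, hT₁, hla⟩ := large_case hn hd0
  obtain ⟨η, hη⟩ : ∃ η : ℝ, η = min η₀ η₁ := ⟨_, rfl⟩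
  have he0 : 0 < η := by rw [hη]; exact lt_min hη₀ hη₁
  have he1 : η ≤ η₀ := by rw [hη]; exact min_le_left _ _
  have he2 : η ≤ η₁ := by rw [hη]; exact min_le_right _ _
  refine ⟨C, η, max T₀ (max T₁ 8), hC, he0, hT₀.trans (le_max_left _ _), ?_⟩
  intro T H hT hTH hHT α₀ h0 h0' β hβ hβ'
  have hTT₀ : T₀ ≤ T := (le_max_left _ _).trans hT
  have hTT₁ : T₁ ≤ T := ((le_max_left _ _).trans (le_max_right _ _)).trans hT
  have hT8 : 8 ≤ T := ((le_max_right _ _).trans (le_max_right _ _)).trans hT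
  have hT1 : 1 ≤ T := by linarith
  have hT0 : 0 < T := by linarith
  have hH1 : 1 ≤ H := by
    refine le_trans ?_ hTH
    refine Real.one_le_rpow ?_ hC.le
    rw [Real.le_log_iff_exp_le hT0]
    have := Real.exp_one_lt_d9
    linarith
  have hmono : ∀ κ : ℝ, η ≤ κ → H ^ (-κ) ≤ H ^ (-η) := fun κ hκ =>
    Real.rpow_le_rpow_of_exponent_le hH1 (by linarith)
  have hmon1 : ∀ κ : ℝ, η ≤ κ → ENNReal.ofReal (H ^ n * H ^ (-κ)) ≤ ENNReal.ofReal (H ^ n * H ^ (-η)) :=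
    fun κ hκ => ENNReal.ofReal_le_ofReal (mul_le_mul_of_nonneg_left (hmono κ hκ) (by positivity))
  have hmon2 : ∀ κ : ℝ, η ≤ κ → ENNReal.ofReal (T * H ^ (-κ)) ≤ ENNReal.ofReal (T * H ^ (-η)) :=
    fun κ hκ => ENNReal.ofReal_le_ofReal (mul_le_mul_of_nonneg_left (hmono κ hκ) hT0.le)
  have hlow : ∀ E : Set ℝ, {α | α ∈ Set.Icc β (fun j => β j + H) ∧ ¬ ∀ V ∈ Set.Icc 0 T,
      ‖(∫ t in Set.Icc 0 V \ E, ((∏ j, ‖riemannZeta (1 / 2 +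
          ((t + (Fin.cons α₀ α : Fin (n + 1) → ℝ) j : ℝ) : ℂ) * I)‖ ^ 2 : ℝ) : ℂ)) -
        ∫ t in (0:ℝ)..V, mainTerm (fun j => t + (Fin.cons α₀ α : Fin (n + 1) → ℝ) j)‖ ≤ T * H ^ (-η) ∧
      (∫ t in (0:ℝ)..V, mainTerm (fun j => t + (Fin.cons α₀ α : Fin (n + 1) → ℝ) j)).re - T * H ^ (-η) ≤
        ∫ t in (0:ℝ)..V, ∏ j, ‖riemannZeta (1 / 2 + ((t + (Fin.cons α₀ α : Fin (n + 1) → ℝ) j : ℝ) : ℂ) * I)‖ ^ 2} ⊆
      bad T H η α₀ β E := by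
    rintro E α ⟨hα, hnot⟩
    push Not at hnot
    obtain ⟨V, hV, himp⟩ := hnot
    refine ⟨hα, V, hV, ?_⟩
    by_contra hcon
    push Not at hcon
    have h1 := himp hcon
    exact absurd hcon (not_le.2 (re_lt (Fin.cons α₀ α : Fin (n + 1) → ℝ) hV.1 E _ h1))
  have hex : ∃ E : Set ℝ, MeasurableSet E ∧ E ⊆ Set.Icc 0 T ∧ volume E ≤ ENNReal.ofReal (T * H ^ (-η)) ∧
      (T ^ (((n : ℝ) - 1) / (3 * n) + δ) ≤ H → E = ∅) ∧
      volume (bad T H η α₀ β E) ≤ ENNReal.ofReal (H ^ n * H ^ (-η)) := by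
    rcases le_or_gt (T ^ (((n : ℝ) - 1) / (3 * n) + δ')) H with hc | hc
    · refine ⟨∅, MeasurableSet.empty, Set.empty_subset _, by simp, fun _ => rfl, ?_⟩
      exact (measure_mono (bad_mono hT0.le hH1 he2)).trans
        ((hla T H hTT₁ hc hHT α₀ h0 h0' β hβ hβ').trans (hmon1 η₁ he2))
    · have h1 : ((n : ℝ) - 1) / (3 * n) ≤ 1 / 3 := FinAux.th_le hn
      have h2 : T ^ (((n : ℝ) - 1) / (3 * n) + δ') ≤ T ^ (2 / 3 : ℝ) :=
        Real.rpow_le_rpow_of_exponent_le hT1 (by linarith)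
      have h3 : (2 : ℝ) ≤ T ^ (1 / 3 : ℝ) := by
        have h4 : (8 : ℝ) ^ (1 / 3 : ℝ) = 2 := by
          rw [show (8 : ℝ) = 2 ^ (3 : ℝ) by norm_num, ← Real.rpow_mul (by norm_num)]
          norm_num
        rw [← h4]
        exact Real.rpow_le_rpow (by norm_num) hT8 (by norm_num)
      have h5 : T ^ (2 / 3 : ℝ) * T ^ (1 / 3 : ℝ) = T := by
        rw [← Real.rpow_add hT0]
        norm_num
      have h6 : 0 < T ^ (2 / 3 : ℝ) := by positivity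
      have h7 : H ≤ T / 2 := by nlinarith
      obtain ⟨E, hE1, hE2, hE3, hE4⟩ := hsm T H hTT₀ hTH h7 α₀ h0 h0' β hβ hβ'
      refine ⟨E, hE1, hE2, hE3.trans (hmon2 η₀ he1), fun h8 => ?_,
        (measure_mono (bad_mono hT0.le hH1 he1)).trans (hE4.trans (hmon1 η₀ he1))⟩
      exfalso
      have h9 : T ^ (((n : ℝ) - 1) / (3 * n) + δ') ≤ T ^ (((n : ℝ) - 1) / (3 * n) + δ) :=
        Real.rpow_le_rpow_of_exponent_le hT1 (by linarith)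
      linarith
  obtain ⟨E, hE1, hE2, hE3, hE5, hE4⟩ := hex
  exact ⟨E, hE1, hE2, hE3, hE5, (measure_mono (hlow E)).trans hE4⟩

end Pool.Agent.P07318t
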