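import Pool.Agent.Lib.P07318t.Defs
import Pool.Agent.Lib.P07318o.Norms
import Pool.Agent.Lib.P07318o.Win

/-!
# The fourth moment of the Riemann zeta function, precise to powers of the logarithm
-/

set_option autoImplicit false

namespace Pool.Agent.P07318t

open MeasureTheory Complex Pool.Agent.P07318s Pool.Agent.P07318f Pool.Agent.P07318h Pool.Agent.P07318o

theorem gz_four : ∃ C : ℝ, 0 < C ∧ ∀ U : ℝ, 1 ≤ U →
    ∫⁻ x in Set.Icc (2 * U) (15 * U), ENNReal.ofReal (gz x) ^ 2 ≤ ENNReal.ofReal (C * U * lo U ^ 5) := by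
  obtain ⟨Λ, _, hcut⟩ := rho_cut
  obtain ⟨C, hC, h⟩ := nm_gz
  refine ⟨C, hC, fun U hU => ?_⟩
  have hU0 : 0 < U := by linarith
  have h1 := h U Λ (rho U) hU (hcut U hU)
  refine le_trans ?_ h1
  unfold nm
  calc ∫⁻ x in Set.Icc (2 * U) (15 * U), ENNReal.ofReal (gz x) ^ 2
      ≤ ∫⁻ x in Set.Icc (2 * U) (15 * U), ‖ct (rho U) (fun y => (gz y : ℂ)) x‖ₑ ^ 2 := by
        refine setLIntegral_mono' measurableSet_Icc fun x hx => ?_
        unfold ct
        rw [rho_one hU0 hx.1 hx.2, Complex.ofReal_one, one_mul, ← ofReal_norm, Complex.norm_real,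
          Real.norm_of_nonneg (gz_nonneg x)]
    _ ≤ _ := setLIntegral_le_lintegral _ _

end Pool.Agent.P07318t
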