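import Pool.Agent.Lib.P07318t.ParL
import Pool.Agent.Lib.P07318o.DgLog
import Pool.Agent.Lib.P07318s.FinalV

/-!
# All windows `[0, V]` at once

PROOF. As `grid_v` of P07318h/GridV.lean: a grid of about `lo ^ (A + (n+1)²)` points, Chebyshev for the majorants of `par_l` at each grid point; between two grid points the product off `E` is nonnegative and `|Dg| ≤ C lo ^ ((n+1)²)` (`dg_log`).
-/

set_option autoImplicit false

namespace Pool.Agent.P07318t

open MeasureTheory Complex Pool.Agent.P07318s Pool.Agent.P07318f Pool.Agent.P07318h Pool.Agent.P07318o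

namespace GridLAux

lemma ivl_ofReal {F : ℝ → ℝ} {x y : ℝ} (h : IntervalIntegrable F volume x y) :
    IntervalIntegrable (fun t => (F t : ℂ)) volume x y := ⟨h.1.ofReal, h.2.ofReal⟩

/-- a window between two grid points -/
lemma between {F : ℝ → ℝ} {G : ℝ → ℂ} (hF : ∀ x y : ℝ, IntervalIntegrable F volume x y) (hF0 : ∀ t, 0 ≤ F t) {L M : ℝ}
    (hG : ContinuousOn G (Set.Icc 0 L)) (hGM : ∀ t ∈ Set.Icc 0 L, ‖G t‖ ≤ M) {a b V A : ℝ}
    (h0a : 0 ≤ a) (haV : a ≤ V) (hVb : V ≤ b) (hbL : b ≤ L)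
    (hDa : ‖∫ t in (0:ℝ)..a, ((F t : ℂ) - G t)‖ ≤ A)
    (hDb : ‖∫ t in (0:ℝ)..b, ((F t : ℂ) - G t)‖ ≤ A) :
    ‖∫ t in (0:ℝ)..V, ((F t : ℂ) - G t)‖ ≤ 3 * A + 2 * M * (b - a) := by
  have hab : a ≤ b := haV.trans hVb
  have hint : ∀ x y : ℝ, 0 ≤ x → x ≤ y → y ≤ L →
      IntervalIntegrable (fun t => ((F t : ℂ) - G t)) volume x y := by
    intro x y hx hxy hy
    refine (ivl_ofReal (hF x y)).sub ?_
    refine ContinuousOn.intervalIntegrable ?_
    rw [Set.uIcc_of_le hxy]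
    exact hG.mono fun t ht => ⟨hx.trans ht.1, ht.2.trans hy⟩
  have hintG : ∀ x y : ℝ, 0 ≤ x → x ≤ y → y ≤ L →
      IntervalIntegrable G volume x y := by
    intro x y hx hxy hy
    refine ContinuousOn.intervalIntegrable ?_
    rw [Set.uIcc_of_le hxy]
    exact hG.mono fun t ht => ⟨hx.trans ht.1, ht.2.trans hy⟩
  have hintF : ∀ x y : ℝ, IntervalIntegrable F volume x y := fun x y => hF x y
  have hintFc : ∀ x y : ℝ, IntervalIntegrable (fun t => (F t : ℂ)) volume x y := fun x y =>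
    ivl_ofReal (hF x y)
  have hGb : ∀ x y : ℝ, 0 ≤ x → x ≤ y → y ≤ L → ‖∫ t in x..y, G t‖ ≤ M * (y - x) := by
    intro x y hx hxy hy
    have h1 := intervalIntegral.norm_integral_le_of_norm_le_const (a := x) (b := y) (C := M)
      (f := G) (by
        intro t ht
        rw [Set.uIoc_of_le hxy] at ht
        exact hGM t ⟨hx.trans ht.1.le, ht.2.trans hy⟩)
    rwa [abs_of_nonneg (by linarith)] at h1
  have hM0 : 0 ≤ M := (norm_nonneg _).trans (hGM 0 ⟨le_rfl, h0a.trans (hab.trans hbL)⟩)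
  have hFe : ∀ x y : ℝ, ∫ t in x..y, (F t : ℂ) = ((∫ t in x..y, F t : ℝ) : ℂ) := fun x y =>
    intervalIntegral.integral_ofReal
  have hF1 : ∫ t in a..V, F t ≤ ∫ t in a..b, F t := by
    rw [← intervalIntegral.integral_add_adjacent_intervals (hintF a V) (hintF V b)]
    have := intervalIntegral.integral_nonneg hVb (f := F) (μ := volume) fun t _ => hF0 t
    linarith
  have hF2 : 0 ≤ ∫ t in a..V, F t := intervalIntegral.integral_nonneg haV fun t _ => hF0 t
  have hF3 : 0 ≤ ∫ t in a..b, F t := intervalIntegral.integral_nonneg hab fun t _ => hF0 t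
  have hF4 : ∫ t in a..b, F t ≤ 2 * A + M * (b - a) := by
    have e1 : ((∫ t in a..b, F t : ℝ) : ℂ) = (∫ t in (0:ℝ)..b, ((F t : ℂ) - G t)) -
        (∫ t in (0:ℝ)..a, ((F t : ℂ) - G t)) + ∫ t in a..b, G t := by
      rw [← intervalIntegral.integral_add_adjacent_intervals (hint 0 a le_rfl h0a (hab.trans hbL))
        (hint a b h0a hab hbL), intervalIntegral.integral_sub (hintFc a b) (hintG a b h0a hab hbL),
        hFe a b]
      ring
    have e2 : ∫ t in a..b, F t = ‖((∫ t in a..b, F t : ℝ) : ℂ)‖ := by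
      rw [Complex.norm_real, Real.norm_of_nonneg hF3]
    rw [e2, e1]
    refine (norm_add_le _ _).trans ?_
    have := norm_sub_le (∫ t in (0:ℝ)..b, ((F t : ℂ) - G t)) (∫ t in (0:ℝ)..a, ((F t : ℂ) - G t))
    have := hGb a b h0a hab hbL
    linarith
  have hVL : V ≤ L := hVb.trans hbL
  rw [← intervalIntegral.integral_add_adjacent_intervals (hint 0 a le_rfl h0a (haV.trans hVL))
    (hint a V h0a haV hVL), intervalIntegral.integral_sub (hintFc a V) (hintG a V h0a haV hVL),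
    hFe a V]
  refine (norm_add_le _ _).trans ?_
  have h5 := norm_sub_le (((∫ t in a..V, F t : ℝ) : ℂ)) (∫ t in a..V, G t)
  rw [Complex.norm_real, Real.norm_of_nonneg hF2] at h5
  have h6 := hGb a V h0a haV hVL
  have h7 : M * (V - a) ≤ M * (b - a) := by
    apply mul_le_mul_of_nonneg_left _ hM0
    linarith
  linarith


/-- the integral off `E` as an integral of a function supported off `E` -/
lemma diff_eq {F : ℝ → ℝ} {G : ℝ → ℂ} (hF : Continuous F) {E : Set ℝ} (hE : MeasurableSet E) {V : ℝ} (hV : 0 ≤ V)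
    (hG : IntervalIntegrable G volume 0 V) :
    (∫ t in (0:ℝ)..V, (((Eᶜ).indicator F t : ℝ) : ℂ) - G t) = (∫ t in Set.Icc 0 V \ E, (F t : ℂ)) - ∫ t in (0:ℝ)..V, G t := by
  have h1 : IntervalIntegrable (fun t => (((Eᶜ).indicator F t : ℝ) : ℂ)) volume 0 V := by
    refine ivl_ofReal ?_
    rw [intervalIntegrable_iff]
    exact ((intervalIntegrable_iff.1 (hF.intervalIntegrable 0 V))).indicator hE.compl
  rw [intervalIntegral.integral_sub h1 hG]
  congr 1
  rw [intervalIntegral.integral_of_le hV, ← integral_Icc_eq_integral_Ioc]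
  have h2 : (fun t => (((Eᶜ).indicator F t : ℝ) : ℂ)) = (Eᶜ).indicator (fun t => (F t : ℂ)) := by
    funext t
    by_cases ht : t ∈ Eᶜ
    · rw [Set.indicator_of_mem ht, Set.indicator_of_mem ht]
    · rw [Set.indicator_of_notMem ht, Set.indicator_of_notMem ht, Complex.ofReal_zero]
  rw [h2, setIntegral_indicator hE.compl]
  rfl

end GridLAux

open GridLAux

theorem grid_l (n : ℕ) (hn : 1 ≤ n) (A : ℝ) (hA : 0 < A) : ∃ C₀ C U₀ : ℝ, 0 < C₀ ∧ 0 < C ∧ 1 ≤ U₀ ∧
    ∀ (U H α : ℝ) (β : Fin n → ℝ), U₀ ≤ U → lo U ^ C₀ ≤ H → H ≤ U →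
    2 * U ≤ α → α ≤ 5 * U → (∀ j, 2 * U ≤ β j) → (∀ j, β j ≤ 5 * U) →
    ∃ E : Set ℝ, MeasurableSet E ∧ E ⊆ Set.Icc 0 (2 * U) ∧ volume E ≤ ENNReal.ofReal (C * U * lo U ^ (-A)) ∧
    volume {h | h ∈ Set.Icc β (fun j => β j + H) ∧ ∃ V ∈ Set.Icc 0 (2 * U), C * U * lo U ^ (-A) <
      ‖(∫ t in Set.Icc 0 V \ E, ((gz (t + α) * ∏ j, gz (t + h j) : ℝ) : ℂ)) - ∫ t in (0:ℝ)..V, Dg (sh α h t)‖} ≤
      ENNReal.ofReal (C * H ^ n * lo U ^ (-A)) := by
  obtain ⟨q, hq⟩ : ∃ q : ℕ, q = (n + 1) ^ 2 := ⟨_, rfl⟩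
  obtain ⟨C₂, C₀, U₀, hC₂, hC₀, hU₀, hpar⟩ := par_l n hn (3 * A + q) (by positivity)
  obtain ⟨C₁, hC₁, hdg⟩ := dg_log (n + 1)
  rw [← hq] at hdg
  refine ⟨C₂, 3 + 4 * C₁ * 2 ^ q + 3 * C₀, U₀, hC₂, by positivity, hU₀, ?_⟩
  intro U H α β hUU hUH hHU hα hα' hβ hβ'
  have hU : 1 ≤ U := hU₀.trans hUU
  have hU0 : 0 < U := by linarith
  have hlo := one_le_lo hU
  have hlo0 : 0 < lo U := by linarith
  have hH0 : 0 < H := lt_of_lt_of_le (Real.rpow_pos_of_pos hlo0 _) hUH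
  obtain ⟨E, hE, hE2, hEv, hcore⟩ := hpar U H α β hUU hUH hHU hα hα' hβ hβ'
  refine ⟨E, hE, hE2, ?_, ?_⟩
  · refine hEv.trans (ENNReal.ofReal_le_ofReal ?_)
    have h1 : lo U ^ (-(3 * A + q)) ≤ lo U ^ (-A) :=
      Real.rpow_le_rpow_of_exponent_le hlo (by have : (0:ℝ) ≤ q := Nat.cast_nonneg q; linarith)
    calc C₀ * U * lo U ^ (-(3 * A + q)) ≤ C₀ * U * lo U ^ (-A) := by gcongr
      _ ≤ (3 + 4 * C₁ * 2 ^ q + 3 * C₀) * U * lo U ^ (-A) := by
          gcongr
          have : 0 ≤ 4 * C₁ * 2 ^ q := by positivity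
          linarith
  obtain ⟨X, hX⟩ : ∃ X : ℝ, X = lo U ^ (A + q) := ⟨_, rfl⟩
  have hX1 : 1 ≤ X := by
    rw [hX]
    exact Real.one_le_rpow hlo (by positivity)
  set N : ℕ := ⌈X⌉₊ with hN_def
  have hN1 : X ≤ N := Nat.le_ceil _
  have hN2 : (N : ℝ) + 1 ≤ 3 * X := by
    have := (Nat.ceil_lt_add_one (show 0 ≤ X by positivity)).le
    rw [← hN_def] at this
    linarith
  have hN0 : (0 : ℝ) < N := lt_of_lt_of_le (by positivity) hN1
  set v : ℕ → ℝ := fun i => 2 * U * i / N with hv_def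
  have hv0 : ∀ i, 0 ≤ v i := fun i => by
    simp only [hv_def]; positivity
  have hvN : ∀ i, i ≤ N → v i ≤ 2 * U := fun i hi => by
    simp only [hv_def]
    rw [div_le_iff₀ hN0]
    have : (i : ℝ) ≤ N := by exact_mod_cast hi
    nlinarith
  have hvs : ∀ i, v (i + 1) - v i = 2 * U / N := fun i => by
    simp only [hv_def]
    push_cast
    field_simp
    ring
  have hvc : ∀ i : ℕ, ∃ B : (Fin n → ℝ) → ENNReal, i ≤ N → (Measurable B ∧
      (∀ h ∈ Set.Icc β (fun j => β j + H),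
        ‖(∫ t in Set.Icc 0 (v i) \ E, ((gz (t + α) * ∏ j, gz (t + h j) : ℝ) : ℂ)) - ∫ t in (0:ℝ)..(v i), Dg (sh α h t)‖ₑ ≤ B h) ∧
      ∫⁻ h in Set.Icc β (fun j => β j + H), B h ≤ ENNReal.ofReal (C₀ * H ^ n * (U * lo U ^ (-(3 * A + q))))) := by
    intro i
    by_cases hi : i ≤ N
    · obtain ⟨B, hB⟩ := hcore (v i) (hv0 i) (hvN i hi)
      exact ⟨B, fun _ => hB⟩
    · exact ⟨0, fun h => absurd h hi⟩
  choose B hB using hvc
  set S : Set (Fin n → ℝ) := Set.Icc β (fun j => β j + H) with hS_def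
  have hSm : MeasurableSet S := measurableSet_Icc
  obtain ⟨R, hR⟩ : ∃ R : ℝ, R = U * lo U ^ (-A) := ⟨_, rfl⟩
  have hR0 : 0 < R := by rw [hR]; exact mul_pos hU0 (Real.rpow_pos_of_pos hlo0 _)
  -- the estimate for a good shift vector
  have hpt : ∀ h ∈ S, (∀ i ≤ N, ¬ ENNReal.ofReal R < B i h) → ∀ V ∈ Set.Icc 0 (2 * U),
      ‖(∫ t in Set.Icc 0 V \ E, ((gz (t + α) * ∏ j, gz (t + h j) : ℝ) : ℂ)) - ∫ t in (0:ℝ)..V, Dg (sh α h t)‖ ≤
        (3 + 4 * C₁ * 2 ^ q + 3 * C₀) * R := by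
    intro h hh hgood V hV
    have hh1 : ∀ j, 2 * U ≤ h j := fun j => (hβ j).trans (hh.1 j)
    have hh2 : ∀ j, h j ≤ 6 * U := fun j => by
      have h1 : h j ≤ β j + H := hh.2 j
      have h2 := hβ' j
      linarith
    have hmem : ∀ t ∈ Set.Icc 0 (2 * U), (∀ j, 2 * U ≤ sh α h t j) ∧ ∀ j, sh α h t j ≤ 16 * (2 * U) := by
      intro t ht
      constructor
      · intro j
        refine Fin.cases ?_ (fun i => ?_) j
        · rw [sh_zero]; linarith [ht.1]
        · rw [sh_succ]; linarith [ht.1, hh1 i]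
      · intro j
        refine Fin.cases ?_ (fun i => ?_) j
        · rw [sh_zero]; linarith [ht.2]
        · rw [sh_succ]; linarith [ht.2, hh2 i]
    have hFc : Continuous fun t : ℝ => gz (t + α) * ∏ j, gz (t + h j) := by
      refine (gz_cont.comp (by fun_prop)).mul ?_
      exact continuous_finsetProd _ fun j _ => gz_cont.comp (by fun_prop)
    have hF0 : ∀ t : ℝ, 0 ≤ gz (t + α) * ∏ j, gz (t + h j) := fun t =>
      mul_nonneg (gz_nonneg _) (Finset.prod_nonneg fun j _ => gz_nonneg _)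
    have hGc : ContinuousOn (fun t : ℝ => Dg (sh α h t)) (Set.Icc 0 (2 * U)) := by
      refine (Dg_continuousOn (n + 1)).comp (f := fun t : ℝ => sh α h t) ?_ ?_
      · unfold sh
        fun_prop
      · intro t ht j
        have := (hmem t ht).1 j
        linarith
    have hGi : ∀ W : ℝ, 0 ≤ W → W ≤ 2 * U → IntervalIntegrable (fun t : ℝ => Dg (sh α h t)) volume 0 W := by
      intro W hW hW2
      refine ContinuousOn.intervalIntegrable ?_
      rw [Set.uIcc_of_le hW]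
      exact hGc.mono (Set.Icc_subset_Icc_right hW2)
    have hlo2 : 1 + Real.log (2 * U) ≤ 2 * lo U := by
      rw [Real.log_mul (by norm_num) hU0.ne']
      have := Real.log_two_lt_d9
      unfold lo at hlo ⊢
      linarith
    have hlo3 : 0 ≤ 1 + Real.log (2 * U) := by
      have := Real.log_nonneg (show (1:ℝ) ≤ 2 * U by linarith)
      linarith
    have hGM : ∀ t ∈ Set.Icc 0 (2 * U), ‖Dg (sh α h t)‖ ≤ C₁ * (2 * lo U) ^ q := fun t ht =>
      (hdg (2 * U) (sh α h t) (by linarith) (hmem t ht).1 (hmem t ht).2).trans (by gcongr)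
    have hFi : ∀ x y : ℝ, IntervalIntegrable ((Eᶜ).indicator fun t : ℝ => gz (t + α) * ∏ j, gz (t + h j)) volume x y := by
      intro x y
      rw [intervalIntegrable_iff]
      exact ((intervalIntegrable_iff.1 (hFc.intervalIntegrable x y))).indicator hE.compl
    have hFn : ∀ t : ℝ, 0 ≤ (Eᶜ).indicator (fun t : ℝ => gz (t + α) * ∏ j, gz (t + h j)) t := fun t =>
      Set.indicator_nonneg (fun t _ => hF0 t) t
    have hde : ∀ W : ℝ, 0 ≤ W → W ≤ 2 * U →
        (∫ t in (0:ℝ)..W, (((Eᶜ).indicator (fun t : ℝ => gz (t + α) * ∏ j, gz (t + h j)) t : ℝ) : ℂ) - Dg (sh α h t)) =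
        (∫ t in Set.Icc 0 W \ E, ((gz (t + α) * ∏ j, gz (t + h j) : ℝ) : ℂ)) - ∫ t in (0:ℝ)..W, Dg (sh α h t) :=
      fun W hW hW2 => diff_eq hFc hE hW (hGi W hW hW2)
    have hD : ∀ i ≤ N,
        ‖∫ t in (0:ℝ)..(v i), (((Eᶜ).indicator (fun t : ℝ => gz (t + α) * ∏ j, gz (t + h j)) t : ℝ) : ℂ) - Dg (sh α h t)‖ ≤ R := by
      intro i hi
      rw [hde (v i) (hv0 i) (hvN i hi)]
      exact FVaux.norm_le_of hR0.le ((hB i hi).2.1 h hh) (hgood i hi)
    rw [← hde V hV.1 hV.2]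
    set i : ℕ := ⌊V * N / (2 * U)⌋₊ with hi_def
    have hq0 : 0 ≤ V * N / (2 * U) := by
      have := hV.1
      positivity
    have hi1 : (i : ℝ) ≤ V * N / (2 * U) := Nat.floor_le hq0
    have hi2 : V * N / (2 * U) < i + 1 := Nat.lt_floor_add_one _
    have hvi : v i ≤ V := by
      simp only [hv_def]
      rw [div_le_iff₀ hN0]
      rw [le_div_iff₀ (by positivity)] at hi1
      linarith
    have hvi2 : V ≤ v (i + 1) := by
      simp only [hv_def]
      rw [le_div_iff₀ hN0]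
      rw [div_lt_iff₀ (by positivity)] at hi2
      push_cast
      linarith
    by_cases hiN : i + 1 ≤ N
    · have h1 := between hFi hFn hGc hGM (hv0 i) hvi hvi2 (hvN (i + 1) hiN) (hD i (by omega))
        (hD (i + 1) hiN)
      refine h1.trans ?_
      rw [hvs i]
      have hXr : lo U ^ q * (U / X) = R := by
        rw [hX, hR, Real.rpow_add hlo0, Real.rpow_natCast, Real.rpow_neg hlo0.le]
        field_simp
      have h3 : 2 * (C₁ * (2 * lo U) ^ q) * (2 * U / N) ≤ 4 * C₁ * 2 ^ q * R := by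
        calc 2 * (C₁ * (2 * lo U) ^ q) * (2 * U / N) ≤
            2 * (C₁ * (2 * lo U) ^ q) * (2 * U / X) := by gcongr
          _ = 4 * C₁ * 2 ^ q * (lo U ^ q * (U / X)) := by
              rw [mul_pow]
              ring
          _ = _ := by rw [hXr]
      have h4 : 0 ≤ 3 * C₀ * R := by positivity
      linarith
    · have hVN : V = v N := by
        apply le_antisymm
        · have : v N = 2 * U := by
            simp only [hv_def]
            field_simp
          rw [this]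
          exact hV.2
        · refine le_trans ?_ hvi
          simp only [hv_def]
          have : (N : ℝ) ≤ i := by exact_mod_cast (by omega : N ≤ i)
          gcongr
      rw [hVN]
      refine (hD N le_rfl).trans ?_
      have h4 : 0 ≤ (2 + 4 * C₁ * 2 ^ q + 3 * C₀) * R := by positivity
      linarith
  -- the measure
  have hRe : ∀ D : ℝ, D * U * lo U ^ (-A) = D * R := fun D => by rw [hR]; ring
  have hsub : {h | h ∈ S ∧ ∃ V ∈ Set.Icc 0 (2 * U), (3 + 4 * C₁ * 2 ^ q + 3 * C₀) * U * lo U ^ (-A) <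
      ‖(∫ t in Set.Icc 0 V \ E, ((gz (t + α) * ∏ j, gz (t + h j) : ℝ) : ℂ)) - ∫ t in (0:ℝ)..V, Dg (sh α h t)‖} ⊆
      ⋃ i ∈ Finset.range (N + 1), ({h | ENNReal.ofReal R < B i h} ∩ S) := by
    rintro h ⟨hh, V, hV, hVlt⟩
    rw [hRe] at hVlt
    by_contra hcon
    simp only [Set.mem_iUnion, not_exists] at hcon
    refine absurd (hpt h hh ?_ V hV) (not_le.2 hVlt)
    intro i hi hlt
    exact hcon i (Finset.mem_range.2 (by omega)) ⟨hlt, hh⟩
  have hone : ∀ i ∈ Finset.range (N + 1),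
      volume ({h | ENNReal.ofReal R < B i h} ∩ S) ≤
        ENNReal.ofReal (C₀ * H ^ n * (U * lo U ^ (-(3 * A + q))) / R) := by
    intro i hi
    have hi' : i ≤ N := by
      have := Finset.mem_range.1 hi
      omega
    rw [← Measure.restrict_apply' hSm]
    exact FVaux.markovE1 (hB i hi').1 hR0 (hB i hi').2.2
  refine (measure_mono hsub).trans ?_
  refine (measure_biUnion_finset_le _ _).trans ?_
  refine (Finset.sum_le_sum hone).trans ?_
  rw [Finset.sum_const, Finset.card_range, nsmul_eq_mul]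
  have hcast : ((N + 1 : ℕ) : ENNReal) = ENNReal.ofReal ((N : ℝ) + 1) := by
    rw [← ENNReal.ofReal_natCast]
    congr 1
    push_cast
    ring
  rw [hcast, ← ENNReal.ofReal_mul (by positivity)]
  apply ENNReal.ofReal_le_ofReal
  have e1 : C₀ * H ^ n * (U * lo U ^ (-(3 * A + q))) / R = C₀ * H ^ n * lo U ^ (-(2 * A + q)) := by
    rw [hR]
    have e2 : lo U ^ (-(3 * A + q)) = lo U ^ (-(2 * A + q)) * lo U ^ (-A) := by
      rw [← Real.rpow_add hlo0]
      congr 1
      ring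
    have e3 : lo U ^ (-A) ≠ 0 := (Real.rpow_pos_of_pos hlo0 _).ne'
    rw [e2]
    field_simp
  rw [e1]
  calc ((N : ℝ) + 1) * (C₀ * H ^ n * lo U ^ (-(2 * A + q))) ≤ (3 * X) * (C₀ * H ^ n * lo U ^ (-(2 * A + q))) := by
        gcongr
    _ = 3 * C₀ * H ^ n * (lo U ^ (A + q) * lo U ^ (-(2 * A + q))) := by
        rw [hX]
        ring
    _ = 3 * C₀ * H ^ n * lo U ^ (-A) := by
        rw [← Real.rpow_add hlo0]
        congr 2
        ring
    _ ≤ (3 + 4 * C₁ * 2 ^ q + 3 * C₀) * H ^ n * lo U ^ (-A) := by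
        gcongr
        have : 0 ≤ 4 * C₁ * 2 ^ q := by positivity
        linarith

end Pool.Agent.P07318t
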