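import Pool.Agent.Lib.P07318t.Defs

/-!
# Powers of the logarithm against powers
-/

set_option autoImplicit false

namespace Pool.Agent.P07318t

theorem lo_growth (m : ℕ) (ε : ℝ) (hε : 0 < ε) : ∃ U₀ : ℝ, 1 ≤ U₀ ∧ ∀ U : ℝ, U₀ ≤ U → lo U ^ m ≤ U ^ ε := by
  obtain ⟨s, hs⟩ : ∃ s : ℝ, s = ε / (2 * (m + 1)) := ⟨_, rfl⟩
  have hm : (0:ℝ) ≤ m := Nat.cast_nonneg m
  have hs0 : 0 < s := by rw [hs]; positivity
  have hsm : s * m ≤ ε / 2 := by
    rw [hs, div_mul_eq_mul_div, div_le_div_iff₀ (by positivity) (by norm_num)]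
    nlinarith
  obtain ⟨D, hD⟩ : ∃ D : ℝ, D = (1 + 1 / s) ^ m := ⟨_, rfl⟩
  have hD1 : 1 ≤ D := by
    rw [hD]
    refine one_le_pow₀ ?_
    have : 0 < 1 / s := by positivity
    linarith
  refine ⟨D ^ (2 / ε), Real.one_le_rpow hD1 (by positivity), fun U hU => ?_⟩
  have hU1 : 1 ≤ U := le_trans (Real.one_le_rpow hD1 (by positivity)) hU
  have hU0 : 0 < U := by linarith
  have h1 : D ≤ U ^ (ε / 2) := by
    calc D = (D ^ (2 / ε)) ^ (ε / 2) := by
          rw [← Real.rpow_mul (by linarith)]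
          have : 2 / ε * (ε / 2) = 1 := by field_simp
          rw [this, Real.rpow_one]
      _ ≤ U ^ (ε / 2) := Real.rpow_le_rpow (by positivity) hU (by positivity)
  have h2 : lo U ≤ (1 + 1 / s) * U ^ s := by
    have h3 := Real.log_le_rpow_div hU0.le hs0
    have h4 : 1 ≤ U ^ s := Real.one_le_rpow hU1 hs0.le
    unfold lo
    calc 1 + Real.log U ≤ U ^ s + U ^ s / s := by linarith
      _ = (1 + 1 / s) * U ^ s := by ring
  have h5 : 0 ≤ lo U := (lo_pos hU1).le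
  calc lo U ^ m ≤ ((1 + 1 / s) * U ^ s) ^ m := pow_le_pow_left₀ h5 h2 m
    _ = D * U ^ (s * m) := by
        rw [mul_pow, ← hD, ← Real.rpow_natCast (U ^ s) m, ← Real.rpow_mul hU0.le]
    _ ≤ U ^ (ε / 2) * U ^ (ε / 2) := by
        refine mul_le_mul h1 (Real.rpow_le_rpow_of_exponent_le hU1 hsm) (by positivity) (by positivity)
    _ = U ^ ε := by
        rw [← Real.rpow_add hU0]
        congr 1
        ring

/-- integer powers with a larger exponent -/
lemma lo_neg {U A : ℝ} (hU : 1 ≤ U) {N : ℕ} (hN : A ≤ N) : (lo U ^ N)⁻¹ ≤ lo U ^ (-A) := by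
  rw [← Real.rpow_natCast, ← Real.rpow_neg (lo_pos hU).le]
  exact Real.rpow_le_rpow_of_exponent_le (one_le_lo hU) (by linarith)

end Pool.Agent.P07318t
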