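import Pool.Agent.Lib.P07318t.WlsL
import Pool.Agent.Lib.P07318h.WinBig
import Pool.Agent.Lib.P07318o.FourW
import Pool.Agent.Lib.P07318o.FwWin

/-!
# The large heights against a bounded function, in mean square over a short window of shifts, precise to powers of the logarithm

PROOF. As `win_big` of P07318h/WinBig.lean, with the separation of the variables by `four_g` and `exists_win` (P07318o), the weighted large sieve `wlsL` and the dual inequality `dualL`.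
-/

set_option autoImplicit false

namespace Pool.Agent.P07318t

open MeasureTheory Complex Pool.Agent.P07318s Pool.Agent.P07318f Pool.Agent.P07318h Pool.Agent.P07318o

/-- separation of the variables in the coefficients -/
theorem sepL : ∃ C : ℝ, 0 < C ∧ ∀ U : ℝ, 1 ≤ U → ∃ ω : ℤ → ℝ → ℂ,
    (∀ (k : ℤ) (h : ℝ), 1 ≤ h → ‖ω k h‖ ≤ C * LongPartAux.pk k * kl U h) ∧
    ∀ h : ℝ, 1 ≤ h → ∀ y : ℝ, U ≤ y → y ≤ 16 * U →
      HasSum (fun k : ℤ => ω k h * LongPartAux.ek U k y) (Om h y : ℂ) := by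
  obtain ⟨Λ, hΛ, hw⟩ := exists_win
  obtain ⟨C, hC, hf⟩ := four_g
  refine ⟨C * Λ, by positivity, fun U hU => ?_⟩
  obtain ⟨c, hc, hc1⟩ := hw U hU
  obtain ⟨ω, h1, h2⟩ := hf U Λ 0 c hU hΛ le_rfl zero_le_one hc
  refine ⟨ω, fun k h hh => h1 k h hh, fun h hh y hy1 hy2 => ?_⟩
  have h3 := h2 h hh y (by linarith) (by linarith)
  have e : ((c y * Om h y * Real.exp (0 * (y / U) ^ 2) : ℝ) : ℂ) = (Om h y : ℂ) := by
    rw [hc1 y hy1 hy2, zero_mul, Real.exp_zero, one_mul, mul_one]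
  rw [e] at h3
  exact h3

theorem win_bigL : ∃ C : ℝ, 0 < C ∧ ∀ (U Y H b V M : ℝ) (Φ : ℝ → ℂ),
    1 ≤ U → 1 ≤ Y → 0 ≤ H → H ≤ U → 2 * U ≤ b → b ≤ 5 * U → 0 ≤ V → V ≤ 2 * U → Measurable Φ →
    (∀ t, t ∉ Set.Icc 0 V → Φ t = 0) → (∀ t, ‖Φ t‖ ≤ M) →
    ∫⁻ h in Set.Icc b (b + H), ‖∫ t, Φ t * fB Y (t + h)‖ₑ ^ 2 ≤
      ENNReal.ofReal (C * (U * (1 + Real.log U) ^ 4 * (H / Y + 1))) * ∫⁻ t, ‖Φ t‖ₑ ^ 2 := by
  obtain ⟨Cω, hCω, hsep⟩ := sepL
  obtain ⟨Cl, hCl, hls⟩ := wlsL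
  obtain ⟨Cd, hCd, hdl⟩ := dualL
  set P : ℝ := ∑' k, LongPartAux.pk k with hP
  have hP0 : 0 ≤ P := tsum_nonneg fun k => (LongPartAux.pk_pos k).le
  refine ⟨P * (P * (Cω ^ 2 * (Cl * Cd))) + 1, by positivity, ?_⟩
  intro U Y H b V M Φ hU hY hH hHU hb1 hb2 hV0 hV hΦm hΦ0 hΦM
  have hU0 : 0 < U := by linarith
  have hY0 : 0 < Y := by linarith
  have hl : 0 ≤ Real.log U := Real.log_nonneg hU
  have hΦi : Integrable Φ := WinBigAux.integrable_of_bdd hΦm hΦ0 hΦM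
  have hHY : 0 ≤ H / Y + 1 := by positivity
  have hrange : ∀ t, Φ t ≠ 0 → 0 ≤ t ∧ t ≤ V := by
    intro t ht
    by_contra h
    exact ht (hΦ0 t h)
  set I : ENNReal := ∫⁻ t, ‖Φ t‖ₑ ^ 2 with hI
  have hdual : ∀ k : ℤ, ∑' q : Q, ENNReal.ofReal
      (if Y < hgt q.1 then kl U (hgt q.1) * (H * (hgt q.1)⁻¹ + 1) else 0) *
        ‖LongPartAux.Gt U Φ k q‖ₑ ^ 2 ≤
      ENNReal.ofReal (Cd * (U * (1 + Real.log U) ^ 2 * (H / Y + 1))) * I := by
    intro k
    have h1 := hdl U Y H V 0 M (fun t => Φ t * LongPartAux.ek U k t) hU hY hH hV0 (by linarith)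
      (hΦm.mul (LongPartAux.ek_cont U k).measurable)
      (fun t ht => by
        rw [zero_add] at ht
        simp only [hΦ0 t ht, zero_mul])
      (fun t => by
        rw [norm_mul, LongPartAux.norm_ek, mul_one]
        exact hΦM t)
    have h2 : ∀ q : Q, LongPartAux.Gt U Φ k q = ∫ t, Φ t * LongPartAux.ek U k t * ex t q.1 := by
      intro q
      unfold LongPartAux.Gt
      refine integral_congr_ae (Filter.Eventually.of_forall fun t => ?_)
      simp only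
      ring
    simp only [h2]
    refine h1.trans (le_of_eq ?_)
    have h3 : ∫⁻ t, ‖Φ t * LongPartAux.ek U k t‖ₑ ^ 2 = ∫⁻ t, ‖Φ t‖ₑ ^ 2 := by
      refine lintegral_congr fun t => ?_
      have h6 : ‖LongPartAux.ek U k t‖ₑ = 1 := by
        rw [← ofReal_norm, LongPartAux.norm_ek, ENNReal.ofReal_one]
      rw [enorm_mul, h6, mul_one]
    rw [h3]
  set W : ENNReal := ENNReal.ofReal (Cd * (U * (1 + Real.log U) ^ 2 * (H / Y + 1))) * I with hW
  obtain ⟨ω, hω0, hω2⟩ := hsep U hU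
  have hω1 : ∀ (k : ℤ) (h : ℝ), 1 ≤ h → ‖ω k h‖ ≤ (4 * Cω) / (1 + (k : ℝ) ^ 2) * kap (1 / 4) U h := by
    intro k h hh
    refine (hω0 k h hh).trans ?_
    have h1 := kl_kap hU (show 0 < h by linarith)
    have h2 : 0 ≤ Cω * LongPartAux.pk k := mul_nonneg hCω.le (LongPartAux.pk_pos k).le
    calc Cω * LongPartAux.pk k * kl U h ≤ Cω * LongPartAux.pk k * (4 * kap (1 / 4) U h) :=
          mul_le_mul_of_nonneg_left h1 h2
      _ = _ := by unfold LongPartAux.pk; ring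
  have hCω4 : 0 ≤ 4 * Cω := by linarith
  have hpt : ∀ h ∈ Set.Icc b (b + H), ‖∫ t, Φ t * fB Y (t + h)‖ₑ ^ 2 ≤
      (∑' k, ENNReal.ofReal (LongPartAux.pk k)) *
        ∑' k, (ENNReal.ofReal (LongPartAux.pk k))⁻¹ * ‖LongPartAux.Ak Y U ω Φ k h‖ₑ ^ 2 := by
    intro h hh
    have h0 : ∫ t, Φ t * fB Y (t + h) = ∫ t, Φ t * FdBig Y (t + h) := by
      refine integral_congr_ae (Filter.Eventually.of_forall fun t => ?_)
      simp only
      by_cases ht : Φ t = 0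
      · rw [ht, zero_mul, zero_mul]
      · rw [fB_eq]
        linarith [(hrange t ht).1, hh.1]
    rw [h0]
    have h1 := LongPartAux.int_bound (Y := Y) (h := h) (δ := 1 / 4) (by norm_num) (by norm_num) hU hCω4 hω1 hΦi (by
      intro t ht h' hh'
      have h2 := hrange t ht
      exact hω2 h' hh' (t + h) (by linarith [hh.1]) (by linarith [hh.2]))
    refine le_trans ?_ (LongPartAux.cs (fun k => ENNReal.ofReal (LongPartAux.pk k))
      (fun k => ‖LongPartAux.Ak Y U ω Φ k h‖ₑ)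
      (fun k => by
        rw [ne_eq, ENNReal.ofReal_eq_zero, not_le]
        exact LongPartAux.pk_pos k) (fun k => ENNReal.ofReal_ne_top))
    gcongr
  have hPe : ∑' k, ENNReal.ofReal (LongPartAux.pk k) = ENNReal.ofReal P := by
    rw [hP, ENNReal.ofReal_tsum_of_nonneg (fun k => (LongPartAux.pk_pos k).le) LongPartAux.pk_summable]
  have hAk : ∀ k : ℤ, ∫⁻ h in Set.Icc b (b + H), ‖LongPartAux.Ak Y U ω Φ k h‖ₑ ^ 2 ≤
      ENNReal.ofReal (Cl * (1 + Real.log U) ^ 2) * (ENNReal.ofReal ((Cω * LongPartAux.pk k) ^ 2) * W) := by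
    intro k
    set Bq : Q → ℝ := fun q => if Y < hgt q.1 then Cω * LongPartAux.pk k * ‖LongPartAux.Gt U Φ k q‖ else 0
      with hBq
    have hB1 : ∀ q, 0 ≤ Bq q := by
      intro q
      rw [hBq]
      simp only
      split_ifs
      · exact mul_nonneg (mul_nonneg hCω.le (LongPartAux.pk_pos k).le) (norm_nonneg _)
      · exact le_rfl
    have hB2 : ∀ q, Bq q ≤ Cω * LongPartAux.pk k * ∫ t, ‖Φ t‖ := by
      intro q
      rw [hBq]
      simp only
      split_ifs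
      · exact mul_le_mul_of_nonneg_left (LongPartAux.Gt_norm k q)
          (mul_nonneg hCω.le (LongPartAux.pk_pos k).le)
      · exact mul_nonneg (mul_nonneg hCω.le (LongPartAux.pk_pos k).le)
          (integral_nonneg fun t => norm_nonneg _)
    have hB3 : ∀ q, ‖LongPartAux.co Y ω k q * LongPartAux.Gt U Φ k q‖ ≤
        kl U (hgt q.1) * (hgt q.1) ^ (-(1 / 2) : ℝ) * Bq q := by
      intro q
      rw [hBq]
      simp only
      unfold LongPartAux.co
      split_ifs with hq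
      · rw [norm_mul, norm_mul, Complex.norm_real,
          Real.norm_of_nonneg (Real.rpow_nonneg (hgt_pos q.1).le _)]
        have h1 := hω0 k (hgt q.1) (one_le_hgt q.1)
        have h2 : 0 ≤ (hgt q.1) ^ (-(1 / 2) : ℝ) := Real.rpow_nonneg (hgt_pos q.1).le _
        calc (hgt q.1) ^ (-(1 / 2) : ℝ) * ‖ω k (hgt q.1)‖ * ‖LongPartAux.Gt U Φ k q‖ ≤
              (hgt q.1) ^ (-(1 / 2) : ℝ) * (Cω * LongPartAux.pk k * kl U (hgt q.1)) *
                ‖LongPartAux.Gt U Φ k q‖ :=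
              mul_le_mul_of_nonneg_right (mul_le_mul_of_nonneg_left h1 h2) (norm_nonneg _)
          _ = _ := by ring
      · simp
    obtain ⟨_, hls2⟩ := hls U H b hU hH
      (fun q => LongPartAux.co Y ω k q * LongPartAux.Gt U Φ k q) Bq _ hB1 hB2 hB3
    refine hls2.trans ?_
    refine mul_le_mul_right ?_ _
    have h2 : ∀ q : Q, ENNReal.ofReal (kl U (hgt q.1) * (H * (hgt q.1)⁻¹ + 1) * Bq q ^ 2) =
        ENNReal.ofReal ((Cω * LongPartAux.pk k) ^ 2) * (ENNReal.ofReal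
          (if Y < hgt q.1 then kl U (hgt q.1) * (H * (hgt q.1)⁻¹ + 1) else 0) *
            ‖LongPartAux.Gt U Φ k q‖ₑ ^ 2) := by
      intro q
      have hk0 : 0 ≤ kl U (hgt q.1) * (H * (hgt q.1)⁻¹ + 1) := by
        have h3 := kl_nonneg hU (hgt_pos q.1)
        have h4 := hgt_pos q.1
        positivity
      rw [← ofReal_norm, ← ENNReal.ofReal_pow (norm_nonneg _)]
      rw [hBq]
      simp only
      split_ifs
      · rw [← ENNReal.ofReal_mul hk0, ← ENNReal.ofReal_mul (by positivity)]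
        congr 1
        ring
      · simp
    rw [tsum_congr h2, ENNReal.tsum_mul_left]
    exact mul_le_mul_right (hdual k) _
  have hmain : ∫⁻ h in Set.Icc b (b + H), ‖∫ t, Φ t * fB Y (t + h)‖ₑ ^ 2 ≤
      ENNReal.ofReal P * (ENNReal.ofReal P * (ENNReal.ofReal (Cω ^ 2) *
        (ENNReal.ofReal (Cl * (1 + Real.log U) ^ 2) * W))) := by
    have h1 : ∫⁻ h in Set.Icc b (b + H), ‖∫ t, Φ t * fB Y (t + h)‖ₑ ^ 2 ≤
        ∫⁻ h in Set.Icc b (b + H), ENNReal.ofReal P *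
          ∑' k, (ENNReal.ofReal (LongPartAux.pk k))⁻¹ * ‖LongPartAux.Ak Y U ω Φ k h‖ₑ ^ 2 := by
      refine setLIntegral_mono' measurableSet_Icc (fun h hh => ?_)
      rw [← hPe]
      exact hpt h hh
    refine h1.trans ?_
    have hmeas : ∀ k : ℤ, Measurable (fun h => (ENNReal.ofReal (LongPartAux.pk k))⁻¹ *
        ‖LongPartAux.Ak Y U ω Φ k h‖ₑ ^ 2) := by
      intro k
      exact ((LongPartAux.Ak_cont (Y := Y) (G := Φ) (δ := 1 / 4) (by norm_num) (by norm_num) hU hCω4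
        hω1 k).measurable.enorm.pow_const 2).const_mul _
    rw [lintegral_const_mul _ (Measurable.ennreal_tsum hmeas)]
    refine mul_le_mul_right ?_ _
    rw [lintegral_tsum (fun k => (hmeas k).aemeasurable)]
    have h2 : ∀ k : ℤ, ∫⁻ h in Set.Icc b (b + H), (ENNReal.ofReal (LongPartAux.pk k))⁻¹ *
        ‖LongPartAux.Ak Y U ω Φ k h‖ₑ ^ 2 ≤
        ENNReal.ofReal (LongPartAux.pk k) * (ENNReal.ofReal (Cω ^ 2) *
          (ENNReal.ofReal (Cl * (1 + Real.log U) ^ 2) * W)) := by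
      intro k
      have hp0 : ENNReal.ofReal (LongPartAux.pk k) ≠ 0 := by
        rw [ne_eq, ENNReal.ofReal_eq_zero, not_le]
        exact LongPartAux.pk_pos k
      have hp1 : ENNReal.ofReal (LongPartAux.pk k) ≠ ⊤ := ENNReal.ofReal_ne_top
      rw [lintegral_const_mul _
        ((LongPartAux.Ak_cont (Y := Y) (G := Φ) (δ := 1 / 4) (by norm_num) (by norm_num) hU hCω4
          hω1 k).measurable.enorm.pow_const 2)]
      refine (mul_le_mul_right (hAk k) _).trans (le_of_eq ?_)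
      have e : ENNReal.ofReal ((Cω * LongPartAux.pk k) ^ 2) =
          ENNReal.ofReal (Cω ^ 2) * (ENNReal.ofReal (LongPartAux.pk k) *
            ENNReal.ofReal (LongPartAux.pk k)) := by
        rw [← ENNReal.ofReal_mul (LongPartAux.pk_pos k).le, ← ENNReal.ofReal_mul (by positivity)]
        congr 1
        ring
      rw [e]
      calc (ENNReal.ofReal (LongPartAux.pk k))⁻¹ * (ENNReal.ofReal (Cl * (1 + Real.log U) ^ 2) *
            (ENNReal.ofReal (Cω ^ 2) * (ENNReal.ofReal (LongPartAux.pk k) *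
              ENNReal.ofReal (LongPartAux.pk k)) * W)) =
            ((ENNReal.ofReal (LongPartAux.pk k))⁻¹ * ENNReal.ofReal (LongPartAux.pk k)) *
              (ENNReal.ofReal (LongPartAux.pk k) *
              (ENNReal.ofReal (Cω ^ 2) * (ENNReal.ofReal (Cl * (1 + Real.log U) ^ 2) * W))) := by ring
        _ = _ := by rw [ENNReal.inv_mul_cancel hp0 hp1, one_mul]
    refine (ENNReal.tsum_le_tsum h2).trans (le_of_eq ?_)
    rw [ENNReal.tsum_mul_right, hPe]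
  refine hmain.trans ?_
  rw [hW, ← mul_assoc (ENNReal.ofReal (Cl * (1 + Real.log U) ^ 2)), ← ENNReal.ofReal_mul (by positivity),
    ← mul_assoc (ENNReal.ofReal (Cω ^ 2)), ← ENNReal.ofReal_mul (by positivity),
    ← mul_assoc (ENNReal.ofReal P) (ENNReal.ofReal P), ← ENNReal.ofReal_mul hP0,
    ← mul_assoc (ENNReal.ofReal (P * P)), ← ENNReal.ofReal_mul (by positivity)]
  refine mul_le_mul_left (ENNReal.ofReal_le_ofReal ?_) _
  have hpos : 0 ≤ U * (1 + Real.log U) ^ 4 * (H / Y + 1) := by positivity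
  calc P * P * (Cω ^ 2 * (Cl * (1 + Real.log U) ^ 2 * (Cd * (U * (1 + Real.log U) ^ 2 * (H / Y + 1))))) =
        P * (P * (Cω ^ 2 * (Cl * Cd))) * (U * (1 + Real.log U) ^ 4 * (H / Y + 1)) := by ring
    _ ≤ (P * (P * (Cω ^ 2 * (Cl * Cd))) + 1) * (U * (1 + Real.log U) ^ 4 * (H / Y + 1)) :=
        mul_le_mul_of_nonneg_right (by linarith) hpos

/-- the form for bounded functions -/
theorem win_bigM : ∃ C : ℝ, 0 < C ∧ ∀ (U Y H b V M : ℝ) (Φ : ℝ → ℂ),
    1 ≤ U → 1 ≤ Y → 0 ≤ H → H ≤ U → 2 * U ≤ b → b ≤ 5 * U → 0 ≤ V → V ≤ 2 * U → 0 ≤ M → Measurable Φ →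
    (∀ t, t ∉ Set.Icc 0 V → Φ t = 0) → (∀ t, ‖Φ t‖ ≤ M) →
    ∫⁻ h in Set.Icc b (b + H), ‖∫ t, Φ t * fB Y (t + h)‖ₑ ^ 2 ≤
      ENNReal.ofReal (C * (U ^ 2 * (1 + Real.log U) ^ 4 * (H / Y + 1) * M ^ 2)) := by
  obtain ⟨C, hC, hw⟩ := win_bigL
  refine ⟨C * 2, by positivity, ?_⟩
  intro U Y H b V M Φ hU hY hH hHU hb1 hb2 hV0 hV hM0 hΦm hΦ0 hΦM
  have hU0 : 0 < U := by linarith
  have hY0 : 0 < Y := by linarith
  have hl : 0 ≤ Real.log U := Real.log_nonneg hU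
  refine (hw U Y H b V M Φ hU hY hH hHU hb1 hb2 hV0 hV hΦm hΦ0 hΦM).trans ?_
  refine (mul_le_mul_right (WinBigAux.lint_sq hM0 hV hΦ0 hΦM) _).trans ?_
  rw [← ENNReal.ofReal_mul (by positivity)]
  refine ENNReal.ofReal_le_ofReal (le_of_eq ?_)
  ring

end Pool.Agent.P07318t
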