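import Pool.Agent.Lib.P07318t.Defs
import Pool.Agent.Lib.P07318t.WinBigL
import Pool.Agent.Lib.P07318h.LongT

/-!
# One factor with large heights, the others cut off, on a measurable set

PROOF. As `long_t` of P07318h/LongT with `win_bigM` in place of `win_big`; `Φ t = indicator of G · Ph M Y α r t h`.
-/

set_option autoImplicit false

namespace Pool.Agent.P07318t

open MeasureTheory Complex Pool.Agent.P07318s Pool.Agent.P07318f Pool.Agent.P07318h Pool.Agent.P07318o

/-- LongL: `long_t` of P07318h/LongT on a measurable set -/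
theorem long_l (n : ℕ) : ∃ (C : ℝ) (c : ℕ), 0 < C ∧
    ∀ (U Y H α M : ℝ) (β : Fin n → ℝ) (r : Fin n) (G : Set ℝ), 1 ≤ U → 1 ≤ Y → 1 ≤ H → H ≤ U → 2 * U ≤ α → α ≤ 5 * U →
    (∀ j, 2 * U ≤ β j) → (∀ j, β j ≤ 5 * U) → MeasurableSet G → G ⊆ Set.Icc 0 (2 * U) → 1 ≤ M →
    ∃ B : (Fin n → ℝ) → ENNReal, Measurable B ∧
      (∀ h, ‖∫ t in G, Ph M Y α r t h * fB Y (t + h r)‖ₑ ≤ B h) ∧
      ∫⁻ h in Set.Icc β (fun j => β j + H), B h ≤
        ENNReal.ofReal (C * H ^ n * (U * lo U ^ c * M ^ n * (1 / Y + 1 / H) ^ (1 / 2 : ℝ))) := by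
  obtain ⟨C, hC, hwb⟩ := win_bigM
  refine ⟨C ^ (1 / 2 : ℝ), 2, by positivity, ?_⟩
  intro U Y H α M β r G hU hY hH1 hHU hα1 hα2 hβ1 hβ2 hG hG2 hM
  have hH : 0 < H := by linarith
  have hU0 : 0 < U := by linarith
  have hY0 : 0 < Y := by linarith
  have hM0 : 0 < M := by linarith
  have hlo : 0 < lo U := lo_pos hU
  have hBm : Measurable fun h : Fin n → ℝ =>
      ‖∫ t in G, Ph M Y α r t h * fB Y (t + h r)‖ₑ := by
    have h1 : StronglyMeasurable fun h : Fin n → ℝ =>
        ∫ t, Ph M Y α r t h * fB Y (t + h r) ∂(volume.restrict G) :=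
      (LongTAux.measurable_F M Y α r).stronglyMeasurable.integral_prod_right'
    exact h1.measurable.enorm
  refine ⟨_, hBm, fun h => le_rfl, ?_⟩
  set R : ℝ := C * (U ^ 2 * lo U ^ 4 * (H / Y + 1) * (M ^ n) ^ 2) with hR
  have hR0 : 0 ≤ R := by positivity
  have hK : ∀ h ∈ Set.Icc β (fun j => β j + H),
      ∫⁻ u in Set.Icc (β r) (β r + H), ‖∫ t in G, Ph M Y α r t (Function.update h r u) *
        fB Y (t + (Function.update h r u) r)‖ₑ ≤
      ENNReal.ofReal (R ^ (1 / 2 : ℝ) * H ^ (1 / 2 : ℝ)) := by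
    intro h _
    set Φ : ℝ → ℂ := G.indicator fun t => Ph M Y α r t h with hΦ
    have hΦm : Measurable Φ :=
      ((LongTAux.measurable_Ph M Y α r).comp (measurable_const.prodMk measurable_id)).indicator hG
    have hΦ0 : ∀ t, t ∉ Set.Icc 0 (2 * U) → Φ t = 0 := fun t ht =>
      Set.indicator_of_notMem (fun h' => ht (hG2 h')) _
    have hΦM : ∀ t, ‖Φ t‖ ≤ M ^ n := by
      intro t
      rw [hΦ]
      by_cases ht : t ∈ G
      · rw [Set.indicator_of_mem ht]
        exact LongTAux.norm_Ph_le hM0.le Y α r t h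
      · rw [Set.indicator_of_notMem ht, norm_zero]
        positivity
    have heq : ∀ u : ℝ, ∫ t in G, Ph M Y α r t (Function.update h r u) *
        fB Y (t + (Function.update h r u) r) = ∫ t, Φ t * fB Y (t + u) := by
      intro u
      rw [← integral_indicator hG]
      refine integral_congr_ae (Filter.Eventually.of_forall fun t => ?_)
      simp only [Function.update_self, LongTAux.Ph_update]
      rw [hΦ]
      by_cases ht : t ∈ G
      · rw [Set.indicator_of_mem ht, Set.indicator_of_mem ht]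
      · rw [Set.indicator_of_notMem ht, Set.indicator_of_notMem ht, zero_mul]
    have hm : Measurable fun u : ℝ => ‖∫ t, Φ t * fB Y (t + u)‖ₑ := by
      have h1 : Measurable fun u : ℝ => ‖∫ t in G,
          Ph M Y α r t (Function.update h r u) * fB Y (t + (Function.update h r u) r)‖ₑ :=
        hBm.comp (measurable_update h)
      have h2 : (fun u : ℝ => ‖∫ t in G,
          Ph M Y α r t (Function.update h r u) * fB Y (t + (Function.update h r u) r)‖ₑ) =
          fun u : ℝ => ‖∫ t, Φ t * fB Y (t + u)‖ₑ := by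
        funext u
        rw [heq u]
      rwa [h2] at h1
    calc ∫⁻ u in Set.Icc (β r) (β r + H), ‖∫ t in G,
          Ph M Y α r t (Function.update h r u) * fB Y (t + (Function.update h r u) r)‖ₑ
        = ∫⁻ u in Set.Icc (β r) (β r + H), ‖∫ t, Φ t * fB Y (t + u)‖ₑ := by
          refine lintegral_congr fun u => ?_
          rw [heq u]
      _ ≤ (∫⁻ u in Set.Icc (β r) (β r + H), ‖∫ t, Φ t * fB Y (t + u)‖ₑ ^ 2) ^ (1 / 2 : ℝ) *
          ENNReal.ofReal H ^ (1 / 2 : ℝ) := LongTAux.cs_icc _ hm _ _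
      _ ≤ ENNReal.ofReal R ^ (1 / 2 : ℝ) * ENNReal.ofReal H ^ (1 / 2 : ℝ) := by
          gcongr
          exact hwb U Y H (β r) (2 * U) (M ^ n) Φ hU hY hH.le hHU (hβ1 r) (hβ2 r) (by linarith)
            le_rfl (by positivity) hΦm hΦ0 hΦM
      _ = ENNReal.ofReal (R ^ (1 / 2 : ℝ) * H ^ (1 / 2 : ℝ)) := by
          rw [ENNReal.ofReal_rpow_of_nonneg hR0 (by norm_num),
            ENNReal.ofReal_rpow_of_nonneg hH.le (by norm_num),
            ← ENNReal.ofReal_mul (by positivity)]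
  refine le_trans (fub_r r β hH.le _ hBm _ hK) ?_
  rw [← ENNReal.ofReal_mul (by positivity)]
  refine ENNReal.ofReal_le_ofReal (le_of_eq ?_)
  have hn1 : 1 ≤ n := by
    have := r.2
    omega
  have e1 : R * H = C * (U * lo U ^ 2) ^ 2 * (M ^ n) ^ 2 * H ^ 2 * (1 / Y + 1 / H) := by
    rw [hR]
    field_simp
  have e3 : R ^ (1 / 2 : ℝ) * H ^ (1 / 2 : ℝ) =
      C ^ (1 / 2 : ℝ) * (U * lo U ^ 2) * M ^ n * H * (1 / Y + 1 / H) ^ (1 / 2 : ℝ) := by
    rw [← Real.mul_rpow hR0 hH.le, e1]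
    have hUp : 0 ≤ U * lo U ^ 2 := by positivity
    have hMp : 0 ≤ M ^ n := by positivity
    rw [Real.mul_rpow (by positivity) (by positivity), Real.mul_rpow (by positivity)
      (by positivity), Real.mul_rpow (by positivity) (by positivity),
      Real.mul_rpow hC.le (by positivity)]
    rw [← Real.sqrt_eq_rpow ((U * lo U ^ 2) ^ 2), Real.sqrt_sq hUp,
      ← Real.sqrt_eq_rpow ((M ^ n) ^ 2), Real.sqrt_sq hMp, ← Real.sqrt_eq_rpow (H ^ 2),
      Real.sqrt_sq hH.le]
  have e4 : H * H ^ (n - 1) = H ^ n := by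
    rw [← pow_succ']
    congr 1
    omega
  rw [e3, ← e4]
  ring

end Pool.Agent.P07318t
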