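import Pool.Agent.Lib.P07318t.CoreL
import Pool.Agent.Lib.P07318t.ExcSet

/-!
# The choice of the parameters: everything a power of the side `H`

PROOF. `Y = min(H, U^(1/(16n)))`, `M = Y^(1/(4n))`, `K = Y^b`, `b = 1/(8n²)`. Then `Y ≤ H`, `Y^n ≤ U^(1/16)`, `K^n/M = Y^(-1/(8n)) ≤ Y^(-b)`, `1/K = Y^(-b)`, `M^n Y^(-1/2) = Y^(-1/4) ≤ Y^(-b)`,
`M^n U^(3/4) ≤ U Y^(-b)`, and the powers of `lo U` of `core_l` and `ee_vol` are `≤ Y^(b/2)` as `Y ≥ lo^m`, `m = 2(c+5)/b` (`H ≥ lo^m` by assumption, `U^(1/(16n)) ≥ lo^m` for large `U`). Finally `Y ≥ H^(1/(16n))`, so everything is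
`≤ C H^(-η)` with `η = b/(32n)`.
-/

set_option autoImplicit false

namespace Pool.Agent.P07318t

open MeasureTheory Complex Pool.Agent.P07318s Pool.Agent.P07318f Pool.Agent.P07318h Pool.Agent.P07318o

namespace ParHAux

/-- powers of the logarithm are smaller than powers -/
lemma lo_le_rpow (m : ℝ) (hm : 0 < m) {ε : ℝ} (hε : 0 < ε) : ∃ U₀ : ℝ, 1 ≤ U₀ ∧ ∀ U : ℝ, U₀ ≤ U → lo U ^ m ≤ U ^ ε := by
  have h := (isLittleO_log_rpow_rpow_atTop m hε).bound (c := (2 : ℝ) ^ (-m)) (by positivity)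
  obtain ⟨U₁, h1⟩ := Filter.eventually_atTop.1 h
  refine ⟨max U₁ (Real.exp 1), (Real.one_le_exp (by norm_num)).trans (le_max_right _ _), fun U hU => ?_⟩
  have h2 := h1 U ((le_max_left _ _).trans hU)
  have hUe : Real.exp 1 ≤ U := (le_max_right _ _).trans hU
  have hU0 : 0 < U := (Real.exp_pos _).trans_le hUe
  have hL : 1 ≤ Real.log U := by
    rw [← Real.log_exp 1]
    exact Real.log_le_log (Real.exp_pos _) hUe
  have hL0 : 0 < Real.log U := by linarith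
  rw [Real.norm_eq_abs, Real.norm_eq_abs, abs_of_nonneg (by positivity), abs_of_nonneg (by positivity)] at h2
  have h3 : lo U ≤ 2 * Real.log U := by unfold lo; linarith
  have hlo : 0 < lo U := by unfold lo; linarith
  calc lo U ^ m ≤ (2 * Real.log U) ^ m := Real.rpow_le_rpow hlo.le h3 hm.le
    _ = 2 ^ m * Real.log U ^ m := Real.mul_rpow (by norm_num) hL0.le
    _ ≤ 2 ^ m * ((2 : ℝ) ^ (-m) * U ^ ε) := mul_le_mul_of_nonneg_left h2 (by positivity)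
    _ = U ^ ε := by
        rw [← mul_assoc, ← Real.rpow_add (by norm_num), add_neg_cancel, Real.rpow_zero, one_mul]

end ParHAux

open ParHAux in
/-- ParH: choice of the parameters, everything a power of `H` -/
theorem par_h (n : ℕ) (hn : 1 ≤ n) : ∃ C₀ η C U₀ : ℝ, 0 < C₀ ∧ 0 < η ∧ 0 < C ∧ 1 ≤ U₀ ∧
    ∀ (U H α : ℝ) (β : Fin n → ℝ), U₀ ≤ U → lo U ^ C₀ ≤ H → H ≤ U →
    2 * U ≤ α → α ≤ 5 * U → (∀ j, 2 * U ≤ β j) → (∀ j, β j ≤ 5 * U) →
    ∃ E : Set ℝ, MeasurableSet E ∧ E ⊆ Set.Icc 0 (2 * U) ∧ volume E ≤ ENNReal.ofReal (C * U * H ^ (-η)) ∧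
    ∀ V : ℝ, 0 ≤ V → V ≤ 2 * U → ∃ B : (Fin n → ℝ) → ENNReal, Measurable B ∧
      (∀ h ∈ Set.Icc β (fun j => β j + H),
        ‖(∫ t in Set.Icc 0 V \ E, ((gz (t + α) * ∏ j, gz (t + h j) : ℝ) : ℂ)) - ∫ t in (0:ℝ)..V, Dg (sh α h t)‖ₑ ≤ B h) ∧
      ∫⁻ h in Set.Icc β (fun j => β j + H), B h ≤ ENNReal.ofReal (C * H ^ n * (U * H ^ (-η))) := by
  obtain ⟨C₁, c, hC₁, hcore⟩ := core_l n hn
  obtain ⟨C₂, hC₂, hvol⟩ := ee_vol n
  have hn1 : (1 : ℝ) ≤ n := by exact_mod_cast hn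
  have hn0 : (0 : ℝ) < n := by linarith
  -- the exponents
  obtain ⟨a, ha⟩ : ∃ a : ℝ, a = 1 / (16 * (n : ℝ)) := ⟨_, rfl⟩
  obtain ⟨b, hb⟩ : ∃ b : ℝ, b = 1 / (8 * (n : ℝ) ^ 2) := ⟨_, rfl⟩
  have ha0 : 0 < a := by rw [ha]; positivity
  have hb0 : 0 < b := by rw [hb]; positivity
  have hb8 : b ≤ 1 / 8 := by
    rw [hb]
    exact div_le_div_of_nonneg_left (by norm_num) (by norm_num) (by nlinarith)
  have hbn : b * n = 1 / (8 * (n : ℝ)) := by
    rw [hb]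
    field_simp
  have hbn2 : b ≤ 1 / (8 * (n : ℝ)) := by
    rw [← hbn]
    exact le_mul_of_one_le_right hb0.le hn1
  obtain ⟨m, hm⟩ : ∃ m : ℝ, m = 2 * ((c : ℝ) + 5) / b := ⟨_, rfl⟩
  have hm0 : 0 < m := by rw [hm]; positivity
  obtain ⟨U₁, hU₁, hgrow⟩ := lo_le_rpow m hm0 ha0
  refine ⟨m, a * (b / 2), 4 * C₁ + C₂, U₁, hm0, by positivity, by positivity, hU₁, ?_⟩
  intro U H α β hU hUH hHU hα hα' hβ hβ'
  have hU1 : 1 ≤ U := hU₁.trans hU
  have hU0 : 0 < U := by linarith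
  have hlo1 : 1 ≤ lo U := one_le_lo hU1
  have hlo0 : 0 < lo U := by linarith
  have hH1 : 1 ≤ H := (Real.one_le_rpow hlo1 hm0.le).trans hUH
  have hH0 : 0 < H := by linarith
  -- the reduced side
  obtain ⟨Y, hY⟩ : ∃ Y : ℝ, Y = min H (U ^ a) := ⟨_, rfl⟩
  have hUa : 1 ≤ U ^ a := Real.one_le_rpow hU1 ha0.le
  have hY1 : 1 ≤ Y := by rw [hY]; exact le_min hH1 hUa
  have hY0 : 0 < Y := by linarith
  have hYH : Y ≤ H := by rw [hY]; exact min_le_left _ _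
  have hYUa : Y ≤ U ^ a := by rw [hY]; exact min_le_right _ _
  have hYU : Y ≤ U := hYH.trans hHU
  have hYlo : lo U ^ m ≤ Y := by rw [hY]; exact le_min hUH (hgrow U hU)
  have hHY : H ^ a ≤ Y := by
    rw [hY]
    refine le_min ?_ (Real.rpow_le_rpow hH0.le hHU ha0.le)
    have ha1 : a ≤ 1 := by
      rw [ha, div_le_one (by positivity)]
      linarith
    calc H ^ a ≤ H ^ (1 : ℝ) := Real.rpow_le_rpow_of_exponent_le hH1 ha1
      _ = H := Real.rpow_one _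
  have hYn : Y ^ n ≤ U ^ (1 / 16 : ℝ) := by
    calc Y ^ n ≤ (U ^ a) ^ n := pow_le_pow_left₀ hY0.le hYUa n
      _ = U ^ (1 / 16 : ℝ) := by
          rw [← Real.rpow_natCast, ← Real.rpow_mul hU0.le, ha]
          congr 1
          field_simp
  -- logarithms against `Y`
  have hlc : lo U ^ (c + 5) ≤ Y ^ (b / 2) := by
    calc lo U ^ (c + 5) = (lo U ^ m) ^ (b / 2) := by
          rw [← Real.rpow_natCast, ← Real.rpow_mul hlo0.le, hm]
          congr 1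
          push_cast
          field_simp
      _ ≤ Y ^ (b / 2) := Real.rpow_le_rpow (by positivity) hYlo (by positivity)
  have hYη : Y ^ (-(b / 2)) ≤ H ^ (-(a * (b / 2))) := by
    have h1 : H ^ (a * (b / 2)) ≤ Y ^ (b / 2) := by
      rw [Real.rpow_mul hH0.le]
      exact Real.rpow_le_rpow (by positivity) hHY (by positivity)
    rw [Real.rpow_neg hY0.le, Real.rpow_neg hH0.le]
    exact inv_anti₀ (by positivity) h1
  have hmain : ∀ c' : ℕ, c' ≤ c + 5 → lo U ^ c' * Y ^ (-b) ≤ H ^ (-(a * (b / 2))) := by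
    intro c' hc'
    have h1 : lo U ^ c' ≤ Y ^ (b / 2) := (pow_le_pow_right₀ hlo1 hc').trans hlc
    calc lo U ^ c' * Y ^ (-b) ≤ Y ^ (b / 2) * Y ^ (-b) := mul_le_mul_of_nonneg_right h1 (by positivity)
      _ = Y ^ (-(b / 2)) := by
          rw [← Real.rpow_add hY0]
          congr 1
          ring
      _ ≤ _ := hYη
  -- the parameters
  obtain ⟨M, hM⟩ : ∃ M : ℝ, M = Y ^ (1 / (4 * (n : ℝ))) := ⟨_, rfl⟩
  obtain ⟨K, hK⟩ : ∃ K : ℝ, K = Y ^ b := ⟨_, rfl⟩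
  have hM1 : 1 ≤ M := by rw [hM]; exact Real.one_le_rpow hY1 (by positivity)
  have hK1 : 1 ≤ K := by rw [hK]; exact Real.one_le_rpow hY1 hb0.le
  have hK0 : 0 < K := by linarith
  have hMn : M ^ n = Y ^ (1 / 4 : ℝ) := by
    rw [hM, ← Real.rpow_natCast, ← Real.rpow_mul hY0.le]
    congr 1
    field_simp
  have hKn : K ^ n = Y ^ (1 / (8 * (n : ℝ))) := by
    rw [hK, ← Real.rpow_natCast, ← Real.rpow_mul hY0.le, hbn]
  have t1 : K ^ n / M ≤ Y ^ (-b) := by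
    rw [hKn, hM, ← Real.rpow_sub hY0]
    refine Real.rpow_le_rpow_of_exponent_le hY1 ?_
    have h1 : 1 / (8 * (n : ℝ)) - 1 / (4 * (n : ℝ)) = -(1 / (8 * (n : ℝ))) := by
      field_simp
      norm_num
    rw [h1]
    linarith
  have t2 : 1 / K = Y ^ (-b) := by
    rw [hK, Real.rpow_neg hY0.le, one_div]
  have t3 : M ^ n * Y ^ (-(1 / 2) : ℝ) ≤ Y ^ (-b) := by
    rw [hMn, ← Real.rpow_add hY0]
    refine Real.rpow_le_rpow_of_exponent_le hY1 ?_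
    linarith
  have t4 : M ^ n * U ^ (3 / 4 : ℝ) ≤ U * Y ^ (-b) := by
    have h1 : Y ^ (1 / 4 : ℝ) * Y ^ b ≤ U ^ (1 / 4 : ℝ) := by
      rw [← Real.rpow_add hY0]
      calc Y ^ (1 / 4 + b) ≤ (U ^ a) ^ (1 / 4 + b) := Real.rpow_le_rpow hY0.le hYUa (by positivity)
        _ = U ^ (a * (1 / 4 + b)) := by rw [← Real.rpow_mul hU0.le]
        _ ≤ U ^ (1 / 4 : ℝ) := by
            refine Real.rpow_le_rpow_of_exponent_le hU1 ?_
            have ha1 : a ≤ 1 / 16 := by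
              rw [ha]
              exact div_le_div_of_nonneg_left (by norm_num) (by norm_num) (by linarith)
            nlinarith
    have h2 : Y ^ (1 / 4 : ℝ) ≤ U ^ (1 / 4 : ℝ) * Y ^ (-b) := by
      rw [Real.rpow_neg hY0.le, ← div_eq_mul_inv, le_div_iff₀ (by positivity)]
      exact h1
    rw [hMn]
    calc Y ^ (1 / 4 : ℝ) * U ^ (3 / 4 : ℝ) ≤ (U ^ (1 / 4 : ℝ) * Y ^ (-b)) * U ^ (3 / 4 : ℝ) :=
          mul_le_mul_of_nonneg_right h2 (by positivity)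
      _ = (U ^ (1 / 4 : ℝ) * U ^ (3 / 4 : ℝ)) * Y ^ (-b) := by ring
      _ = U * Y ^ (-b) := by
          rw [← Real.rpow_add hU0]
          norm_num
  refine ⟨EE K H α U β, ee_meas K H α U β, fun t ht => ht.1, ?_, ?_⟩
  · refine (hvol U H K α β hU1 hH1 hHU hK1 hα hα' hβ hβ').trans (ENNReal.ofReal_le_ofReal ?_)
    have h1 : lo U ^ 5 / K ^ 2 ≤ H ^ (-(a * (b / 2))) := by
      have h2 : lo U ^ 5 / K ^ 2 ≤ lo U ^ 5 * (1 / K) := by
        rw [div_eq_mul_one_div]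
        refine mul_le_mul_of_nonneg_left ?_ (by positivity)
        refine one_div_le_one_div_of_le hK0 ?_
        nlinarith
      refine h2.trans ?_
      rw [t2]
      exact hmain 5 (by omega)
    calc C₂ * U * lo U ^ 5 / K ^ 2 = C₂ * U * (lo U ^ 5 / K ^ 2) := by ring
      _ ≤ C₂ * U * H ^ (-(a * (b / 2))) := mul_le_mul_of_nonneg_left h1 (by positivity)
      _ ≤ (4 * C₁ + C₂) * U * H ^ (-(a * (b / 2))) := by
          have : 0 ≤ 4 * C₁ * U * H ^ (-(a * (b / 2))) := by positivity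
          linarith
  · intro V hV hV2
    obtain ⟨B, hB1, hB2, hB3⟩ := hcore U Y H K M α V β hU1 hY1 hYH hHU hYn hK1 hM1 hα hα' hβ hβ' hV hV2
    refine ⟨B, hB1, hB2, hB3.trans (ENNReal.ofReal_le_ofReal ?_)⟩
    have h1 : lo U ^ c * Y ^ (-b) ≤ H ^ (-(a * (b / 2))) := hmain c (by omega)
    have h2 : lo U ^ 0 * Y ^ (-b) ≤ H ^ (-(a * (b / 2))) := hmain 0 (by omega)
    rw [pow_zero, one_mul] at h2
    have h3 : U * lo U ^ c * (K ^ n / M + 1 / K + M ^ n * Y ^ (-(1 / 2) : ℝ)) + M ^ n * U ^ (3 / 4 : ℝ) ≤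
        4 * (U * H ^ (-(a * (b / 2)))) := by
      have h4 : K ^ n / M + 1 / K + M ^ n * Y ^ (-(1 / 2) : ℝ) ≤ 3 * Y ^ (-b) := by
        rw [t2]
        linarith
      calc U * lo U ^ c * (K ^ n / M + 1 / K + M ^ n * Y ^ (-(1 / 2) : ℝ)) + M ^ n * U ^ (3 / 4 : ℝ)
          ≤ U * lo U ^ c * (3 * Y ^ (-b)) + U * Y ^ (-b) :=
            add_le_add (mul_le_mul_of_nonneg_left h4 (by positivity)) t4
        _ = 3 * (U * (lo U ^ c * Y ^ (-b))) + U * Y ^ (-b) := by ring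
        _ ≤ 3 * (U * H ^ (-(a * (b / 2)))) + U * H ^ (-(a * (b / 2))) := by gcongr
        _ = 4 * (U * H ^ (-(a * (b / 2)))) := by ring
    calc C₁ * H ^ n * (U * lo U ^ c * (K ^ n / M + 1 / K + M ^ n * Y ^ (-(1 / 2) : ℝ)) + M ^ n * U ^ (3 / 4 : ℝ))
        ≤ C₁ * H ^ n * (4 * (U * H ^ (-(a * (b / 2))))) := mul_le_mul_of_nonneg_left h3 (by positivity)
      _ = 4 * C₁ * H ^ n * (U * H ^ (-(a * (b / 2)))) := by ring
      _ ≤ (4 * C₁ + C₂) * H ^ n * (U * H ^ (-(a * (b / 2)))) := by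
          have : 0 ≤ C₂ * H ^ n * (U * H ^ (-(a * (b / 2)))) := by positivity
          linarith

end Pool.Agent.P07318t
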