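import Pool.Agent.Lib.P07318t.CoreL
import Pool.Agent.Lib.P07318t.Grow

/-!
# Choice of the parameters

PROOF. `K = lo ^ e₁`, `M = lo ^ e₂`, `Y = lo ^ (2 e₄)` with `e₁ = N + c + 5`, `e₂ = n e₁ + c + N`, `e₄ = n e₂ + c + N`, `N ≥ A`, in `core_l` and `ee_vol`; powers of `lo U` are smaller than every power of `U` (`lo_growth`).
-/

set_option autoImplicit false

namespace Pool.Agent.P07318t

open MeasureTheory Complex Pool.Agent.P07318s Pool.Agent.P07318f Pool.Agent.P07318h Pool.Agent.P07318o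

lemma ee_sub {n : ℕ} (K H α U : ℝ) (β : Fin n → ℝ) : EE K H α U β ⊆ Set.Icc 0 (2 * U) := fun _ ht => ht.1

theorem par_l (n : ℕ) (hn : 1 ≤ n) (A : ℝ) (_hA : 0 < A) : ∃ C₀ C U₀ : ℝ, 0 < C₀ ∧ 0 < C ∧ 1 ≤ U₀ ∧
    ∀ (U H α : ℝ) (β : Fin n → ℝ), U₀ ≤ U → lo U ^ C₀ ≤ H → H ≤ U →
    2 * U ≤ α → α ≤ 5 * U → (∀ j, 2 * U ≤ β j) → (∀ j, β j ≤ 5 * U) →
    ∃ E : Set ℝ, MeasurableSet E ∧ E ⊆ Set.Icc 0 (2 * U) ∧ volume E ≤ ENNReal.ofReal (C * U * lo U ^ (-A)) ∧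
    ∀ V : ℝ, 0 ≤ V → V ≤ 2 * U → ∃ B : (Fin n → ℝ) → ENNReal, Measurable B ∧
      (∀ h ∈ Set.Icc β (fun j => β j + H),
        ‖(∫ t in Set.Icc 0 V \ E, ((gz (t + α) * ∏ j, gz (t + h j) : ℝ) : ℂ)) - ∫ t in (0:ℝ)..V, Dg (sh α h t)‖ₑ ≤ B h) ∧
      ∫⁻ h in Set.Icc β (fun j => β j + H), B h ≤ ENNReal.ofReal (C * H ^ n * (U * lo U ^ (-A))) := by
  obtain ⟨C1, c, hC1, core⟩ := core_l n hn
  obtain ⟨C2, hC2, vol⟩ := ee_vol n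
  obtain ⟨N, hN⟩ : ∃ N : ℕ, A ≤ N := exists_nat_ge A
  obtain ⟨e1, he1⟩ : ∃ e1 : ℕ, e1 = N + c + 5 := ⟨_, rfl⟩
  obtain ⟨e2, he2⟩ : ∃ e2 : ℕ, e2 = n * e1 + c + N := ⟨_, rfl⟩
  obtain ⟨e4, he4⟩ : ∃ e4 : ℕ, e4 = n * e2 + c + N := ⟨_, rfl⟩
  obtain ⟨U1, hU1, g1⟩ := lo_growth (2 * e4 * n) (1 / 16) (by norm_num)
  obtain ⟨U2, hU2, g2⟩ := lo_growth (n * e2 + N) (1 / 4) (by norm_num)
  refine ⟨(2 * e4 + 1 : ℕ), 4 * C1 + C2, max U1 U2, by positivity, by positivity, hU1.trans (le_max_left _ _), ?_⟩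
  intro U H α β hU hUH hHU hα1 hα2 hβ1 hβ2
  have hUa : U1 ≤ U := (le_max_left _ _).trans hU
  have hUb : U2 ≤ U := (le_max_right _ _).trans hU
  have hU1' : 1 ≤ U := hU1.trans hUa
  have hU0 : 0 < U := by linarith
  have hlo := one_le_lo hU1'
  have hlo0 : 0 < lo U := by linarith
  rw [Real.rpow_natCast] at hUH
  obtain ⟨K, hK⟩ : ∃ K : ℝ, K = lo U ^ e1 := ⟨_, rfl⟩
  obtain ⟨M, hM⟩ : ∃ M : ℝ, M = lo U ^ e2 := ⟨_, rfl⟩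
  obtain ⟨Y, hY⟩ : ∃ Y : ℝ, Y = lo U ^ (2 * e4) := ⟨_, rfl⟩
  have hK1 : 1 ≤ K := by rw [hK]; exact one_le_pow₀ hlo
  have hM1 : 1 ≤ M := by rw [hM]; exact one_le_pow₀ hlo
  have hY1 : 1 ≤ Y := by rw [hY]; exact one_le_pow₀ hlo
  have hYH : Y ≤ H := by
    refine le_trans ?_ hUH
    rw [hY]
    exact pow_le_pow_right₀ hlo (by omega)
  have hH1 : 1 ≤ H := hY1.trans hYH
  have hH0 : 0 < H := by linarith
  have hYn : Y ^ n ≤ U ^ (1 / 16 : ℝ) := by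
    rw [hY, ← pow_mul]
    exact g1 U hUa
  have hneg := lo_neg hU1' hN
  have hKn : K ^ n = lo U ^ (n * e1) := by rw [hK, ← pow_mul, mul_comm]
  have hMn : M ^ n = lo U ^ (n * e2) := by rw [hM, ← pow_mul, mul_comm]
  have hYh : Y ^ (-(1 / 2) : ℝ) = (lo U ^ e4)⁻¹ := by
    rw [hY, mul_comm 2 e4, pow_mul, Real.rpow_neg (by positivity)]
    congr 1
    rw [← Real.rpow_natCast (lo U ^ e4) 2, ← Real.rpow_mul (by positivity)]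
    norm_num
  have f1 : lo U ^ c * (K ^ n / M) ≤ lo U ^ (-A) := by
    refine le_trans (le_of_eq ?_) hneg
    rw [hKn, hM, he2, pow_add, pow_add]
    field_simp
  have f2 : lo U ^ c * (1 / K) ≤ lo U ^ (-A) := by
    refine le_trans ?_ hneg
    rw [hK, he1, pow_add, pow_add, one_div, mul_inv, mul_inv]
    have h5 : (lo U ^ 5)⁻¹ ≤ 1 := inv_le_one_of_one_le₀ (one_le_pow₀ hlo)
    have h6 : lo U ^ c * ((lo U ^ N)⁻¹ * (lo U ^ c)⁻¹ * (lo U ^ 5)⁻¹) = (lo U ^ N)⁻¹ * (lo U ^ 5)⁻¹ := by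
      field_simp
    rw [h6]
    have h7 : 0 ≤ (lo U ^ N)⁻¹ := by positivity
    nlinarith
  have f3 : lo U ^ c * (M ^ n * Y ^ (-(1 / 2) : ℝ)) ≤ lo U ^ (-A) := by
    refine le_trans (le_of_eq ?_) hneg
    rw [hMn, hYh, he4, pow_add, pow_add]
    field_simp
  have f4 : M ^ n * U ^ (3 / 4 : ℝ) ≤ U * lo U ^ (-A) := by
    have h1 := g2 U hUb
    have h2 : M ^ n * lo U ^ N ≤ U ^ (1 / 4 : ℝ) := by
      rw [hMn, ← pow_add]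
      exact h1
    have h3 : M ^ n ≤ U ^ (1 / 4 : ℝ) * (lo U ^ N)⁻¹ := by
      rw [← div_eq_mul_inv, le_div_iff₀ (by positivity)]
      exact h2
    calc M ^ n * U ^ (3 / 4 : ℝ) ≤ (U ^ (1 / 4 : ℝ) * (lo U ^ N)⁻¹) * U ^ (3 / 4 : ℝ) := by gcongr
      _ = (U ^ (1 / 4 : ℝ) * U ^ (3 / 4 : ℝ)) * (lo U ^ N)⁻¹ := by ring
      _ = U * (lo U ^ N)⁻¹ := by
          rw [← Real.rpow_add hU0]
          norm_num
      _ ≤ U * lo U ^ (-A) := by gcongr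
  have hAp : 0 < lo U ^ (-A) := Real.rpow_pos_of_pos hlo0 _
  refine ⟨EE K H α U β, ee_meas K H α U β, ee_sub K H α U β, ?_, ?_⟩
  · refine (vol U H K α β hU1' hH1 hHU hK1 hα1 hα2 hβ1 hβ2).trans (ENNReal.ofReal_le_ofReal ?_)
    have h1 : lo U ^ 5 / K ^ 2 ≤ lo U ^ (-A) := by
      refine le_trans ?_ hneg
      rw [hK, ← pow_mul, div_le_iff₀ (by positivity), ← div_eq_inv_mul, le_div_iff₀ (by positivity), ← pow_add]
      exact pow_le_pow_right₀ hlo (by omega)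
    calc C2 * U * lo U ^ 5 / K ^ 2 = C2 * U * (lo U ^ 5 / K ^ 2) := by ring
      _ ≤ C2 * U * lo U ^ (-A) := by gcongr
      _ ≤ (4 * C1 + C2) * U * lo U ^ (-A) := by
          gcongr
          linarith
  · intro V hV0 hV2
    obtain ⟨B, hB, hB1, hB2⟩ := core U Y H K M α V β hU1' hY1 hYH hHU hYn hK1 hM1 hα1 hα2 hβ1 hβ2 hV0 hV2
    refine ⟨B, hB, hB1, hB2.trans (ENNReal.ofReal_le_ofReal ?_)⟩
    have h1 : U * lo U ^ c * (K ^ n / M + 1 / K + M ^ n * Y ^ (-(1 / 2) : ℝ)) + M ^ n * U ^ (3 / 4 : ℝ) ≤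
        4 * (U * lo U ^ (-A)) := by
      have h2 : U * lo U ^ c * (K ^ n / M + 1 / K + M ^ n * Y ^ (-(1 / 2) : ℝ)) =
          U * (lo U ^ c * (K ^ n / M) + lo U ^ c * (1 / K) + lo U ^ c * (M ^ n * Y ^ (-(1 / 2) : ℝ))) := by ring
      rw [h2]
      have h3 : U * (lo U ^ c * (K ^ n / M) + lo U ^ c * (1 / K) + lo U ^ c * (M ^ n * Y ^ (-(1 / 2) : ℝ))) ≤
          U * (3 * lo U ^ (-A)) := by
        refine mul_le_mul_of_nonneg_left ?_ hU0.le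
        linarith
      linarith
    calc C1 * H ^ n * (U * lo U ^ c * (K ^ n / M + 1 / K + M ^ n * Y ^ (-(1 / 2) : ℝ)) + M ^ n * U ^ (3 / 4 : ℝ))
        ≤ C1 * H ^ n * (4 * (U * lo U ^ (-A))) := by gcongr
      _ = 4 * C1 * H ^ n * (U * lo U ^ (-A)) := by ring
      _ ≤ (4 * C1 + C2) * H ^ n * (U * lo U ^ (-A)) := by
          gcongr
          linarith

end Pool.Agent.P07318t
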