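import Pool.Agent.Lib.P07318t.Defs
import Pool.Agent.Lib.P07318t.WinBigL
import Pool.Agent.Lib.P07318h.SmallMS
import Pool.Agent.Lib.P07318o.ZetaS

/-!
# Mean square of the small heights in short windows, precise to powers of the logarithm

PROOF. As `small_ms` of P07318h/SmallMS.lean, with the separation of the variables `sepL`, the weighted large sieve `wlsL` and `∑_q kl U (hgt q) / hgt q ≤ 75 lo U ^ 3` (`kl_sum`): with `δ = dl U`,
`kl U h ≤ lo U (U/h)^δ ≤ 3 lo U h^(-δ)` and `∑_q hgt^(-1-δ) ≤ (1 + 1/δ)²`.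
-/

set_option autoImplicit false

namespace Pool.Agent.P07318t

open MeasureTheory Complex Pool.Agent.P07318s Pool.Agent.P07318f Pool.Agent.P07318h Pool.Agent.P07318o

/-- the sum of `hgt^(-1-δ)` over the reduced fractions -/
theorem hgt_sum {δ : ℝ} (hδ : 0 < δ) :
    ∑' q : Q, ENNReal.ofReal ((hgt q.1) ^ (-(1 + δ))) ≤ ENNReal.ofReal ((1 + 1 / δ) ^ 2) := by
  have h0 : 0 ≤ 1 + 1 / δ := by positivity
  have h1 := ZetaSAux.tsum_pnat (s := 1 + δ) (by linarith)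
  rw [show 1 + δ - 1 = δ by ring] at h1
  have hinj : Function.Injective (fun q : Q => q.1) := fun a b h => Subtype.ext h
  refine (ENNReal.tsum_comp_le_tsum_of_injective hinj
    (fun p : ℕ+ × ℕ+ => ENNReal.ofReal ((hgt p) ^ (-(1 + δ))))).trans ?_
  have h2 : ∀ p : ℕ+ × ℕ+, ENNReal.ofReal ((hgt p) ^ (-(1 + δ))) =
      ENNReal.ofReal (((p.1 : ℕ) : ℝ) ^ (-(1 + δ))) * ENNReal.ofReal (((p.2 : ℕ) : ℝ) ^ (-(1 + δ))) := by
    intro p
    unfold hgt
    rw [Real.mul_rpow (by positivity) (by positivity), ENNReal.ofReal_mul (by positivity)]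
  simp only [h2]
  rw [ENNReal.tsum_prod (f := fun a b : ℕ+ => ENNReal.ofReal (((a : ℕ) : ℝ) ^ (-(1 + δ))) *
    ENNReal.ofReal (((b : ℕ) : ℝ) ^ (-(1 + δ))))]
  simp only [ENNReal.tsum_mul_left, ENNReal.tsum_mul_right]
  rw [sq, ENNReal.ofReal_mul h0]
  exact mul_le_mul' h1 h1

theorem kl_hgt {U : ℝ} (hU : 1 ≤ U) {h : ℝ} (hh : 1 ≤ h) : kl U h ≤ 3 * lo U * h ^ (-dl U) := by
  have hh0 : 0 < h := by linarith
  have hU0 : 0 < U := by linarith
  have hl := lo_pos hU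
  have hd := dl_pos hU
  have h1 := kl_le_kap (δ := dl U) hd.le hU hh
  have h2 := kap_le (δ := dl U) (by linarith [dl_le hU]) hU0 hh0
  have h3 : (U / h) ^ dl U ≤ 3 * h ^ (-dl U) := by
    rw [Real.div_rpow hU0.le hh0.le, Real.rpow_neg hh0.le, div_eq_mul_inv]
    refine mul_le_mul_of_nonneg_right ?_ (by positivity)
    have h4 := rpow_dl hU zero_le_one
    rw [one_mul] at h4
    have h5 := Real.exp_one_lt_d9
    linarith
  calc kl U h ≤ lo U * kap (dl U) U h := h1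
    _ ≤ lo U * (3 * h ^ (-dl U)) := mul_le_mul_of_nonneg_left (h2.trans h3) hl.le
    _ = _ := by ring

theorem kl_sum {U : ℝ} (hU : 1 ≤ U) :
    ∑' q : Q, ENNReal.ofReal (kl U (hgt q.1) * (hgt q.1)⁻¹) ≤ ENNReal.ofReal (75 * lo U ^ 3) := by
  have hl := one_le_lo hU
  have hd := dl_pos hU
  have h1 : ∀ q : Q, ENNReal.ofReal (kl U (hgt q.1) * (hgt q.1)⁻¹) ≤
      ENNReal.ofReal (3 * lo U) * ENNReal.ofReal ((hgt q.1) ^ (-(1 + dl U))) := by
    intro q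
    have hh := one_le_hgt q.1
    have hh0 := hgt_pos q.1
    rw [← ENNReal.ofReal_mul (by positivity)]
    apply ENNReal.ofReal_le_ofReal
    have h2 := mul_le_mul_of_nonneg_right (kl_hgt hU hh) (inv_pos.2 hh0).le
    refine h2.trans (le_of_eq ?_)
    rw [show -(1 + dl U) = -dl U + -1 by ring, Real.rpow_add hh0, Real.rpow_neg_one]
    ring
  refine (ENNReal.tsum_le_tsum h1).trans ?_
  rw [ENNReal.tsum_mul_left]
  refine (mul_le_mul_right (hgt_sum hd) _).trans ?_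
  rw [← ENNReal.ofReal_mul (by positivity)]
  apply ENNReal.ofReal_le_ofReal
  have h3 : 1 / dl U = 4 * lo U := by
    unfold dl
    rw [one_div_one_div]
  rw [h3]
  have h4 : (1 + 4 * lo U) ^ 2 ≤ 25 * lo U ^ 2 := by nlinarith
  calc 3 * lo U * (1 + 4 * lo U) ^ 2 ≤ 3 * lo U * (25 * lo U ^ 2) := mul_le_mul_of_nonneg_left h4 (by positivity)
    _ = _ := by ring

open SmallMSAux in
theorem small_l : ∃ (C : ℝ) (c : ℕ), 0 < C ∧ ∀ U Y L b : ℝ, 1 ≤ U → 1 ≤ Y → Y ≤ U → 1 ≤ L → L ≤ 8 * U → U ≤ b → b + L ≤ 16 * U →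
    ∫⁻ x in Set.Icc b (b + L), ‖fS Y x‖ₑ ^ 2 ≤ ENNReal.ofReal (C * lo U ^ c * (L + Y)) := by
  obtain ⟨C1, hC1, hsep⟩ := sepL
  obtain ⟨C2, hC2, hls⟩ := wlsL
  set P : ℝ := ∑' k : ℤ, P07318h.pk k with hP
  have hP0 : 0 ≤ P := tsum_nonneg fun k => (P07318h.pk_pos k).le
  refine ⟨P ^ 2 * (C2 * (C1 ^ 2 * 75)) + 1, 5, by positivity, ?_⟩
  intro U Y L b hU hY _ hL _ hb hbL
  have hU0 : 0 < U := by linarith
  have hL0 : 0 ≤ L := by linarith
  have hl := one_le_lo hU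
  obtain ⟨ω, hω0, hs⟩ := hsep U hU
  have hCω4 : 0 ≤ 4 * C1 := by positivity
  have hω : ∀ (k : ℤ) (h : ℝ), 1 ≤ h → ‖ω k h‖ ≤ (4 * C1) / (1 + (k : ℝ) ^ 2) * kap (1 / 4) U h := by
    intro k h hh
    refine (hω0 k h hh).trans ?_
    have h1 := kl_kap hU (show 0 < h by linarith)
    have h2 : 0 ≤ C1 * LongPartAux.pk k := mul_nonneg hC1.le (LongPartAux.pk_pos k).le
    calc C1 * LongPartAux.pk k * kl U h ≤ C1 * LongPartAux.pk k * (4 * kap (1 / 4) U h) :=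
          mul_le_mul_of_nonneg_left h1 h2
      _ = _ := by unfold LongPartAux.pk; ring
  have hs' : ∀ h : ℝ, 1 ≤ h → ∀ x : ℝ, U ≤ x → x ≤ 16 * U →
      HasSum (fun k : ℤ => ω k h * P07318h.ek U k x) (Om h x : ℂ) := hs
  have hAm : ∀ k : ℤ, Measurable fun x => ‖Ak Y ω k x‖ₑ ^ 2 := fun k =>
    ((Ak_cont (Y := Y) (δ := 1 / 4) (by norm_num) (by norm_num) hU hCω4 hω k).measurable.enorm).pow_const _
  have hLY : 0 ≤ L + Y := by linarith
  have hco : ∀ (k : ℤ) (q : Q), ‖co Y ω k q‖ ≤ kl U (hgt q.1) * (hgt q.1) ^ (-(1 / 2) : ℝ) * Bk Y C1 k q := by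
    intro k q
    unfold co Bk
    split_ifs
    · rw [norm_zero, mul_zero]
    · rw [norm_mul, Complex.norm_real, Real.norm_of_nonneg (Real.rpow_nonneg (hgt_pos q.1).le _)]
      have h1 := hω0 k (hgt q.1) (one_le_hgt q.1)
      calc (hgt q.1) ^ (-(1 / 2) : ℝ) * ‖ω k (hgt q.1)‖ ≤
            (hgt q.1) ^ (-(1 / 2) : ℝ) * (C1 * LongPartAux.pk k * kl U (hgt q.1)) :=
            mul_le_mul_of_nonneg_left h1 (Real.rpow_nonneg (hgt_pos q.1).le _)
        _ = kl U (hgt q.1) * (hgt q.1) ^ (-(1 / 2) : ℝ) * (C1 * P07318h.pk k) := by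
            unfold P07318h.pk LongPartAux.pk
            ring
  -- one character
  have hone : ∀ k : ℤ, ∫⁻ x in Set.Icc b (b + L), ‖Ak Y ω k x‖ₑ ^ 2 ≤
      ENNReal.ofReal (P07318h.pk k) ^ 2 *
        ENNReal.ofReal (C2 * (1 + Real.log U) ^ 2 * (C1 ^ 2 * ((L + Y) * (75 * lo U ^ 3)))) := by
    intro k
    have h1 := (hls U L b hU hL0 (co Y ω k) (Bk Y C1 k) (C1 * P07318h.pk k) (Bk_nonneg hC1.le k)
      (Bk_le hC1.le k) (hco k)).2
    refine (le_trans (le_of_eq rfl) h1).trans ?_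
    have hterm : ∀ q : Q, ENNReal.ofReal (kl U (hgt q.1) * (L * (hgt q.1)⁻¹ + 1) * Bk Y C1 k q ^ 2) ≤
        ENNReal.ofReal (P07318h.pk k ^ 2 * (C1 ^ 2 * (L + Y))) * ENNReal.ofReal (kl U (hgt q.1) * (hgt q.1)⁻¹) := by
      intro q
      have hh := hgt_pos q.1
      have hk0 : 0 ≤ kl U (hgt q.1) := kl_nonneg hU hh
      rw [← ENNReal.ofReal_mul (by positivity)]
      apply ENNReal.ofReal_le_ofReal
      unfold Bk
      split_ifs with h2
      · have : 0 ≤ P07318h.pk k ^ 2 * (C1 ^ 2 * (L + Y)) * (kl U (hgt q.1) * (hgt q.1)⁻¹) := by positivity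
        simpa using this
      · push Not at h2
        have h3 : L * (hgt q.1)⁻¹ + 1 ≤ (L + Y) * (hgt q.1)⁻¹ := by
          have h4 : 1 ≤ Y * (hgt q.1)⁻¹ := by
            rw [← div_eq_mul_inv, one_le_div hh]
            exact h2
          linarith [add_mul L Y (hgt q.1)⁻¹]
        have h5 : 0 ≤ kl U (hgt q.1) * (C1 * P07318h.pk k) ^ 2 := by positivity
        calc kl U (hgt q.1) * (L * (hgt q.1)⁻¹ + 1) * (C1 * P07318h.pk k) ^ 2 =
              kl U (hgt q.1) * (C1 * P07318h.pk k) ^ 2 * (L * (hgt q.1)⁻¹ + 1) := by ring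
          _ ≤ kl U (hgt q.1) * (C1 * P07318h.pk k) ^ 2 * ((L + Y) * (hgt q.1)⁻¹) :=
              mul_le_mul_of_nonneg_left h3 h5
          _ = P07318h.pk k ^ 2 * (C1 ^ 2 * (L + Y)) * (kl U (hgt q.1) * (hgt q.1)⁻¹) := by ring
    have h2 : ∑' q : Q, ENNReal.ofReal (kl U (hgt q.1) * (L * (hgt q.1)⁻¹ + 1) * Bk Y C1 k q ^ 2) ≤
        ENNReal.ofReal (P07318h.pk k ^ 2 * (C1 ^ 2 * (L + Y))) * ENNReal.ofReal (75 * lo U ^ 3) := by
      refine (ENNReal.tsum_le_tsum hterm).trans ?_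
      rw [ENNReal.tsum_mul_left]
      exact mul_le_mul_right (kl_sum hU) _
    have h7 : 0 ≤ C2 * (1 + Real.log U) ^ 2 := by positivity
    calc ENNReal.ofReal (C2 * (1 + Real.log U) ^ 2) *
          ∑' q : Q, ENNReal.ofReal (kl U (hgt q.1) * (L * (hgt q.1)⁻¹ + 1) * Bk Y C1 k q ^ 2) ≤
          ENNReal.ofReal (C2 * (1 + Real.log U) ^ 2) *
            (ENNReal.ofReal (P07318h.pk k ^ 2 * (C1 ^ 2 * (L + Y))) * ENNReal.ofReal (75 * lo U ^ 3)) :=
          mul_le_mul_right h2 _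
      _ = _ := by
          rw [← ENNReal.ofReal_pow (P07318h.pk_pos k).le, ← ENNReal.ofReal_mul (by positivity),
            ← ENNReal.ofReal_mul (by positivity), ← ENNReal.ofReal_mul (by positivity)]
          congr 1
          ring
  set M : ENNReal := ENNReal.ofReal (C2 * (1 + Real.log U) ^ 2 * (C1 ^ 2 * ((L + Y) * (75 * lo U ^ 3)))) with hM
  have hp0 : ∀ k : ℤ, ENNReal.ofReal (P07318h.pk k) ≠ 0 := fun k => by simpa using P07318h.pk_pos k
  have hp1 : ∀ k : ℤ, ENNReal.ofReal (P07318h.pk k) ≠ ⊤ := fun k => ENNReal.ofReal_ne_top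
  have hPs : ∑' k : ℤ, ENNReal.ofReal (P07318h.pk k) = ENNReal.ofReal P := by
    rw [hP, ENNReal.ofReal_tsum_of_nonneg (fun k => (P07318h.pk_pos k).le) SmallMSAux.pk_summable]
  have hpt : ∀ x ∈ Set.Icc b (b + L), ‖fS Y x‖ₑ ^ 2 ≤
      (∑' k : ℤ, ENNReal.ofReal (P07318h.pk k)) *
        ∑' k : ℤ, (ENNReal.ofReal (P07318h.pk k))⁻¹ * ‖Ak Y ω k x‖ₑ ^ 2 := by
    intro x hx
    have hxU : U ≤ x := hb.trans hx.1
    have hx16 : x ≤ 16 * U := hx.2.trans hbL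
    rw [fS_eq (by linarith)]
    refine le_trans ?_ (LongPartAux.cs (fun k => ENNReal.ofReal (P07318h.pk k)) (fun k => ‖Ak Y ω k x‖ₑ) hp0 hp1)
    exact pow_le_pow_left' (small_bound (Y := Y) (δ := 1 / 4) (by norm_num) (by norm_num) hU hCω4 hω
      fun h hh => hs' h hh x hxU hx16) 2
  calc ∫⁻ x in Set.Icc b (b + L), ‖fS Y x‖ₑ ^ 2 ≤ ∫⁻ x in Set.Icc b (b + L),
        (∑' k : ℤ, ENNReal.ofReal (P07318h.pk k)) *
          ∑' k : ℤ, (ENNReal.ofReal (P07318h.pk k))⁻¹ * ‖Ak Y ω k x‖ₑ ^ 2 :=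
        setLIntegral_mono' measurableSet_Icc hpt
    _ = (∑' k : ℤ, ENNReal.ofReal (P07318h.pk k)) * ∑' k : ℤ, (ENNReal.ofReal (P07318h.pk k))⁻¹ *
          ∫⁻ x in Set.Icc b (b + L), ‖Ak Y ω k x‖ₑ ^ 2 := by
        rw [lintegral_const_mul _ (Measurable.ennreal_tsum fun k => (hAm k).const_mul _),
          lintegral_tsum fun k => ((hAm k).const_mul _).aemeasurable]
        congr 1
        refine tsum_congr fun k => ?_
        rw [lintegral_const_mul _ (hAm k)]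
    _ ≤ (∑' k : ℤ, ENNReal.ofReal (P07318h.pk k)) * ∑' k : ℤ, (ENNReal.ofReal (P07318h.pk k))⁻¹ *
          (ENNReal.ofReal (P07318h.pk k) ^ 2 * M) := by
        gcongr with k
        exact hone k
    _ = (∑' k : ℤ, ENNReal.ofReal (P07318h.pk k)) * ((∑' k : ℤ, ENNReal.ofReal (P07318h.pk k)) * M) := by
        congr 1
        rw [← ENNReal.tsum_mul_right]
        refine tsum_congr fun k => ?_
        rw [sq, ← mul_assoc, ← mul_assoc, ENNReal.inv_mul_cancel (hp0 k) (hp1 k), one_mul]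
    _ = ENNReal.ofReal (P ^ 2 * (C2 * (C1 ^ 2 * 75)) * lo U ^ 5 * (L + Y)) := by
        rw [hPs, hM, ← ENNReal.ofReal_mul hP0, ← ENNReal.ofReal_mul hP0]
        congr 1
        unfold lo
        ring
    _ ≤ ENNReal.ofReal ((P ^ 2 * (C2 * (C1 ^ 2 * 75)) + 1) * lo U ^ 5 * (L + Y)) := by
        apply ENNReal.ofReal_le_ofReal
        gcongr
        linarith

end Pool.Agent.P07318t
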