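import Pool.Agent.Lib.P07318t.WinBigL
import Pool.Agent.Lib.P07318h.TailD

/-!
# The diagonal terms with a large height, in mean square over the box, precise to powers of the logarithm

PROOF. As P07318h/TailD.lean, with `sepL`, `wlsL`, `om_kl` instead of the forms with `U^δ`; the weights `rq n δ q` are used with `δ = 1/(1 + log (2U))`, `kl (2U) h ≤ 3 (1 + log (2U)) h^(-δ)`.
The only input not proved here is the bound `∑' q, (rq n s q)² ≤ C s^(-e)` for `0 < s ≤ 1` (hypothesis of `tail_dL_of`).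
-/

set_option autoImplicit false

namespace Pool.Agent.P07318t

open MeasureTheory Complex Pool.Agent.P07318s Pool.Agent.P07318f Pool.Agent.P07318h Pool.Agent.P07318o

namespace TailDLAux

open TailDAux

theorem kl_rpow {U h : ℝ} (hU : 1 ≤ U) (hh : 1 ≤ h) :
    kl U h ≤ 3 * (1 + Real.log U) * h ^ (-(1 / (1 + Real.log U)) : ℝ) := by
  have hU0 : 0 < U := by linarith
  have hh0 : 0 < h := by linarith
  have hl : 0 ≤ Real.log U := Real.log_nonneg hU
  have hl1 : 0 < 1 + Real.log U := by linarith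
  set s : ℝ := 1 / (1 + Real.log U) with hs
  have hs0 : 0 < s := by positivity
  have hs1 : s ≤ 1 := by
    rw [hs, div_le_one hl1]
    linarith
  have he : U ^ s ≤ 3 := by
    rw [Real.rpow_def_of_pos hU0]
    have h1 : Real.log U * s ≤ 1 := by
      rw [hs, mul_one_div, div_le_one hl1]
      linarith
    have h2 := Real.exp_one_lt_d9
    calc Real.exp (Real.log U * s) ≤ Real.exp 1 := Real.exp_le_exp.2 h1
      _ ≤ 3 := by linarith
  have hneg : h ^ (-s : ℝ) = (h ^ s)⁻¹ := Real.rpow_neg hh0.le s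
  have hp : 0 < h ^ s := by positivity
  rw [hneg, ← div_eq_mul_inv, le_div_iff₀ hp]
  rcases le_or_gt h U with hc | hc
  · have h1 : h ^ s ≤ 3 := (Real.rpow_le_rpow hh0.le hc hs0.le).trans he
    have h2 := kl_le hU hh
    have h3 := kl_nonneg hU hh0
    nlinarith
  · have hk : kl U h = (U / h) ^ 2 := by
      unfold kl
      rw [if_neg (not_le.2 hc)]
    have h4 : U / h ≤ 1 := (div_le_one hh0).2 hc.le
    have h5 : (U / h) ^ 2 ≤ (U / h) ^ s := by
      rw [← Real.rpow_two]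
      exact Real.rpow_le_rpow_of_exponent_ge (by positivity) h4 (by linarith)
    rw [hk]
    calc (U / h) ^ 2 * h ^ s ≤ (U / h) ^ s * h ^ s := mul_le_mul_of_nonneg_right h5 hp.le
      _ = U ^ s := by rw [← Real.mul_rpow (by positivity) hh0.le, div_mul_cancel₀ _ hh0.ne']
      _ ≤ 3 := he
      _ ≤ 3 * (1 + Real.log U) := by linarith

theorem ps_boundL {n : ℕ} {Co U : ℝ} (hU : 1 ≤ U) (hCo : 0 < Co)
    (hOm : ∀ h x : ℝ, 1 ≤ h → U ≤ x → x ≤ 4 * U → Om h x ≤ Co * kl U h)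
    (P : (Fin n → Q) → Prop) (q : Q) (y : Fin n → ℝ) (hy : ∀ j, U ≤ y j ∧ y j ≤ 4 * U)
    (hP : ∀ p, P p → lgr q.1 + ∑ j, lgr (p j).1 = 0) :
    ‖PS P y‖ₑ ≤ ENNReal.ofReal ((Co * (3 * (1 + Real.log U))) ^ n) * rq n (1 / (1 + Real.log U)) q := by
  have hU0 : 0 < U := by linarith
  have hl : 0 ≤ Real.log U := Real.log_nonneg hU
  set s : ℝ := 1 / (1 + Real.log U) with hs
  unfold PS rq
  refine enorm_tsum_le_tsum_enorm.trans ?_
  rw [← ENNReal.tsum_mul_left]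
  refine ENNReal.tsum_le_tsum fun p => ?_
  unfold pt
  by_cases h : P p
  · rw [if_pos h, if_pos (hP p h), ← ofReal_norm, ← ENNReal.ofReal_mul (by positivity)]
    refine ENNReal.ofReal_le_ofReal ?_
    rw [norm_prod]
    have e : (Co * (3 * (1 + Real.log U))) ^ n * ∏ j, (hgt (p j).1) ^ (-(1 / 2) - s : ℝ) =
        ∏ j : Fin n, (Co * (3 * (1 + Real.log U)) * (hgt (p j).1) ^ (-(1 / 2) - s : ℝ)) := by
      rw [Finset.prod_mul_distrib, Finset.prod_const, Finset.card_univ, Fintype.card_fin]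
    rw [e]
    refine Finset.prod_le_prod (fun j _ => norm_nonneg _) fun j _ => ?_
    rw [tm_norm]
    have hh := hgt_pos (p j).1
    have h1 := hOm (hgt (p j).1) (y j) (one_le_hgt _) (hy j).1 (hy j).2
    have h2 := kl_rpow hU (one_le_hgt (p j).1)
    calc (hgt (p j).1) ^ (-(1 / 2) : ℝ) * Om (hgt (p j).1) (y j)
        ≤ (hgt (p j).1) ^ (-(1 / 2) : ℝ) * (Co * (3 * (1 + Real.log U) * (hgt (p j).1) ^ (-s : ℝ))) := by
          refine mul_le_mul_of_nonneg_left (h1.trans ?_) (Real.rpow_nonneg hh.le _)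
          exact mul_le_mul_of_nonneg_left h2 hCo.le
      _ = Co * (3 * (1 + Real.log U)) * (hgt (p j).1) ^ (-(1 / 2) - s : ℝ) := by
          rw [sub_eq_add_neg, Real.rpow_add hh]
          ring
  · rw [if_neg h, enorm_zero]
    exact zero_le

theorem keyL {n : ℕ} {δ U H b Y t K Cf Cw Cr : ℝ} (hU : 1 ≤ U) (hH : 0 < H)
    (hY : 1 ≤ Y) (hK : 0 ≤ K) (hCf : 0 < Cf) (hCw : 0 < Cw) (hCr : 0 < Cr) (ω : ℤ → ℝ → ℂ)
    (hω1 : ∀ (k : ℤ) (h : ℝ), 1 ≤ h → ‖ω k h‖ ≤ Cf * pk k * kl U h)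
    (hω2 : ∀ h : ℝ, 1 ≤ h → ∀ x : ℝ, U ≤ x → x ≤ 16 * U →
      HasSum (fun k : ℤ => ω k h * ek U k x) (Om h x : ℂ))
    (hw : ∀ (c : Q → ℂ) (B : Q → ℝ) (B₀ : ℝ), (∀ q, 0 ≤ B q) → (∀ q, B q ≤ B₀) →
      (∀ q, ‖c q‖ ≤ kl U (hgt q.1) * (hgt q.1) ^ (-(1 / 2) : ℝ) * B q) →
      (Summable fun q : Q => ‖c q‖) ∧
      ∫⁻ h in Set.Icc b (b + H), ‖∑' q : Q, c q * ex h q.1‖ₑ ^ 2 ≤
        ENNReal.ofReal (Cw * (1 + Real.log U) ^ 2) *
          ∑' q : Q, ENNReal.ofReal (kl U (hgt q.1) * (H * (hgt q.1)⁻¹ + 1) * B q ^ 2))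
    (hr : ∑' q : Q, (rq n δ q) ^ 2 ≤ ENNReal.ofReal Cr)
    (hb : U ≤ t + b) (hb' : t + (b + H) ≤ 16 * U)
    (E : Q → ℂ) (hE : ∀ q, ‖E q‖ₑ ≤ ENNReal.ofReal K * rq n δ q) (hE0 : ∀ q, ¬ Y < hgt q.1 → E q = 0) :
    ∫⁻ u in Set.Icc b (b + H), ‖∑' q : Q, tm (t + u) q * E q‖ₑ ≤
      ENNReal.ofReal (Cf * (∑' k, pk k) * √(H * (Cw * (1 + Real.log U) ^ 3 * (H / Y + 1) * K ^ 2 * Cr))) := by
  classical
  have hU0 : 0 < U := by linarith
  have hY0 : 0 < Y := by linarith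
  have hl : 0 ≤ Real.log U := Real.log_nonneg hU
  set R : Q → ℝ := fun q => (rq n δ q).toReal with hRdef
  have hR0 : ∀ q, 0 ≤ R q := fun q => ENNReal.toReal_nonneg
  have hRe : ∀ q, ENNReal.ofReal (R q) = rq n δ q := fun q => ENNReal.ofReal_toReal (rq_ne_top hr q)
  set B : Q → ℝ := fun q => if Y < hgt q.1 then K * R q else 0 with hBdef
  have hB0 : ∀ q, 0 ≤ B q := by
    intro q
    rw [hBdef]
    dsimp only
    split_ifs
    · exact mul_nonneg hK (hR0 q)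
    · exact le_rfl
  have hBb : ∀ q, B q ≤ K * √Cr := by
    intro q
    rw [hBdef]
    dsimp only
    split_ifs
    · exact mul_le_mul_of_nonneg_left (rq_toReal_le hCr.le hr q) hK
    · positivity
  have hEB : ∀ q, ‖E q‖ ≤ B q := by
    intro q
    rw [hBdef]
    dsimp only
    split_ifs with h
    · have h1 := hE q
      rw [← hRe q, ← ofReal_norm, ← ENNReal.ofReal_mul hK] at h1
      exact (ENNReal.ofReal_le_ofReal_iff (mul_nonneg hK (hR0 q))).1 h1
    · rw [hE0 q h, norm_zero]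
  have hA0 : ∀ q : Q, 0 ≤ kl U (hgt q.1) * (hgt q.1) ^ (-(1 / 2) : ℝ) := fun q =>
    mul_nonneg (kl_nonneg hU (hgt_pos q.1)) (Real.rpow_nonneg (hgt_pos q.1).le _)
  set A : Q → ℝ := fun q => kl U (hgt q.1) * (hgt q.1) ^ (-(1 / 2) : ℝ) * B q with hAdef
  have hAn : ∀ q, 0 ≤ A q := fun q => mul_nonneg (hA0 q) (hB0 q)
  have hAs : Summable A := by
    have h1 := (hw (fun q => (A q : ℂ)) B (K * √Cr) hB0 hBb (fun q => by
      rw [Complex.norm_real, Real.norm_of_nonneg (hAn q)])).1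
    refine h1.congr fun q => ?_
    rw [Complex.norm_real, Real.norm_of_nonneg (hAn q)]
  set c : ℤ → Q → ℂ := fun k q =>
    (((hgt q.1) ^ (-(1 / 2) : ℝ) : ℝ) : ℂ) * ω k (hgt q.1) * E q * ex t q.1 with hcdef
  have hc : ∀ k q, ‖c k q‖ ≤ kl U (hgt q.1) * (hgt q.1) ^ (-(1 / 2) : ℝ) * (Cf * pk k * B q) := by
    intro k q
    rw [hcdef]
    dsimp only
    have hh := Real.rpow_nonneg (hgt_pos q.1).le (-(1 / 2) : ℝ)
    rw [norm_mul, norm_mul, norm_mul, norm_ex, mul_one, Complex.norm_real, Real.norm_of_nonneg hh]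
    have h1 := hω1 k (hgt q.1) (one_le_hgt q.1)
    calc (hgt q.1) ^ (-(1 / 2) : ℝ) * ‖ω k (hgt q.1)‖ * ‖E q‖
        ≤ (hgt q.1) ^ (-(1 / 2) : ℝ) * (Cf * pk k * kl U (hgt q.1)) * B q := by
          refine mul_le_mul (mul_le_mul_of_nonneg_left h1 hh) (hEB q) (norm_nonneg _) ?_
          exact mul_nonneg hh (mul_nonneg (mul_nonneg hCf.le (pk_pos k).le) (kl_nonneg hU (hgt_pos q.1)))
      _ = _ := by ring
  have hps : Summable pk := LongPartAux.pk_summable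
  set S : ℤ → ℝ → ℂ := fun k u => ∑' q : Q, c k q * ex u q.1 with hSdef
  have hcs : ∀ k, Summable fun q => ‖c k q‖ := fun k =>
    (hw (c k) (fun q => Cf * pk k * B q) (Cf * pk k * (K * √Cr))
      (fun q => mul_nonneg (mul_nonneg hCf.le (pk_pos k).le) (hB0 q))
      (fun q => mul_le_mul_of_nonneg_left (hBb q) (mul_nonneg hCf.le (pk_pos k).le)) (hc k)).1
  have hScont : ∀ k, Continuous (S k) := by
    intro k
    rw [hSdef]
    refine continuous_tsum (u := fun q => ‖c k q‖) (fun q => ?_) (hcs k) (fun q u => ?_)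
    · exact continuous_const.mul (LongPartAux.ex_cont q.1)
    · rw [norm_mul, norm_ex, mul_one]
  -- pointwise bound
  have hpt : ∀ u ∈ Set.Icc b (b + H), ‖∑' q : Q, tm (t + u) q * E q‖ₑ ≤ ∑' k : ℤ, ‖S k u‖ₑ := by
    intro u hu
    have hsum : Summable fun z : Q × ℤ => c z.2 z.1 * (ek U z.2 (t + u) * ex u z.1.1) := by
      have h1 : Summable fun z : Q × ℤ => A z.1 * (Cf * pk z.2) :=
        Summable.mul_of_nonneg hAs (hps.mul_left Cf) hAn fun k => mul_nonneg hCf.le (pk_pos k).le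
      refine Summable.of_norm_bounded h1 fun z => ?_
      rw [norm_chr]
      refine (hc z.2 z.1).trans (le_of_eq ?_)
      rw [hAdef]
      ring
    have hfib : ∀ q : Q, HasSum (fun k : ℤ => c k q * (ek U k (t + u) * ex u q.1)) (tm (t + u) q * E q) := by
      intro q
      have h1 := hω2 (hgt q.1) (one_le_hgt q.1) (t + u) (by linarith [hu.1]) (by linarith [hu.2])
      have h2 := h1.mul_left ((((hgt q.1) ^ (-(1 / 2) : ℝ) : ℝ) : ℂ) * E q * ex t q.1 * ex u q.1)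
      have e1 : (((hgt q.1) ^ (-(1 / 2) : ℝ) : ℝ) : ℂ) * E q * ex t q.1 * ex u q.1 * (Om (hgt q.1) (t + u) : ℂ) =
          tm (t + u) q * E q := by
        unfold tm
        rw [lgr_add_aux]
        push_cast
        ring
      rw [e1] at h2
      refine h2.congr_fun ?_
      intro k
      rw [hcdef]
      ring
    have h2 := hsum.hasSum.prod_fiberwise hfib
    have h3 : HasSum (fun z : ℤ × Q => c z.1 z.2 * (ek U z.1 (t + u) * ex u z.2.1))
        (∑' z : Q × ℤ, c z.2 z.1 * (ek U z.2 (t + u) * ex u z.1.1)) :=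
      (Equiv.prodComm ℤ Q).hasSum_iff.2 hsum.hasSum
    have hfib2 : ∀ k : ℤ, HasSum (fun q : Q => c k q * (ek U k (t + u) * ex u q.1)) (ek U k (t + u) * S k u) := by
      intro k
      have hs2 : Summable fun q : Q => c k q * ex u q.1 := by
        refine Summable.of_norm_bounded (hcs k) fun q => ?_
        rw [norm_mul, norm_ex, mul_one]
      have h4 := hs2.hasSum.mul_left (ek U k (t + u))
      refine h4.congr_fun ?_
      intro q
      ring
    have h5 := h3.prod_fiberwise hfib2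
    rw [h2.tsum_eq, ← h5.tsum_eq]
    refine enorm_tsum_le_tsum_enorm.trans (le_of_eq ?_)
    refine tsum_congr fun k => ?_
    rw [enorm_mul]
    have h6 : ‖ek U k (t + u)‖ₑ = 1 := by
      rw [← ofReal_norm, norm_ek, ENNReal.ofReal_one]
    rw [h6, one_mul]
  -- the large sieve for one character
  set M : ℝ := Cw * (1 + Real.log U) ^ 3 * (H / Y + 1) * K ^ 2 * Cr with hMdef
  have hM0 : 0 ≤ M := by positivity
  have hS2 : ∀ k, ∫⁻ u in Set.Icc b (b + H), ‖S k u‖ₑ ^ 2 ≤ ENNReal.ofReal ((Cf * pk k) ^ 2 * M) := by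
    intro k
    have h1 := (hw (c k) (fun q => Cf * pk k * B q) (Cf * pk k * (K * √Cr))
      (fun q => mul_nonneg (mul_nonneg hCf.le (pk_pos k).le) (hB0 q))
      (fun q => mul_le_mul_of_nonneg_left (hBb q) (mul_nonneg hCf.le (pk_pos k).le)) (hc k)).2
    refine h1.trans ?_
    have h2 : ∑' q : Q, ENNReal.ofReal (kl U (hgt q.1) * (H * (hgt q.1)⁻¹ + 1) * (Cf * pk k * B q) ^ 2) ≤
        ENNReal.ofReal ((1 + Real.log U) * (H / Y + 1) * (Cf * pk k) ^ 2 * K ^ 2) * ENNReal.ofReal Cr := by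
      refine le_trans ?_ (mul_le_mul' le_rfl hr)
      rw [← ENNReal.tsum_mul_left]
      refine ENNReal.tsum_le_tsum fun q => ?_
      rw [← hRe q, ← ENNReal.ofReal_pow (hR0 q), ← ENNReal.ofReal_mul (by positivity)]
      refine ENNReal.ofReal_le_ofReal ?_
      have hh := hgt_pos q.1
      have hh1 := one_le_hgt q.1
      rw [hBdef]
      dsimp only
      split_ifs with h
      · have h3 : kl U (hgt q.1) ≤ 1 + Real.log U := kl_le hU hh1
        have h4 : H * (hgt q.1)⁻¹ + 1 ≤ H / Y + 1 := by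
          have : H * (hgt q.1)⁻¹ ≤ H / Y := by
            rw [div_eq_mul_inv]
            exact mul_le_mul_of_nonneg_left (inv_anti₀ hY0 h.le) hH.le
          linarith
        calc kl U (hgt q.1) * (H * (hgt q.1)⁻¹ + 1) * (Cf * pk k * (K * R q)) ^ 2
            ≤ (1 + Real.log U) * (H / Y + 1) * (Cf * pk k * (K * R q)) ^ 2 := by
              refine mul_le_mul_of_nonneg_right ?_ (sq_nonneg _)
              exact mul_le_mul h3 h4 (by positivity) (by positivity)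
          _ = _ := by ring
      · rw [mul_zero, zero_pow (by norm_num), mul_zero]
        have := pk_pos k
        have := hR0 q
        positivity
    refine (mul_le_mul' le_rfl h2).trans ?_
    rw [← ENNReal.ofReal_mul (by positivity), ← ENNReal.ofReal_mul (by positivity)]
    refine ENNReal.ofReal_le_ofReal (le_of_eq ?_)
    rw [hMdef]
    ring
  have hS1 : ∀ k, ∫⁻ u in Set.Icc b (b + H), ‖S k u‖ₑ ≤ ENNReal.ofReal (Cf * pk k * √(H * M)) := by
    intro k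
    have h1 := cs_int (f := fun u => ‖S k u‖ₑ) (hScont k).measurable.enorm hH.le
      (by positivity : 0 ≤ (Cf * pk k) ^ 2 * M) (hS2 k)
    refine h1.trans (ENNReal.ofReal_le_ofReal (le_of_eq ?_))
    have h2 : 0 ≤ Cf * pk k := mul_nonneg hCf.le (pk_pos k).le
    rw [show H * ((Cf * pk k) ^ 2 * M) = (Cf * pk k) ^ 2 * (H * M) by ring, Real.sqrt_mul (sq_nonneg _),
      Real.sqrt_sq h2]
  calc ∫⁻ u in Set.Icc b (b + H), ‖∑' q : Q, tm (t + u) q * E q‖ₑ
      ≤ ∫⁻ u in Set.Icc b (b + H), ∑' k : ℤ, ‖S k u‖ₑ := by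
        refine setLIntegral_mono' measurableSet_Icc fun u hu => hpt u hu
    _ = ∑' k : ℤ, ∫⁻ u in Set.Icc b (b + H), ‖S k u‖ₑ :=
        lintegral_tsum fun k => (hScont k).measurable.enorm.aemeasurable
    _ ≤ ∑' k : ℤ, ENNReal.ofReal (Cf * pk k * √(H * M)) := ENNReal.tsum_le_tsum hS1
    _ = ENNReal.ofReal (∑' k : ℤ, Cf * pk k * √(H * M)) := by
        rw [ENNReal.ofReal_tsum_of_nonneg (fun k => ?_) ((hps.mul_left Cf).mul_right _)]
        have := pk_pos k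
        positivity
    _ = ENNReal.ofReal (Cf * (∑' k, pk k) * √(H * M)) := by
        rw [tsum_mul_right, tsum_mul_left]



theorem sqrt_bd {n e : ℕ} {Cw C Co H Y ℓ : ℝ} (hCw : 0 < Cw) (hC : 0 < C) (hCo : 0 < Co) (hH : 0 < H)
    (hY : 0 < Y) (hℓ : 1 ≤ ℓ) :
    √(H * (Cw * ℓ ^ 3 * (H / Y + 1) * ((Co * (3 * ℓ)) ^ n) ^ 2 * (C * ℓ ^ e))) ≤
      √(Cw * C) * H * (Co * 3) ^ n * (ℓ ^ (n + e + 2) * (1 / Y + 1 / H) ^ (1 / 2 : ℝ)) := by
  have hs : 0 ≤ 1 / Y + 1 / H := by positivity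
  have hℓ0 : 0 < ℓ := by linarith
  have e1 : H * (Cw * ℓ ^ 3 * (H / Y + 1) * ((Co * (3 * ℓ)) ^ n) ^ 2 * (C * ℓ ^ e)) =
      (Cw * C) * ((H * ((Co * 3) ^ n * ℓ ^ n)) ^ 2 * ((1 / Y + 1 / H) * ℓ ^ (e + 3))) := by
    have e2 : (Co * (3 * ℓ)) ^ n = (Co * 3) ^ n * ℓ ^ n := by rw [← mul_assoc, mul_pow]
    rw [e2, pow_add ℓ e 3]
    field_simp
  have h1 : ℓ ^ (e + 3) ≤ (ℓ ^ (e + 2)) ^ 2 := by
    rw [← pow_mul]
    exact pow_le_pow_right₀ hℓ (by omega)
  calc √(H * (Cw * ℓ ^ 3 * (H / Y + 1) * ((Co * (3 * ℓ)) ^ n) ^ 2 * (C * ℓ ^ e)))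
      = √((Cw * C) * ((H * ((Co * 3) ^ n * ℓ ^ n)) ^ 2 * ((1 / Y + 1 / H) * ℓ ^ (e + 3)))) := by rw [e1]
    _ ≤ √((Cw * C) * ((H * ((Co * 3) ^ n * ℓ ^ n)) ^ 2 * ((1 / Y + 1 / H) * (ℓ ^ (e + 2)) ^ 2))) := by
        refine Real.sqrt_le_sqrt ?_
        gcongr
    _ = √((Cw * C) * ((H * ((Co * 3) ^ n * ℓ ^ n) * ℓ ^ (e + 2)) ^ 2 * (1 / Y + 1 / H))) := by
        congr 1
        ring
    _ = √(Cw * C) * (H * ((Co * 3) ^ n * ℓ ^ n) * ℓ ^ (e + 2) * √(1 / Y + 1 / H)) := by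
        rw [Real.sqrt_mul (by positivity), Real.sqrt_mul (sq_nonneg _), Real.sqrt_sq (by positivity)]
    _ = √(Cw * C) * H * (Co * 3) ^ n * (ℓ ^ (n + e + 2) * (1 / Y + 1 / H) ^ (1 / 2 : ℝ)) := by
        rw [← Real.sqrt_eq_rpow, show n + e + 2 = n + (e + 2) by omega, pow_add ℓ n (e + 2)]
        ring

end TailDLAux

/-- the bound for the weights -/
def RqB (n e : ℕ) : Prop := ∃ C : ℝ, 0 < C ∧ ∀ s : ℝ, 0 < s → s ≤ 1 →
  ∑' q : Q, (rq n s q) ^ 2 ≤ ENNReal.ofReal (C * (1 / s) ^ e)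

theorem tail_dL_of (n e : ℕ) (hrq : RqB n e) : ∃ C : ℝ, 0 < C ∧
    ∀ (U Y H α : ℝ) (β : Fin n → ℝ), 1 ≤ U → 1 ≤ Y → 0 < H → H ≤ U → 2 * U ≤ α → α ≤ 5 * U →
    (∀ j, 2 * U ≤ β j) → (∀ j, β j ≤ 5 * U) →
    ∃ B : (Fin n → ℝ) → ENNReal, Measurable B ∧
      (∀ h ∈ Set.Icc β (fun j => β j + H),
        ∫⁻ t in Set.Icc 0 (2 * U), ‖Dg (sh α h t) - DgY Y (sh α h t)‖ₑ ≤ B h) ∧
      ∫⁻ h in Set.Icc β (fun j => β j + H), B h ≤
        ENNReal.ofReal (C * (H ^ n * (U * (1 + Real.log U) ^ (n + e + 2) * (1 / Y + 1 / H) ^ (1 / 2 : ℝ)))) := by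
  classical
  obtain ⟨Cw, hCw, hw⟩ := wlsL
  obtain ⟨Cr, hCr, hr⟩ := hrq
  obtain ⟨Cf, hCf, hf⟩ := sepL
  obtain ⟨Co, hCo, hOm⟩ := om_kl
  have hP : 0 ≤ ∑' k, pk k := tsum_nonneg fun k => (pk_pos k).le
  set A : ℝ := Cf * (∑' k, pk k) * √(Cw * Cr) * (Co * 3) ^ n * 2 ^ (n + e + 2) with hAdef
  have hA0 : 0 ≤ A := by positivity
  refine ⟨2 * n * A + 1, by positivity, ?_⟩
  intro U Y H α β hU hY hH hHU hα1 hα2 hβ1 hβ2
  have hU0 : 0 < U := by linarith
  have hV1 : (1 : ℝ) ≤ 2 * U := by linarith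
  have hV0 : (0 : ℝ) < 2 * U := by linarith
  have hY0 : 0 < Y := by linarith
  have hlU : 0 ≤ Real.log U := Real.log_nonneg hU
  have hlV : 0 ≤ Real.log (2 * U) := Real.log_nonneg hV1
  set ℓ : ℝ := 1 + Real.log (2 * U) with hℓdef
  have hℓ1 : 1 ≤ ℓ := by linarith
  have hℓ0 : 0 < ℓ := by linarith
  have hℓ2 : ℓ ≤ 2 * (1 + Real.log U) := by
    rw [hℓdef, Real.log_mul (by norm_num) hU0.ne']
    have := Real.log_two_lt_d9
    linarith
  set s : ℝ := 1 / ℓ with hsdef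
  have hs0 : 0 < s := by positivity
  have hs1 : s ≤ 1 := by
    rw [hsdef, div_le_one hℓ0]
    exact hℓ1
  have hrs : ∑' q : Q, (rq n s q) ^ 2 ≤ ENNReal.ofReal (Cr * ℓ ^ e) := by
    have h1 := hr s hs0 hs1
    rw [hsdef, one_div_one_div] at h1
    exact h1
  have hCrs : 0 < Cr * ℓ ^ e := by positivity
  obtain ⟨ω, hω1, hω2⟩ := hf (2 * U) hV1
  obtain ⟨F, hFdef⟩ : ∃ F : Fin n → ℝ → (Fin n → ℝ) → ENNReal,
      F = fun r t h => ‖TailDAux.PS (TailDAux.Pr Y r) (TailDAux.mx α h t)‖ₑ := ⟨_, rfl⟩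
  have hFm : ∀ r, Measurable fun z : ℝ × (Fin n → ℝ) => F r z.1 z.2 := by
    intro r
    rw [hFdef]
    exact (TailDAux.f_cont α (TailDAux.Pr Y r)).measurable.enorm
  have hFm' : ∀ r t, Measurable fun h : Fin n → ℝ => F r t h := fun r t =>
    Measurable.of_uncurry_left (f := F r) (x := t) (hFm r)
  have hGm : Measurable fun z : ℝ × (Fin n → ℝ) => ∑ r, F r z.1 z.2 :=
    Finset.measurable_fun_sum _ fun r _ => hFm r
  have hbd : ∀ t ∈ Set.Icc 0 (2 * U), ∀ h ∈ Set.Icc β (fun j => β j + H), ∀ j,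
      2 * U ≤ sh α h t j ∧ sh α h t j ≤ 4 * (2 * U) := fun t ht h hh j =>
    TailDAux.sh_bd hHU hα1 hα2 hβ1 hβ2 ht hh j
  have hmx : ∀ t ∈ Set.Icc 0 (2 * U), ∀ h ∈ Set.Icc β (fun j => β j + H),
      TailDAux.mx α h t = sh α h t := fun t ht h hh =>
    TailDAux.mx_eq fun j => by linarith [(hbd t ht h hh j).1]
  set K : ℝ := (Co * (3 * ℓ)) ^ n with hKdef
  have hK0 : 0 ≤ K := by positivity
  set L : ℝ := A * H ^ n * ((1 + Real.log U) ^ (n + e + 2) * (1 / Y + 1 / H) ^ (1 / 2 : ℝ)) with hLdef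
  have hs : 0 ≤ 1 / Y + 1 / H := by positivity
  have hL0 : 0 ≤ L := by positivity
  have hone : ∀ r : Fin n, ∀ t ∈ Set.Icc 0 (2 * U), ∀ h ∈ Set.Icc β (fun j => β j + H),
      ∫⁻ u in Set.Icc (β r) (β r + H), F r t (Function.update h r u) ≤
        ENNReal.ofReal (Cf * (∑' k, pk k) *
          √(H * (Cw * ℓ ^ 3 * (H / Y + 1) * K ^ 2 * (Cr * ℓ ^ e)))) := by
    intro r t ht h hh
    set y : Fin n → ℝ := fun j => sh α h t (r.succ.succAbove j) with hydef
    set E : Q → ℂ := fun q => TailDAux.PS (fun p : Fin n → Q =>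
      TailDAux.Pr Y r (Fin.insertNthEquiv (fun _ => Q) r.succ (q, p))) y with hEdef
    have hFE : ∀ u ∈ Set.Icc (β r) (β r + H), F r t (Function.update h r u) =
        ‖∑' q : Q, TailDAux.tm (t + u) q * E q‖ₑ := by
      intro u hu
      have hm := TailDAux.upd_mem hh hu
      rw [hFdef]
      dsimp only
      rw [hmx t ht _ hm, TailDAux.ps_split r.succ (TailDAux.Pr Y r) _
        (fun j => by linarith [(hbd t ht _ hm j).1])]
      have e1 : sh α (Function.update h r u) t r.succ = t + u := by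
        rw [sh_succ, Function.update_self]
      have e2 : (fun j => sh α (Function.update h r u) t (r.succ.succAbove j)) = y := by
        funext j
        exact TailDAux.sh_update α t u h r _ (Fin.succAbove_ne _ _)
      rw [e1, e2]
    rw [setLIntegral_congr_fun measurableSet_Icc hFE]
    have hβr1 := hβ1 r
    have hβr2 := hβ2 r
    have ht1 := ht.1
    have ht2 := ht.2
    refine TailDLAux.keyL (δ := s) hV1 hH hY hK0 hCf hCw hCrs ω (fun k h hh => hω1 k h hh)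
      (fun h hh x h1 h2 => hω2 h hh x h1 h2)
      (fun c B B₀ h1 h2 h3 => hw (2 * U) H (β r) hV1 hH.le c B B₀ h1 h2 h3) hrs
      (by linarith) (by linarith) E ?_ ?_
    · intro q
      rw [hEdef]
      refine TailDLAux.ps_boundL hV1 hCo
        (fun h x hh h1 h2 => hOm (2 * U) h x hV1 hh h1 (by linarith)) _ q y (fun j => hbd t ht h hh _) ?_
      intro p hp
      have h1 := hp.1
      unfold lam at h1
      rw [Fin.sum_univ_succAbove _ r.succ] at h1
      simpa [Fin.insertNthEquiv] using h1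
    · intro q hq
      rw [hEdef]
      dsimp only
      unfold TailDAux.PS TailDAux.pt
      have h1 : ∀ p : Fin n → Q, ¬ TailDAux.Pr Y r (Fin.insertNthEquiv (fun _ => Q) r.succ (q, p)) := by
        intro p hp
        have h2 := hp.2.1
        simp only [Fin.insertNthEquiv_apply, Fin.insertNth_apply_same] at h2
        exact hq h2
      simp only [if_neg (h1 _), tsum_zero]
  have hval : ∀ r : Fin n, ENNReal.ofReal (Cf * (∑' k, pk k) *
      √(H * (Cw * ℓ ^ 3 * (H / Y + 1) * K ^ 2 * (Cr * ℓ ^ e)))) * ENNReal.ofReal (H ^ (n - 1)) ≤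
        ENNReal.ofReal L := by
    intro r
    have hn : n ≠ 0 := r.pos.ne'
    rw [← ENNReal.ofReal_mul (by positivity)]
    refine ENNReal.ofReal_le_ofReal ?_
    have h0 := TailDLAux.sqrt_bd (n := n) (e := e) hCw hCr hCo hH hY0 hℓ1
    rw [hKdef, hLdef, hAdef]
    have h1 : ℓ ^ (n + e + 2) ≤ 2 ^ (n + e + 2) * (1 + Real.log U) ^ (n + e + 2) := by
      rw [← mul_pow]
      exact pow_le_pow_left₀ hℓ0.le hℓ2 _
    have h2 : H ^ n = H * H ^ (n - 1) := (mul_pow_sub_one hn H).symm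
    calc Cf * (∑' k, pk k) * √(H * (Cw * ℓ ^ 3 * (H / Y + 1) * ((Co * (3 * ℓ)) ^ n) ^ 2 * (Cr * ℓ ^ e))) *
          H ^ (n - 1)
        ≤ Cf * (∑' k, pk k) * (√(Cw * Cr) * H * (Co * 3) ^ n *
          (ℓ ^ (n + e + 2) * (1 / Y + 1 / H) ^ (1 / 2 : ℝ))) * H ^ (n - 1) := by
          gcongr
      _ ≤ Cf * (∑' k, pk k) * (√(Cw * Cr) * H * (Co * 3) ^ n *
          ((2 ^ (n + e + 2) * (1 + Real.log U) ^ (n + e + 2)) * (1 / Y + 1 / H) ^ (1 / 2 : ℝ))) *
            H ^ (n - 1) := by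
          gcongr
      _ = _ := by rw [h2]; ring
  have hbox : ∀ r : Fin n, ∀ t ∈ Set.Icc 0 (2 * U),
      ∫⁻ h in Set.Icc β (fun j => β j + H), F r t h ≤ ENNReal.ofReal L := by
    intro r t ht
    exact (fub_r r β hH.le (F r t) (hFm' r t) _ (fun h hh => hone r t ht h hh)).trans (hval r)
  refine ⟨fun h => ∫⁻ t in Set.Icc 0 (2 * U), ∑ r, F r t h, ?_, ?_, ?_⟩
  · exact Measurable.lintegral_prod_left' hGm
  · intro h hh
    refine setLIntegral_mono' measurableSet_Icc fun t ht => ?_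
    rw [TailDAux.dg_sub Y (sh α h t) (fun j => by linarith [(hbd t ht h hh j).1])]
    refine (enorm_sum_le _ _).trans (le_of_eq ?_)
    refine Finset.sum_congr rfl fun r _ => ?_
    rw [hFdef]
    dsimp only
    rw [hmx t ht h hh]
  · have hswap : ∫⁻ h in Set.Icc β (fun j => β j + H), ∫⁻ t in Set.Icc 0 (2 * U), ∑ r, F r t h =
        ∫⁻ t in Set.Icc 0 (2 * U), ∫⁻ h in Set.Icc β (fun j => β j + H), ∑ r, F r t h := by
      refine lintegral_lintegral_swap ?_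
      exact (hGm.comp measurable_swap).aemeasurable
    rw [hswap]
    calc ∫⁻ t in Set.Icc 0 (2 * U), ∫⁻ h in Set.Icc β (fun j => β j + H), ∑ r, F r t h
        ≤ ∫⁻ _t in Set.Icc 0 (2 * U), ENNReal.ofReal (n * L) := by
          refine setLIntegral_mono' measurableSet_Icc fun t ht => ?_
          rw [lintegral_finsetSum _ fun r _ => hFm' r t]
          refine (Finset.sum_le_sum fun r _ => hbox r t ht).trans (le_of_eq ?_)
          rw [Finset.sum_const, Finset.card_univ, Fintype.card_fin, nsmul_eq_mul,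
            ENNReal.ofReal_mul (Nat.cast_nonneg n), ENNReal.ofReal_natCast]
      _ = ENNReal.ofReal (n * L) * ENNReal.ofReal (2 * U) := by
          rw [lintegral_const, Measure.restrict_apply_univ, Real.volume_Icc, sub_zero]
      _ ≤ _ := by
          rw [← ENNReal.ofReal_mul (by positivity)]
          refine ENNReal.ofReal_le_ofReal ?_
          rw [hLdef]
          have h3 : 0 ≤ H ^ n * (U * (1 + Real.log U) ^ (n + e + 2) * (1 / Y + 1 / H) ^ (1 / 2 : ℝ)) := by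
            positivity
          nlinarith

end Pool.Agent.P07318t
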