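import Pool.Agent.Lib.P07318t.DualL
import Pool.Agent.Lib.P07318h.Wls

/-!
# Weighted large sieve in short windows, precise to powers of the logarithm

PROOF. Blocks `D_j = {q : 2^j ≤ hgt < 2^(j+1)}`, Cauchy-Schwarz over `j` with the weights `v_j = min(1, U/2^j)`, `∑ v_j ≤ 3 (1 + log U)`; `blkL` with `A = 2^j`, `‖c q‖² ≤ kl² hgt⁻¹ B²`,
`(H + 2^j) hgt⁻¹ ≤ H hgt⁻¹ + 1` and `kl U hgt ≤ (1 + log U) v_j` for `hgt ≥ 2^j`.
-/

set_option autoImplicit false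

namespace Pool.Agent.P07318t

open MeasureTheory Complex Pool.Agent.P07318s Pool.Agent.P07318f Pool.Agent.P07318h Pool.Agent.P07318o

theorem kl_kap {U h : ℝ} (hU : 1 ≤ U) (hh : 0 < h) : kl U h ≤ 4 * kap (1 / 4) U h := by
  have hU0 : 0 < U := by linarith
  unfold kl kap
  split_ifs with h1
  · have h2 : 1 ≤ U / h := (one_le_div hh).2 h1
    have h3 := Real.log_le_rpow_div (x := U / h) (by positivity) (show (0 : ℝ) < 1 / 4 by norm_num)
    have h4 : 1 ≤ (U / h) ^ (1 / 4 : ℝ) := Real.one_le_rpow h2 (by norm_num)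
    have h5 : Real.log ((U / h) ^ (1 / 4 : ℝ)) ≤ (U / h) ^ (1 / 4 : ℝ) - 1 :=
      Real.log_le_sub_one_of_pos (by positivity)
    rw [Real.log_rpow (by positivity)] at h5
    linarith
  · have h2 : (U / h) ^ (2 : ℝ) = (U / h) ^ 2 := Real.rpow_two _
    rw [h2]
    have : 0 ≤ (U / h) ^ 2 := by positivity
    linarith

theorem kl_vj {U h : ℝ} (hU : 1 ≤ U) (j : ℕ) (hh : (2 : ℝ) ^ j ≤ h) :
    kl U h ≤ (1 + Real.log U) * vj U j := by
  have hU0 : 0 < U := by linarith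
  have hl : 0 ≤ Real.log U := Real.log_nonneg hU
  have h2 : (1 : ℝ) ≤ 2 ^ j := one_le_pow₀ (by norm_num)
  have h20 : (0 : ℝ) < 2 ^ j := by positivity
  rcases le_or_gt ((2 : ℝ) ^ j) U with h1 | h1
  · have hv : vj U j = 1 := by
      unfold vj
      rw [min_eq_left ((one_le_div h20).2 h1)]
    rw [hv, mul_one]
    exact kl_le hU (h2.trans hh)
  · have hv : vj U j = U / 2 ^ j := by
      unfold vj
      rw [min_eq_right ((div_le_one h20).2 h1.le)]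
    have hk : kl U h = (U / h) ^ 2 := by
      unfold kl
      rw [if_neg (not_le.2 (lt_of_lt_of_le h1 hh))]
    rw [hv, hk]
    have h3 : U / h ≤ U / 2 ^ j := div_le_div_of_nonneg_left hU0.le h20 hh
    have h4 : U / 2 ^ j ≤ 1 := (div_le_one h20).2 h1.le
    have hh0 : 0 < h := lt_of_lt_of_le h20 hh
    have h5 : 0 ≤ U / h := by positivity
    have h6 : 0 ≤ U / 2 ^ j := by positivity
    nlinarith

theorem cs_vj {U : ℝ} (hU : 0 < U) (a : ℕ → ENNReal) : (∑' j, a j) ^ 2 ≤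
    (∑' j : ℕ, ENNReal.ofReal (vj U j)) * ∑' j : ℕ, ENNReal.ofReal ((vj U j)⁻¹) * a j ^ 2 := by
  have h := cs_tsum (fun j : ℕ => ENNReal.ofReal (√(vj U j)))
    (fun j : ℕ => ENNReal.ofReal (√((vj U j)⁻¹)) * a j)
  have h0 : ∀ j, 0 < vj U j := vj_pos hU
  have h1 : ∀ j : ℕ, ENNReal.ofReal (√(vj U j)) * (ENNReal.ofReal (√((vj U j)⁻¹)) * a j) = a j := by
    intro j
    rw [← mul_assoc, ← ENNReal.ofReal_mul (Real.sqrt_nonneg _), ← Real.sqrt_mul (h0 j).le,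
      mul_inv_cancel₀ (h0 j).ne', Real.sqrt_one, ENNReal.ofReal_one, one_mul]
  have h2 : ∀ j : ℕ, ENNReal.ofReal (√(vj U j)) ^ 2 = ENNReal.ofReal (vj U j) := by
    intro j
    rw [← ENNReal.ofReal_pow (Real.sqrt_nonneg _), Real.sq_sqrt (h0 j).le]
  have h3 : ∀ j : ℕ, (ENNReal.ofReal (√((vj U j)⁻¹)) * a j) ^ 2 =
      ENNReal.ofReal ((vj U j)⁻¹) * a j ^ 2 := by
    intro j
    rw [mul_pow, ← ENNReal.ofReal_pow (Real.sqrt_nonneg _), Real.sq_sqrt (inv_pos.2 (h0 j)).le]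
  simp only [h1, h2, h3] at h
  exact h

open WlsAux Spaced in
theorem wlsL : ∃ C : ℝ, 0 < C ∧ ∀ U H β : ℝ, 1 ≤ U → 0 ≤ H →
    ∀ (c : Q → ℂ) (B : Q → ℝ) (B₀ : ℝ), (∀ q, 0 ≤ B q) → (∀ q, B q ≤ B₀) →
    (∀ q, ‖c q‖ ≤ kl U (hgt q.1) * (hgt q.1) ^ (-(1 / 2) : ℝ) * B q) →
    (Summable fun q : Q => ‖c q‖) ∧
    ∫⁻ h in Set.Icc β (β + H), ‖∑' q : Q, c q * ex h q.1‖ₑ ^ 2 ≤
      ENNReal.ofReal (C * (1 + Real.log U) ^ 2) *
        ∑' q : Q, ENNReal.ofReal (kl U (hgt q.1) * (H * (hgt q.1)⁻¹ + 1) * B q ^ 2) := by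
  obtain ⟨C₀, hC₀, hblk⟩ := blkL
  refine ⟨3 * C₀, by positivity, fun U H β hU hH c B B₀ hB0 hB hc => ?_⟩
  have hU0 : 0 < U := by linarith
  have hl : 0 ≤ Real.log U := Real.log_nonneg hU
  have hv0 : ∀ j, 0 < vj U j := vj_pos hU0
  have hsum : Summable fun q : Q => ‖c q‖ := by
    refine Summable.of_nonneg_of_le (fun q => norm_nonneg _) (fun q => ?_)
      (((ww_summable (δ := 1 / 4) (by norm_num) (by norm_num) hU).mul_left 4).mul_right B₀)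
    refine (hc q).trans ?_
    have h0 : 0 ≤ ww (1 / 4) U q := ww_nonneg (by linarith) q
    have h1 : kl U (hgt q.1) * (hgt q.1) ^ (-(1 / 2) : ℝ) ≤ 4 * ww (1 / 4) U q := by
      unfold ww
      have h2 := kl_kap hU (hgt_pos q.1)
      have h3 : 0 ≤ (hgt q.1) ^ (-(1 / 2) : ℝ) := Real.rpow_nonneg (hgt_pos q.1).le _
      nlinarith
    exact mul_le_mul h1 (hB q) (hB0 q) (by positivity)
  refine ⟨hsum, ?_⟩
  have hpt : ∀ h : ℝ, ‖∑' q : Q, c q * ex h q.1‖ₑ ^ 2 ≤ ENNReal.ofReal (3 * (1 + Real.log U)) *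
      ∑' j : ℕ, ENNReal.ofReal ((vj U j)⁻¹) * ‖∑ q ∈ D j, c q * ex h q.1‖ₑ ^ 2 := by
    intro h
    have hf : Summable fun q : Q => c q * ex h q.1 := by
      refine Summable.of_norm ?_
      refine hsum.congr fun q => ?_
      rw [norm_mul, norm_ex, mul_one]
    rw [tsum_D' hf]
    refine (pow_le_pow_left' enorm_tsum_le_tsum_enorm 2).trans ((cs_vj hU0 _).trans ?_)
    exact mul_le_mul_left (vj_tsum hU) _
  refine (lintegral_mono fun h => hpt h).trans ?_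
  rw [lintegral_const_mul' _ _ ENNReal.ofReal_ne_top, lintegral_tsum]
  swap
  · intro j
    refine Measurable.aemeasurable ?_
    have h1 : Continuous fun h : ℝ => ∑ q ∈ D j, c q * ex h q.1 :=
      continuous_finsetSum _ fun q _ => continuous_const.mul (ex_continuous q.1)
    exact (h1.measurable.enorm.pow_const 2).const_mul _
  have hj : ∀ j : ℕ, ∫⁻ h in Set.Icc β (β + H), ENNReal.ofReal ((vj U j)⁻¹) *
      ‖∑ q ∈ D j, c q * ex h q.1‖ₑ ^ 2 ≤ ∑ q ∈ D j, ENNReal.ofReal (C₀ * (1 + Real.log U)) *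
        ENNReal.ofReal (kl U (hgt q.1) * (H * (hgt q.1)⁻¹ + 1) * B q ^ 2) := by
    intro j
    rw [lintegral_const_mul' _ _ ENNReal.ofReal_ne_top]
    have hA1 : (1 : ℝ) ≤ 2 ^ j := one_le_pow₀ (by norm_num)
    have h1 := hblk (2 ^ j) H β (D j) c hA1 hH fun q hq => by
      have h2 := lt_di q
      have h3 := di_le q
      rw [mem_D.1 hq] at h2 h3
      exact ⟨h3, h2.le⟩
    refine (mul_le_mul_right h1 _).trans ?_
    rw [← mul_assoc, ← ENNReal.ofReal_mul (inv_pos.2 (hv0 j)).le, Finset.mul_sum]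
    refine Finset.sum_le_sum fun q hq => ?_
    have hh0 := hgt_pos q.1
    have hk := kl_nonneg hU hh0
    have hAh : (2 : ℝ) ^ j ≤ hgt q.1 := by
      have h2 := di_le q
      rw [mem_D.1 hq] at h2
      exact h2
    have hkv := kl_vj hU j hAh
    have hvj := hv0 j
    have hs : ((hgt q.1) ^ (-(1 / 2) : ℝ)) ^ 2 = (hgt q.1)⁻¹ := by
      rw [← Real.rpow_natCast, ← Real.rpow_mul hh0.le]
      norm_num
      exact Real.rpow_neg_one _
    have hcq : ‖c q‖ ^ 2 ≤ kl U (hgt q.1) ^ 2 * (hgt q.1)⁻¹ * B q ^ 2 := by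
      calc ‖c q‖ ^ 2 ≤ (kl U (hgt q.1) * (hgt q.1) ^ (-(1 / 2) : ℝ) * B q) ^ 2 :=
            pow_le_pow_left₀ (norm_nonneg _) (hc q) 2
        _ = kl U (hgt q.1) ^ 2 * (hgt q.1)⁻¹ * B q ^ 2 := by rw [mul_pow, mul_pow, hs]
    have hAq : (H + 2 ^ j) * (hgt q.1)⁻¹ ≤ H * (hgt q.1)⁻¹ + 1 := by
      rw [add_mul]
      have : (2 : ℝ) ^ j * (hgt q.1)⁻¹ ≤ 1 := by
        rw [← div_eq_mul_inv, div_le_one hh0]
        exact hAh
      linarith
    have hkv' : (vj U j)⁻¹ * kl U (hgt q.1) ≤ 1 + Real.log U := by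
      rw [inv_mul_le_iff₀ hvj, mul_comm]
      exact hkv
    have hpos : 0 ≤ (hgt q.1)⁻¹ := (inv_pos.2 hh0).le
    have hpos2 : (0 : ℝ) ≤ H + 2 ^ j := by positivity
    rw [← ofReal_norm, ← ENNReal.ofReal_pow (norm_nonneg _),
      ← ENNReal.ofReal_mul (mul_nonneg (inv_pos.2 hvj).le (mul_nonneg hC₀.le hpos2)),
      ← ENNReal.ofReal_mul (by positivity)]
    apply ENNReal.ofReal_le_ofReal
    calc (vj U j)⁻¹ * (C₀ * (H + 2 ^ j)) * ‖c q‖ ^ 2
        ≤ (vj U j)⁻¹ * (C₀ * (H + 2 ^ j)) * (kl U (hgt q.1) ^ 2 * (hgt q.1)⁻¹ * B q ^ 2) :=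
          mul_le_mul_of_nonneg_left hcq (mul_nonneg (inv_pos.2 hvj).le (mul_nonneg hC₀.le hpos2))
      _ = C₀ * ((vj U j)⁻¹ * kl U (hgt q.1)) * (kl U (hgt q.1) * ((H + 2 ^ j) * (hgt q.1)⁻¹) * B q ^ 2) := by
          ring
      _ ≤ C₀ * (1 + Real.log U) * (kl U (hgt q.1) * (H * (hgt q.1)⁻¹ + 1) * B q ^ 2) := by
          have h7 : 0 ≤ (H + 2 ^ j) * (hgt q.1)⁻¹ := mul_nonneg hpos2 hpos
          refine mul_le_mul (mul_le_mul_of_nonneg_left hkv' hC₀.le) ?_ ?_ (by positivity)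
          · exact mul_le_mul_of_nonneg_right (mul_le_mul_of_nonneg_left hAq hk) (by positivity)
          · exact mul_nonneg (mul_nonneg hk h7) (by positivity)
  refine (mul_le_mul_right (ENNReal.tsum_le_tsum hj) _).trans ?_
  rw [tsum_D, ENNReal.tsum_mul_left, ← mul_assoc, ← ENNReal.ofReal_mul (by positivity)]
  refine le_of_eq ?_
  congr 2
  ring

end Pool.Agent.P07318t
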